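import Mathlib
import Pool.Agent.W446.AS.FMain

/-!
# Clifford theory over a linear character of a normal subgroup
-/

set_option autoImplicit false
set_option linter.unusedSectionVars false

namespace Pool.Agent.R362

open Pool.Agent.H302R2 Pool.Agent.H541R3.ART Pool.Agent.H302R5 Pool.Agent.H302R6
  Pool.Agent.W446.AS

variable {G : Type} [Group G]

/-- the stabilizer of a linear character of a normal subgroup -/
def stab (A : Subgroup G) [A.Normal] (μ : A →* ℂˣ) : Subgroup G where
  carrier := {g | ∀ a : A, μ (MulAut.conjNormal g a) = μ a}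
  mul_mem' := by
    intro x y hx hy a
    rw [map_mul, MulAut.mul_apply, hx, hy]
  one_mem' := by
    intro a
    rw [map_one, MulAut.one_apply]
  inv_mem' := by
    intro x hx a
    have h1 := hx (MulAut.conjNormal x⁻¹ a)
    rw [← MulAut.mul_apply, ← map_mul, mul_inv_cancel, map_one, MulAut.one_apply] at h1
    exact h1.symm

lemma mem_stab {A : Subgroup G} [A.Normal] {μ : A →* ℂˣ} {g : G} :
    g ∈ stab A μ ↔ ∀ a : A, μ (MulAut.conjNormal g a) = μ a := Iff.rfl

lemma conjNormal_coe_self {A : Subgroup G} [A.Normal] (a b : A) :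
    MulAut.conjNormal (a : G) b = a * b * a⁻¹ := by
  apply Subtype.ext
  rw [MulAut.conjNormal_apply]
  rfl

lemma le_stab (A : Subgroup G) [A.Normal] (μ : A →* ℂˣ) : A ≤ stab A μ := by
  intro x hx a
  have h1 := conjNormal_coe_self (⟨x, hx⟩ : A) a
  rw [show MulAut.conjNormal x a = MulAut.conjNormal ((⟨x, hx⟩ : A) : G) a from rfl, h1, map_mul,
    map_mul, map_inv, mul_comm (μ _) (μ a), mul_inv_cancel_right]

lemma center_le_stab (A : Subgroup G) [A.Normal] (μ : A →* ℂˣ) :
    Subgroup.center G ≤ stab A μ := by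
  intro x hx a
  congr 1
  apply Subtype.ext
  rw [MulAut.conjNormal_apply, ← (Subgroup.mem_center_iff.mp hx) (a : G), mul_inv_cancel_right]

variable [Finite G]

/-- Let `P` be a projection commuting with `H` and with `P ρ(g) P = 0` outside `H`. Then the image
of `P` is an irreducible representation of `H` with the same pairings and `ρ` is induced from it. -/
lemma imprim_eq {V : Type} [AddCommGroup V] [Module ℂ V] [FiniteDimensional ℂ V]
    {ρ : Representation ℂ G V} (hρ : Irred ρ) (H : Subgroup G) (P : V →ₗ[ℂ] V)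
    (hP2 : ∀ v, P (P v) = P v) (hP0 : P ≠ 0) (hPH : ∀ h ∈ H, ∀ v, P (ρ h v) = ρ h (P v))
    (hPG : ∀ g, g ∉ H → ∀ v, P (ρ g (P v)) = 0) :
    ∃ σ : Representation ℂ H (LinearMap.range P), Irred σ ∧
      (∀ (h : H) (v : LinearMap.range P), ((σ h v : LinearMap.range P) : V) = ρ h v) ∧
      ρ.character 1 = H.index * σ.character 1 ∧
      ∀ θ : G → ℂ, (∀ g x : G, θ (x * g * x⁻¹) = θ g) →
      pr θ ρ.character = pr (fun h : H => θ h) σ.character := by
  classical
  have : Fintype G := Fintype.ofFinite G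
  have : Fintype H := Fintype.ofFinite H
  have hfix : ∀ v ∈ LinearMap.range P, P v = v := by
    rintro v ⟨w, rfl⟩
    exact hP2 w
  let σ : Representation ℂ H (LinearMap.range P) :=
    { toFun := fun h => (ρ h).restrict (by
        rintro v ⟨w, rfl⟩
        exact ⟨ρ h w, hPH h h.2 w⟩)
      map_one' := by
        ext v
        simp
      map_mul' := by
        intro a b
        ext v
        simp }
  have hσ : ∀ (h : H) (v : LinearMap.range P), ((σ h v : LinearMap.range P) : V) = ρ h v :=
    fun h v => rfl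
  have hσI : Irred σ := by
    refine ⟨?_, ?_⟩
    · by_contra hcon
      rw [not_nontrivial_iff_subsingleton] at hcon
      apply hP0
      ext v
      have h1 : (⟨P v, ⟨v, rfl⟩⟩ : LinearMap.range P) = 0 := Subsingleton.elim _ _
      have h2 := congrArg Subtype.val h1
      simpa using h2
    · intro U hU
      by_cases hU0 : U = ⊥
      · left; exact hU0
      right
      let U' : Submodule ℂ V :=
        { carrier := {v | ∀ g : G, ∃ u ∈ U, P (ρ g v) = u}
          add_mem' := by
            intro a b ha hb g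
            obtain ⟨u, hu, h1⟩ := ha g
            obtain ⟨w, hw, h2⟩ := hb g
            exact ⟨u + w, U.add_mem hu hw, by rw [map_add, map_add, h1, h2]; rfl⟩
          zero_mem' := by
            intro g
            exact ⟨0, U.zero_mem, by rw [map_zero, map_zero]; rfl⟩
          smul_mem' := by
            intro c a ha g
            obtain ⟨u, hu, h1⟩ := ha g
            exact ⟨c • u, U.smul_mem c hu, by rw [map_smul, map_smul, h1]; rfl⟩ }
      have hU' : ∀ v : V, v ∈ U' ↔ ∀ g : G, ∃ u ∈ U, P (ρ g v) = u := fun v => Iff.rfl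
      rcases hρ.2 U' (by
        intro x v hv g
        obtain ⟨u, hu, h1⟩ := hv (g * x)
        refine ⟨u, hu, ?_⟩
        rw [map_mul, Module.End.mul_apply] at h1
        exact h1) with h | h
      · exfalso
        apply hU0
        rw [eq_bot_iff]
        intro u hu
        have h1 : (u : V) ∈ U' := by
          intro g
          by_cases hg : g ∈ H
          · refine ⟨σ ⟨g, hg⟩ u, hU _ _ hu, ?_⟩
            rw [hPH g hg, hfix _ u.2, hσ]
          · refine ⟨0, U.zero_mem, ?_⟩
            have := hPG g hg u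
            rw [hfix _ u.2] at this
            rw [this]
            rfl
        rw [h, Submodule.mem_bot] at h1
        rw [Submodule.mem_bot]
        exact Subtype.ext h1
      · rw [eq_top_iff]
        intro v _
        have h1 : (v : V) ∈ U' := by rw [h]; exact Submodule.mem_top
        obtain ⟨u, hu, h2⟩ := h1 1
        rw [map_one, Module.End.one_apply, hfix _ v.2] at h2
        have h3 : v = u := Subtype.ext h2
        rw [h3]; exact hu
  have hn1 := hρ.1
  have hn2 := hσI.1
  obtain ⟨w, hw⟩ := exists_ne (0 : LinearMap.range P)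
  have hdimV : (Module.finrank ℂ V : ℂ) ≠ 0 := by
    exact_mod_cast (Module.finrank_pos (R := ℂ) (M := V)).ne'
  have hG : (Nat.card G : ℂ) ≠ 0 := card_ne
  have hH : (Nat.card H : ℂ) ≠ 0 := card_ne
  -- the degree
  have hdeg : (Nat.card G : ℂ) * Module.finrank ℂ (LinearMap.range P)
      = Nat.card H * Module.finrank ℂ V := by
    let T : V →ₗ[ℂ] V := ∑ g : G, ρ g * P * ρ g⁻¹
    obtain ⟨c, hc⟩ := hρ.scalar T (by
      intro x v
      simp only [T, LinearMap.sum_apply, map_sum]
      rw [← Equiv.sum_comp (Equiv.mulLeft x)]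
      refine Finset.sum_congr rfl fun g _ => ?_
      simp only [Equiv.coe_mulLeft, Module.End.mul_apply, mul_inv_rev, map_mul]
      rw [← Module.End.mul_apply (ρ x⁻¹), ← map_mul, inv_mul_cancel, map_one, Module.End.one_apply])
    have hc1 : c = Nat.card H := by
      have h1 := hc (w : V)
      have h2 := congrArg P h1
      simp only [T, LinearMap.sum_apply, map_sum, map_smul] at h2
      rw [hfix _ w.2] at h2
      have h3 : ∀ g : G, P ((ρ g * P * ρ g⁻¹) (w : V)) = if g ∈ H then (w : V) else 0 := by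
        intro g
        simp only [Module.End.mul_apply]
        by_cases hg : g ∈ H
        · rw [if_pos hg, hPH _ (H.inv_mem hg), hfix _ w.2, hPH _ hg, hPH _ (H.inv_mem hg),
            hfix _ w.2, ← Module.End.mul_apply, ← map_mul, mul_inv_cancel, map_one,
            Module.End.one_apply]
        · rw [if_neg hg]
          have := hPG g⁻¹ (fun h => hg (by simpa using H.inv_mem h)) w
          rw [hfix _ w.2] at this
          rw [this, map_zero, map_zero]
      rw [Finset.sum_congr rfl (fun g _ => h3 g), ← Finset.sum_filter, Finset.sum_const] at h2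
      have h4 : (Finset.univ.filter fun g => g ∈ H).card = Nat.card H := by
        rw [Nat.card_eq_fintype_card, Fintype.card_subtype]
      rw [h4, ← Nat.cast_smul_eq_nsmul ℂ] at h2
      have h5 : ((Nat.card H : ℂ) - c) • (w : V) = 0 := by rw [sub_smul, h2, sub_self]
      rcases smul_eq_zero.mp h5 with h6 | h6
      · exact (sub_eq_zero.mp h6).symm
      · exact absurd (Subtype.ext h6) hw
    have h1 : LinearMap.trace ℂ V T = c * Module.finrank ℂ V := by
      have h2 : T = c • (1 : V →ₗ[ℂ] V) := by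
        ext v
        rw [hc v]
        rfl
      rw [h2, map_smul, LinearMap.trace_one, smul_eq_mul]
    have h2 : LinearMap.trace ℂ V T = (Nat.card G : ℂ) * LinearMap.trace ℂ V P := by
      simp only [T, map_sum]
      have h3 : ∀ g : G, LinearMap.trace ℂ V (ρ g * P * ρ g⁻¹) = LinearMap.trace ℂ V P := by
        intro g
        rw [LinearMap.trace_mul_comm, ← mul_assoc, ← map_mul, inv_mul_cancel, map_one, one_mul]
      rw [Finset.sum_congr rfl (fun g _ => h3 g), Finset.sum_const, Finset.card_univ, nsmul_eq_mul,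
        ← Nat.card_eq_fintype_card]
    have h3 : LinearMap.trace ℂ V P = Module.finrank ℂ (LinearMap.range P) := by
      have h4 : LinearMap.IsProj (LinearMap.range P) P := ⟨fun v => ⟨v, rfl⟩, hfix⟩
      exact h4.trace
    rw [← h3, ← h2, h1, hc1]
  refine ⟨σ, hσI, hσ, ?_, fun θ hθ => ?_⟩
  · rw [Representation.char_one, Representation.char_one]
    have h1 : (Nat.card G : ℂ) = Nat.card H * H.index := by
      rw [← Subgroup.card_mul_index H]
      push_cast
      rfl
    rw [h1] at hdeg
    have h2 : (Nat.card H : ℂ) * (Module.finrank ℂ V)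
        = Nat.card H * (H.index * Module.finrank ℂ (LinearMap.range P)) := by
      rw [← hdeg]; ring
    exact mul_left_cancel₀ hH h2
  obtain ⟨c, hc, hc1⟩ := hρ.class_op hθ
  obtain ⟨c', hc', hc1'⟩ := hσI.class_op (θ := fun h : H => θ h) (fun g x => by
    simpa using hθ g x)
  have hcc : c = c' := by
    have h1 := hc (w : V)
    have h2 := congrArg P h1
    rw [map_sum, map_smul, hfix _ w.2] at h2
    have h3 : ∑ g : G, P (θ g • ρ g⁻¹ (w : V)) = ∑ h : H, θ h • ρ (h : G)⁻¹ (w : V) := by
      have h4 : ∀ g : G, P (θ g • ρ g⁻¹ (w : V)) = if g ∈ H then θ g • ρ g⁻¹ (w : V) else 0 := by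
        intro g
        rw [map_smul]
        by_cases hg : g ∈ H
        · rw [if_pos hg, hPH _ (H.inv_mem hg), hfix _ w.2]
        · rw [if_neg hg]
          have := hPG g⁻¹ (fun h => hg (by simpa using H.inv_mem h)) w
          rw [hfix _ w.2] at this
          rw [this, smul_zero]
      rw [Finset.sum_congr rfl (fun g _ => h4 g), ← Finset.sum_filter]
      exact Finset.sum_subtype (Finset.univ.filter fun g => g ∈ H) (by simp)
        (fun g => θ g • ρ g⁻¹ (w : V))
    have h5 : ((∑ h : H, θ h • σ h⁻¹ w : LinearMap.range P) : V) = c' • (w : V) := by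
      rw [hc' w]
      rfl
    rw [Submodule.coe_sum] at h5
    have h6 : ∀ h : H, ((θ h • σ h⁻¹ w : LinearMap.range P) : V) = θ h • ρ (h : G)⁻¹ (w : V) := by
      intro h
      rfl
    rw [Finset.sum_congr rfl (fun h _ => h6 h), ← h3, h2] at h5
    have h7 : (c - c') • (w : V) = 0 := by rw [sub_smul, h5, sub_self]
    rcases smul_eq_zero.mp h7 with h8 | h8
    · exact sub_eq_zero.mp h8
    · exact absurd (Subtype.ext h8) hw
  rw [pr_eq, pr_eq, hc1]
  have h9 : ∑ h : H, θ h * σ.character h⁻¹ = c' * Module.finrank ℂ (LinearMap.range P) := hc1'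
  rw [h9, hcc]
  field_simp
  linear_combination (-c') * hdeg

/-- Clifford theory: an irreducible representation with an eigenvector of the normal subgroup `A`
for the linear character `μ` is induced from an irreducible representation over `μ` of the
stabilizer of `μ`. -/
theorem stab_irr {V : Type} [AddCommGroup V] [Module ℂ V] [FiniteDimensional ℂ V]
    {ρ : Representation ℂ G V} (hρ : Irred ρ) (A : Subgroup G) [A.Normal] (μ : A →* ℂˣ)
    (v₀ : V) (hv₀ : v₀ ≠ 0) (hμ : ∀ a : A, ρ a v₀ = ((μ a : ℂˣ) : ℂ) • v₀) :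
    ∃ ψ ∈ Irr (stab A μ),
      (∀ (h : stab A μ) (a : A), ψ (h * ⟨a, le_stab A μ a.2⟩) = ((μ a : ℂˣ) : ℂ) * ψ h) ∧
      ρ.character 1 = (stab A μ).index * ψ 1 ∧
      ∀ θ : G → ℂ, (∀ g x : G, θ (x * g * x⁻¹) = θ g) →
      pr θ ρ.character = pr (fun h : stab A μ => θ h) ψ := by
  classical
  have : Fintype A := Fintype.ofFinite A
  have hcA : (Nat.card A : ℂ) ≠ 0 := card_ne
  let P : V →ₗ[ℂ] V := (Nat.card A : ℂ)⁻¹ • ∑ a : A, (((μ a)⁻¹ : ℂˣ) : ℂ) • ρ a
  have hP : ∀ v, P v = (Nat.card A : ℂ)⁻¹ • ∑ a : A, (((μ a)⁻¹ : ℂˣ) : ℂ) • ρ a v := by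
    intro v
    simp [P, LinearMap.sum_apply]
  have hPw : ∀ v, (∀ a : A, ρ a v = ((μ a : ℂˣ) : ℂ) • v) → P v = v := by
    intro v hv
    rw [hP]
    have h1 : ∀ a : A, (((μ a)⁻¹ : ℂˣ) : ℂ) • ρ a v = v := by
      intro a
      rw [hv, smul_smul, ← Units.val_mul, inv_mul_cancel, Units.val_one, one_smul]
    rw [Finset.sum_congr rfl (fun a _ => h1 a), Finset.sum_const, Finset.card_univ,
      ← Nat.card_eq_fintype_card, ← Nat.cast_smul_eq_nsmul ℂ, smul_smul, inv_mul_cancel₀ hcA,
      one_smul]
  have hwP : ∀ (a : A) (v : V), ρ a (P v) = ((μ a : ℂˣ) : ℂ) • P v := by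
    intro a v
    rw [hP, map_smul, map_sum, smul_comm ((μ a : ℂˣ) : ℂ) ((Nat.card A : ℂ)⁻¹)]
    congr 1
    rw [Finset.smul_sum, ← Equiv.sum_comp (Equiv.mulLeft a) (fun b : A => ((μ a : ℂˣ) : ℂ) •
      (((μ b)⁻¹ : ℂˣ) : ℂ) • ρ b v)]
    refine Finset.sum_congr rfl fun b _ => ?_
    rw [map_smul, Equiv.coe_mulLeft, map_mul, mul_inv_rev, smul_smul, ← Units.val_mul,
      mul_comm (μ b)⁻¹, ← mul_assoc, mul_inv_cancel, one_mul, Subgroup.coe_mul, map_mul,
      Module.End.mul_apply]
  have hPc : ∀ (g : G), g ∈ stab A μ → ∀ v, P (ρ g v) = ρ g (P v) := by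
    intro g hg v
    rw [hP, hP, map_smul, map_sum]
    congr 1
    rw [← Equiv.sum_comp (MulAut.conjNormal g).toEquiv (fun b : A =>
      (((μ b)⁻¹ : ℂˣ) : ℂ) • ρ b (ρ g v))]
    refine Finset.sum_congr rfl fun b _ => ?_
    change (((μ (MulAut.conjNormal g b))⁻¹ : ℂˣ) : ℂ) • ρ (MulAut.conjNormal g b : A) (ρ g v) = _
    rw [map_smul, mem_stab.mp hg, ← Module.End.mul_apply,
      ← Module.End.mul_apply, ← map_mul, ← map_mul, MulAut.conjNormal_apply,
      inv_mul_cancel_right]
  have hPG : ∀ g, g ∉ stab A μ → ∀ v, P (ρ g (P v)) = 0 := by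
    intro g hg v
    have h0 : ∃ a : A, μ (MulAut.conjNormal g⁻¹ a) ≠ μ a := by
      by_contra hcon
      push Not at hcon
      apply hg
      have h1 : g⁻¹ ∈ stab A μ := hcon
      simpa using (stab A μ).inv_mem h1
    obtain ⟨a, ha⟩ := h0
    have h1 : ρ a (ρ g (P v)) = ((μ (MulAut.conjNormal g⁻¹ a) : ℂˣ) : ℂ) • ρ g (P v) := by
      have h2 : (a : G) * g = g * (MulAut.conjNormal g⁻¹ a : A) := by
        rw [MulAut.conjNormal_apply]
        group
      rw [← Module.End.mul_apply, ← map_mul, h2, map_mul, Module.End.mul_apply, hwP, map_smul]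
    have h2 := hPc a (le_stab A μ a.2) (ρ g (P v))
    rw [h1, map_smul, hwP] at h2
    have h3 : (((μ (MulAut.conjNormal g⁻¹ a) : ℂˣ) : ℂ) - ((μ a : ℂˣ) : ℂ)) • P (ρ g (P v)) = 0 := by
      rw [sub_smul, h2, sub_self]
    rcases smul_eq_zero.mp h3 with h4 | h4
    · exact absurd (Units.ext (sub_eq_zero.mp h4)) ha
    · exact h4
  have hP0 : P v₀ = v₀ := hPw v₀ hμ
  obtain ⟨σ, hσI, hσ, hdeg, hpr⟩ := imprim_eq hρ (stab A μ) P (fun v => hPw _ fun a => hwP a v) (by
    intro h
    rw [h] at hP0
    exact hv₀ hP0.symm) (fun h hh v => hPc h hh v) hPG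
  refine ⟨σ.character, irr_of_irred hσI, ?_, hdeg, hpr⟩
  intro h a
  have h1 : σ (h * ⟨a, le_stab A μ a.2⟩) = ((μ a : ℂˣ) : ℂ) • σ h := by
    refine LinearMap.ext fun v => ?_
    rw [map_mul, Module.End.mul_apply, LinearMap.smul_apply, ← map_smul]
    congr 1
    apply Subtype.ext
    rw [hσ]
    obtain ⟨w, hw⟩ := v.2
    change ρ a (v : V) = ((μ a : ℂˣ) : ℂ) • (v : V)
    rw [← hw]
    exact hwP a w
  change LinearMap.trace ℂ _ (σ (h * ⟨a, le_stab A μ a.2⟩)) = _
  rw [h1, map_smul, smul_eq_mul]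
  rfl

end Pool.Agent.R362
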