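import Mathlib
import Pool.Agent.R362.Stab

/-!
# The part of a Heilbronn function over an invariant linear character of a normal subgroup
-/

set_option autoImplicit false
set_option linter.unusedSectionVars false

namespace Pool.Agent.R362

open Pool.Agent.H302R2 Pool.Agent.H541R3.ART Pool.Agent.H302R5 Pool.Agent.H302R6
  Pool.Agent.W446.AS

variable {G : Type} [Group G] [Finite G] {N : Subgroup G} [N.Normal] {μ : N →* ℂˣ} {θ : G → ℂ}

lemma lam_heilbronn' (hμ : ∀ (g : G) (a : N), μ (MulAut.conjNormal g a) = μ a)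
    (hθ : IsHeilbronn θ) : IsHeilbronn (lam N μ θ) where
  conj g h := by
    classical
    have : Fintype N := Fintype.ofFinite N
    rw [lam_eq, lam_eq]
    congr 1
    rw [← Equiv.sum_comp (MulAut.conjNormal h).toEquiv]
    refine Finset.sum_congr rfl fun z _ => ?_
    change θ (h * g * h⁻¹ * (MulAut.conjNormal h z : N)) *
      (((μ (MulAut.conjNormal h z))⁻¹ : ℂˣ) : ℂ) = _
    rw [hμ, MulAut.conjNormal_apply]
    have h1 : h * g * h⁻¹ * (h * z * h⁻¹) = h * (g * z) * h⁻¹ := by group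
    rw [h1, hθ.conj]
  mult H ψ := by
    classical
    have : Fintype N := Fintype.ofFinite N
    have : Fintype H := Fintype.ofFinite H
    let φ : H →* MulAut N := (MulAut.conjNormal (H := N)).comp H.subtype
    have : Fintype (N ⋊[φ] H) := Fintype.ofEquiv _ SemidirectProduct.equivProd.symm
    let f : N ⋊[φ] H →* G := SemidirectProduct.lift N.subtype H.subtype (by
      intro h
      ext n
      simp [φ, MulAut.conjNormal_apply])
    let ν : N ⋊[φ] H →* ℂˣ := SemidirectProduct.lift μ ψ (by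
      intro h
      ext n
      simp [φ, hμ])
    obtain ⟨n, hn⟩ := hθ.mult_hom f ν
    refine ⟨n, ?_⟩
    rw [finsum_eq_sum_of_fintype]
    rw [← Equiv.sum_comp SemidirectProduct.equivProd.symm, Fintype.sum_prod_type,
      Nat.card_congr SemidirectProduct.equivProd, Nat.card_prod] at hn
    have h1 : ∀ (h : H) (a : N), θ (f (SemidirectProduct.equivProd.symm (a, h))) *
        (((ν (SemidirectProduct.equivProd.symm (a, h)))⁻¹ : ℂˣ) : ℂ)
        = θ (h * a) * (((μ a)⁻¹ : ℂˣ) : ℂ) * (((ψ h)⁻¹ : ℂˣ) : ℂ) := by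
      intro h a
      have h2 : (SemidirectProduct.equivProd.symm (a, h) : N ⋊[φ] H)
          = SemidirectProduct.inl a * SemidirectProduct.inr h := by
        exact SemidirectProduct.mk_eq_inl_mul_inr h a
      rw [h2]
      have h3 : f (SemidirectProduct.inl a * SemidirectProduct.inr h) = (a : G) * h := by
        rw [map_mul]
        simp [f]
      have h4 : ν (SemidirectProduct.inl a * SemidirectProduct.inr h) = μ a * ψ h := by
        rw [map_mul]
        simp [ν]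
      rw [h3, h4, mul_inv_rev, mul_comm (ψ h)⁻¹, Units.val_mul, ← mul_assoc]
      congr 2
      have h5 := hθ.conj ((h : G) * a) (a : G)
      rw [← h5]
      congr 1
      group
    have h6 : (Nat.card N : ℂ) ≠ 0 := card_ne
    rw [Finset.sum_comm] at hn
    simp_rw [h1] at hn
    have h7 : ∀ h : H, lam N μ θ h * (((ψ h)⁻¹ : ℂˣ) : ℂ) = (Nat.card N : ℂ)⁻¹ *
        ∑ a : N, θ (h * a) * (((μ a)⁻¹ : ℂˣ) : ℂ) * (((ψ h)⁻¹ : ℂˣ) : ℂ) := by
      intro h
      rw [lam_eq, mul_assoc, Finset.sum_mul]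
    rw [Finset.sum_congr rfl (fun h _ => h7 h), ← Finset.mul_sum, hn]
    push_cast
    field_simp

/-- the part over `μ` of an irreducible character is zero or the character -/
lemma lam_irr (hμ : ∀ (g : G) (a : N), μ (MulAut.conjNormal g a) = μ a)
    {χ : G → ℂ} (hχ : χ ∈ Irr G) :
    lam N μ χ = 0 ∨ (lam N μ χ = χ ∧
      ∀ (g : G) (a : N), χ (g * a) = ((μ a : ℂˣ) : ℂ) * χ g) := by
  classical
  have : Fintype N := Fintype.ofFinite N
  have : Fintype G := Fintype.ofFinite G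
  obtain ⟨m, ρ, hρ, rfl⟩ := exists_rep hχ
  have hcA : (Nat.card N : ℂ) ≠ 0 := card_ne
  let P : (Fin m → ℂ) →ₗ[ℂ] (Fin m → ℂ) :=
    (Nat.card N : ℂ)⁻¹ • ∑ a : N, (((μ a)⁻¹ : ℂˣ) : ℂ) • ρ a
  have hP : ∀ v, P v = (Nat.card N : ℂ)⁻¹ • ∑ a : N, (((μ a)⁻¹ : ℂˣ) : ℂ) • ρ a v := by
    intro v
    simp [P, LinearMap.sum_apply]
  have hPw : ∀ v, (∀ a : N, ρ a v = ((μ a : ℂˣ) : ℂ) • v) → P v = v := by
    intro v hv
    rw [hP]
    have h1 : ∀ a : N, (((μ a)⁻¹ : ℂˣ) : ℂ) • ρ a v = v := by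
      intro a
      rw [hv, smul_smul, ← Units.val_mul, inv_mul_cancel, Units.val_one, one_smul]
    rw [Finset.sum_congr rfl (fun a _ => h1 a), Finset.sum_const, Finset.card_univ,
      ← Nat.card_eq_fintype_card, ← Nat.cast_smul_eq_nsmul ℂ, smul_smul, inv_mul_cancel₀ hcA,
      one_smul]
  have hwP : ∀ (a : N) (v : Fin m → ℂ), ρ a (P v) = ((μ a : ℂˣ) : ℂ) • P v := by
    intro a v
    rw [hP, map_smul, map_sum, smul_comm ((μ a : ℂˣ) : ℂ) ((Nat.card N : ℂ)⁻¹)]
    congr 1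
    rw [Finset.smul_sum, ← Equiv.sum_comp (Equiv.mulLeft a) (fun b : N => ((μ a : ℂˣ) : ℂ) •
      (((μ b)⁻¹ : ℂˣ) : ℂ) • ρ b v)]
    refine Finset.sum_congr rfl fun b _ => ?_
    rw [map_smul, Equiv.coe_mulLeft, map_mul, mul_inv_rev, smul_smul, ← Units.val_mul,
      mul_comm (μ b)⁻¹, ← mul_assoc, mul_inv_cancel, one_mul, Subgroup.coe_mul, map_mul,
      Module.End.mul_apply]
  have hPc : ∀ (g : G) (v), P (ρ g v) = ρ g (P v) := by
    intro g v
    rw [hP, hP, map_smul, map_sum]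
    congr 1
    rw [← Equiv.sum_comp (MulAut.conjNormal g).toEquiv (fun b : N =>
      (((μ b)⁻¹ : ℂˣ) : ℂ) • ρ b (ρ g v))]
    refine Finset.sum_congr rfl fun b _ => ?_
    change (((μ (MulAut.conjNormal g b))⁻¹ : ℂˣ) : ℂ) • ρ (MulAut.conjNormal g b : N) (ρ g v) = _
    rw [map_smul, hμ, ← Module.End.mul_apply,
      ← Module.End.mul_apply, ← map_mul, ← map_mul, MulAut.conjNormal_apply,
      inv_mul_cancel_right]
  have hlam : ∀ g, lam N μ ρ.character g = LinearMap.trace ℂ (Fin m → ℂ) (ρ g * P) := by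
    intro g
    rw [lam_eq]
    have h1 : ρ g * P = (Nat.card N : ℂ)⁻¹ • ∑ a : N, (((μ a)⁻¹ : ℂˣ) : ℂ) • ρ (g * a) := by
      simp only [P, Algebra.mul_smul_comm, Finset.mul_sum, map_mul]
    rw [h1, map_smul, map_sum, smul_eq_mul]
    congr 1
    refine Finset.sum_congr rfl fun a _ => ?_
    rw [map_smul, smul_eq_mul, mul_comm]
    rfl
  obtain ⟨c, hc⟩ := hρ.scalar P hPc
  have hn := hρ.1
  obtain ⟨v₀, hv₀⟩ := exists_ne (0 : Fin m → ℂ)
  have hc2 : c * c = c := by
    have h1 : P (P v₀) = P v₀ := hPw _ fun a => hwP a v₀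
    rw [hc, hc, smul_smul] at h1
    have h2 : (c * c - c) • v₀ = 0 := by rw [sub_smul, h1, sub_self]
    rcases smul_eq_zero.mp h2 with h3 | h3
    · exact sub_eq_zero.mp h3
    · exact absurd h3 hv₀
  have hPc1 : P = c • (1 : (Fin m → ℂ) →ₗ[ℂ] (Fin m → ℂ)) := LinearMap.ext fun v => hc v
  rcases eq_or_ne c 0 with h0 | h0
  · left
    funext g
    rw [hlam, hPc1, h0, zero_smul, mul_zero, map_zero]
    rfl
  · right
    have hc1 : c = 1 := by
      have h1 : c * (c - 1) = 0 := by rw [mul_sub, mul_one, hc2, sub_self]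
      rcases mul_eq_zero.mp h1 with h2 | h2
      · exact absurd h2 h0
      · exact sub_eq_zero.mp h2
    rw [hc1, one_smul] at hPc1
    refine ⟨?_, ?_⟩
    · funext g
      rw [hlam, hPc1, mul_one]
      rfl
    · intro g a
      have h1 : ρ (a : G) = ((μ a : ℂˣ) : ℂ) • (1 : (Fin m → ℂ) →ₗ[ℂ] (Fin m → ℂ)) := by
        refine LinearMap.ext fun v => ?_
        have h2 := hwP a v
        rw [hPc1] at h2
        exact h2
      change LinearMap.trace ℂ _ (ρ (g * a)) = _ * LinearMap.trace ℂ _ (ρ g)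
      rw [map_mul, h1, Algebra.mul_smul_comm, mul_one, map_smul, smul_eq_mul]

lemma virt_lam' (hμ : ∀ (g : G) (a : N), μ (MulAut.conjNormal g a) = μ a) (hθ : Virt θ) :
    Virt (lam N μ θ) := by
  classical
  induction hθ using AddSubgroup.closure_induction with
  | mem χ hχ =>
    rcases lam_irr hμ hχ with h | ⟨h, -⟩
    · rw [h]
      exact zero_mem (AddSubgroup.closure (Irr G))
    · rw [h]
      exact AddSubgroup.subset_closure hχ
  | zero => rw [lam_zero]; exact zero_mem (AddSubgroup.closure (Irr G))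
  | add a b _ _ ha hb => rw [lam_add]; exact add_mem (S := AddSubgroup (G → ℂ)) ha hb
  | neg a _ ha => rw [lam_neg]; exact neg_mem (S := AddSubgroup (G → ℂ)) ha

/-- the pairing with a function over `μ` -/
lemma pr_lam' {χ : G → ℂ} (hc : ∀ g x : G, χ (x * g * x⁻¹) = χ g)
    (h : ∀ (g : G) (a : N), χ (g * a) = ((μ a : ℂˣ) : ℂ) * χ g) :
    pr (lam N μ θ) χ = pr θ χ := by
  classical
  have : Fintype N := Fintype.ofFinite N
  have : Fintype G := Fintype.ofFinite G
  rw [pr_eq, pr_eq]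
  congr 1
  have hN : (Nat.card N : ℂ) ≠ 0 := card_ne
  have h1 : ∀ g : G, lam N μ θ g * χ g⁻¹
      = (Nat.card N : ℂ)⁻¹ * ∑ a : N, θ (g * a) * χ (g * a)⁻¹ := by
    intro g
    rw [lam_eq, mul_assoc, Finset.sum_mul]
    congr 1
    refine Finset.sum_congr rfl fun a _ => ?_
    have h2 : χ (g * a)⁻¹ = (((μ a)⁻¹ : ℂˣ) : ℂ) * χ g⁻¹ := by
      have h3 : (g * (a : G))⁻¹ = (a : G)⁻¹ * (g⁻¹ * (a⁻¹ : N)) * ((a : G)⁻¹)⁻¹ := by
        push_cast
        group
      rw [h3, hc, h, map_inv]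
    rw [h2, mul_assoc]
  rw [Finset.sum_congr rfl (fun g _ => h1 g), ← Finset.mul_sum, Finset.sum_comm]
  have h4 : ∀ a : N, ∑ g : G, θ (g * a) * χ (g * a)⁻¹ = ∑ g : G, θ g * χ g⁻¹ := fun a =>
    Equiv.sum_comp (Equiv.mulRight (a : G)) (fun g => θ g * χ g⁻¹)
  rw [Finset.sum_congr rfl (fun a _ => h4 a), Finset.sum_const, Finset.card_univ, nsmul_eq_mul,
    ← Nat.card_eq_fintype_card]
  field_simp

lemma lam_one : lam N μ θ 1 = (Nat.card N : ℂ)⁻¹ * ∑ᶠ a : N, θ a * (((μ a)⁻¹ : ℂˣ) : ℂ) := by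
  simp [lam]

end Pool.Agent.R362
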