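import Mathlib
import Pool.Agent.W446.AS.FMain
import Pool.Agent.R362.Lam

/-!
# The main induction for a class of pairs (group, Heilbronn function)
-/

set_option autoImplicit false
set_option linter.unusedSectionVars false

namespace Pool.Agent.R362

open Pool.Agent.H302R2 Pool.Agent.H541R3.ART Pool.Agent.H302R5 Pool.Agent.H302R6
  Pool.Agent.W446.AS

/-- an invariant weight of a noncentral subgroup does not exist in a faithful representation -/
lemma stab_ne_top {G : Type} [Group G] {V : Type} [AddCommGroup V] [Module ℂ V]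
    [FiniteDimensional ℂ V] {ρ : Representation ℂ G V} (hρ : Irred ρ)
    (hf : ∀ g, ρ g = 1 → g = 1) (A : Subgroup G) [A.Normal] (hc : ¬ A ≤ Subgroup.center G)
    (μ : A →* ℂˣ) (v₀ : V) (hv₀ : v₀ ≠ 0) (hμ : ∀ a : A, ρ a v₀ = ((μ a : ℂˣ) : ℂ) • v₀) :
    stab A μ ≠ ⊤ := by
  intro htop
  apply hc
  have hall : ∀ (g : G) (a : A), μ (MulAut.conjNormal g a) = μ a := by
    intro g
    have h1 : g ∈ stab A μ := by rw [htop]; exact Subgroup.mem_top g
    exact h1
  let W : Submodule ℂ V :=
    { carrier := {v | ∀ a : A, ρ a v = ((μ a : ℂˣ) : ℂ) • v}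
      add_mem' := by
        intro x y hx hy a
        rw [map_add, hx a, hy a, smul_add]
      zero_mem' := by
        intro a
        rw [map_zero, smul_zero]
      smul_mem' := by
        intro c x hx a
        rw [map_smul, hx a, smul_comm] }
  have hW : ∀ v : V, v ∈ W ↔ ∀ a : A, ρ a v = ((μ a : ℂˣ) : ℂ) • v := fun v => Iff.rfl
  have hsc : ∀ (a : A) (v : V), ρ a v = ((μ a : ℂˣ) : ℂ) • v := by
    rcases hρ.2 W (by
      intro g v hv a
      have h1 : (a : G) * g = g * (MulAut.conjNormal g⁻¹ a : A) := by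
        rw [MulAut.conjNormal_apply]
        group
      rw [← Module.End.mul_apply, ← map_mul, h1, map_mul, Module.End.mul_apply, hv, map_smul,
        hall]) with h | h
    · exfalso
      apply hv₀
      have h1 : v₀ ∈ W := hμ
      rw [h, Submodule.mem_bot] at h1
      exact h1
    · intro a v
      have h1 : v ∈ W := by rw [h]; exact Submodule.mem_top
      exact h1 a
  intro a ha
  rw [Subgroup.mem_center_iff]
  intro g
  have h1 : ρ (g * a * g⁻¹ * a⁻¹) = 1 := by
    refine LinearMap.ext fun v => ?_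
    rw [map_mul, map_mul, map_mul, Module.End.mul_apply, Module.End.mul_apply,
      Module.End.mul_apply, Module.End.one_apply]
    have h2 := hsc (⟨a, ha⟩⁻¹ : A) v
    have h3 := hsc (⟨a, ha⟩ : A)
    simp only [Subgroup.coe_inv] at h2
    rw [h2, map_smul]
    simp only at h3
    rw [h3, map_smul, map_smul, smul_smul, ← Units.val_mul, map_inv, mul_inv_cancel, Units.val_one,
      one_smul, ← Module.End.mul_apply, ← map_mul, mul_inv_cancel, map_one,
      Module.End.one_apply]
  have h4 := hf _ h1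
  have h5 : g * a * g⁻¹ = a := mul_inv_eq_one.mp h4
  exact mul_inv_eq_iff_eq_mul.mp h5

/-- A class of pairs (finite group, function) closed under restriction to subgroups which contain
the centre and under averaging to quotients. -/
structure Closed (P : ∀ (G : Type) [Group G], (G → ℂ) → Prop) : Prop where
  sub : ∀ (G : Type) [Group G] [Finite G] (θ : G → ℂ), P G θ → IsHeilbronn θ → Virt θ →
    ∀ H : Subgroup G, Subgroup.center G ≤ H → P H (fun x => θ x)
  quot : ∀ (G : Type) [Group G] [Fintype G] (θ : G → ℂ), P G θ → IsHeilbronn θ → Virt θ →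
    ∀ (Y : Type) [Group Y] [Finite Y] (π : G →* Y), Function.Surjective π → P Y (push π θ)

theorem gmain (lt : Prop) (P : ∀ (G : Type) [Group G], (G → ℂ) → Prop) (hP : Closed P)
    (hobs : ∀ (G : Type) [Group G] [Finite G] (θ : G → ℂ), P G θ → IsHeilbronn θ → Virt θ →
      ∀ (F : Subgroup G) (D : ℕ), Frame G F D → (lt → D ≠ 2) →
      ∀ (ω : Subgroup.center G →* ℂˣ), Function.Injective ω →
      ∀ a : ℕ, lam (Subgroup.center G) ω θ 1 = a →
      ¬ 2 * D ≤ a ∧ ¬ (D ≤ a ∧ ∃ g, F ⊔ Subgroup.zpowers g = ⊤)) :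
    ∀ (N : ℕ) (G : Type) [Group G] [Finite G], Nat.card G = N →
    Group.IsSolvable G → ∀ θ : G → ℂ, P G θ → IsHeilbronn θ → Virt θ →
    (lt → TwoPos θ) → ∀ χ ∈ Irr G, ∃ k : ℕ, pr θ χ = k := by
  classical
  intro N
  induction N using Nat.strong_induction_on with
  | _ N ih =>
  intro G _ _ hN hsol θ hPθ hθ hvirt hlt χ hχ
  have : Fintype G := Fintype.ofFinite G
  obtain ⟨m, ρ, hρ, rfl⟩ := exists_rep hχ
  -- the kernel
  by_cases hfaith : ∀ g, ρ g = 1 → g = 1
  swap
  · push Not at hfaith
    obtain ⟨g, hg, hg1⟩ := hfaith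
    let Nk : Subgroup G := MonoidHom.ker ρ
    let π : G →* G ⧸ Nk := QuotientGroup.mk' Nk
    have hπ : Function.Surjective π := QuotientGroup.mk'_surjective Nk
    have hker : π.ker = Nk := QuotientGroup.ker_mk' Nk
    obtain ⟨ψ, hψ, h1⟩ := descend_irr hπ hρ (by
      intro x hx
      rw [hker] at hx
      exact hx)
    have hcard : Nat.card (G ⧸ Nk) < N := by
      rw [← hN, Subgroup.card_eq_card_quotient_mul_card_subgroup Nk]
      have h2 : 1 < Nat.card Nk := by
        have : Nontrivial Nk := ⟨⟨g, hg⟩, 1, fun h => hg1 (congrArg Subtype.val h)⟩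
        exact Finite.one_lt_card
      have h3 : 0 < Nat.card (G ⧸ Nk) := Nat.card_pos
      nlinarith
    obtain ⟨k, hk⟩ := ih _ hcard (G ⧸ Nk) rfl inferInstance (push π θ)
      (hP.quot G θ hPθ hθ hvirt _ π hπ)
      (push_isHeilbronn hπ hθ) (Virt.push hπ hvirt) (fun h => (hlt h).push hπ) ψ hψ
    refine ⟨k, ?_⟩
    rw [← hk, pr_push hπ]
    congr 1
    funext g
    exact h1 g
  -- Clifford
  by_cases hab : ∀ A : Subgroup G, A.Normal → (∀ a ∈ A, ∀ b ∈ A, a * b = b * a) →
      A ≤ Subgroup.center G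
  swap
  · push Not at hab
    obtain ⟨A, hAn, hAc, hA⟩ := hab
    obtain ⟨μ, v₀, hv₀, hμ⟩ := exists_weight (B := A)
      (fun a b => Subtype.ext (hAc a a.2 b b.2)) (ρ.comp A.subtype) hρ.1
    have hH := stab_ne_top hρ hfaith A hA μ v₀ hv₀ hμ
    obtain ⟨ψ, hψ, -, -, h1⟩ := stab_irr hρ A μ v₀ hv₀ hμ
    have hcard : Nat.card (stab A μ) < N := by
      rw [← hN]
      refine lt_of_le_of_ne (Subgroup.card_le_card_group _) fun h2 => hH ?_
      exact Subgroup.eq_top_of_card_eq _ h2
    obtain ⟨k, hk⟩ := ih _ hcard (stab A μ) rfl inferInstance (fun x => θ x)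
      (hP.sub G θ hPθ hθ hvirt _ (center_le_stab A μ))
      (hθ.comp (stab A μ).subtype) (hvirt.comp (stab A μ).subtype)
      (fun h => (hlt h).comp (stab A μ).subtype) ψ hψ
    exact ⟨k, by rw [h1 θ hθ.conj, hk]⟩
  -- all abelian normal subgroups are central
  by_cases hZ : Subgroup.center G = ⊤
  · exact abelian_case hZ hθ hχ
  have hn := hρ.1
  obtain ⟨v₀, hv₀⟩ := exists_ne (0 : Fin m → ℂ)
  obtain ⟨ω, hω⟩ := hρ.central
  have hωi : Function.Injective ω := by
    rw [injective_iff_map_eq_one]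
    intro z hz
    apply Subtype.ext
    apply hfaith
    refine LinearMap.ext fun v => ?_
    rw [hω z v, hz, Units.val_one, one_smul, Module.End.one_apply]
  have hχω : ∀ (g : G) (z : Subgroup.center G),
      ρ.character (g * z) = ((ω z : ℂˣ) : ℂ) * ρ.character g := by
    intro g z
    have h1 : ρ (g * z) = ((ω z : ℂˣ) : ℂ) • ρ g := by
      refine LinearMap.ext fun v => ?_
      rw [map_mul, Module.End.mul_apply, hω, map_smul, LinearMap.smul_apply]
    change LinearMap.trace ℂ _ (ρ (g * z)) = _ * LinearMap.trace ℂ _ (ρ g)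
    rw [h1, map_smul, smul_eq_mul]
  obtain ⟨E, D, hE⟩ := exists_frame hab ω hωi hZ
  obtain ⟨d, hd, hdcard, hdiv⟩ := ext_sub hE.le hE.comm (fun x _ hx => hE.cent x hx) ω hωi
  have hZpos : 0 < Nat.card (Subgroup.center G) := Nat.card_pos
  have hdp : d = D := by
    have h1 : d ^ 2 = D ^ 2 := by
      apply Nat.eq_of_mul_eq_mul_right hZpos
      rw [hdcard, hE.card]
    exact Nat.pow_left_injective (n := 2) (by norm_num) h1
  let τ : G → ℂ := lam (Subgroup.center G) ω θ
  have hτH : IsHeilbronn τ := lam_heilbronn le_rfl hθ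
  have hτV : Virt τ := hvirt.lam le_rfl
  have hτpr : pr τ ρ.character = pr θ ρ.character := pr_lam hvirt le_rfl hχ hχω
  obtain ⟨s, hs⟩ := hθ.exists_deg
  obtain ⟨a, har, ha⟩ := lam_one_le (μ := ω) le_rfl hθ hs
  have ha' : τ 1 = a := ha
  obtain ⟨k, hk⟩ := hdiv G E.subtype τ hτH (by
    intro g z
    exact lam_mul (g : G) z)
  have hak : a = k * d := by
    rw [ha'] at hk
    exact_mod_cast hk
  rw [← hτpr]
  by_cases ha0 : a = 0
  · refine ⟨0, ?_⟩
    have h1 : τ = 0 := by
      funext g
      have h2 := hτH.norm_le g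
      rw [ha', ha0] at h2
      simpa using h2
    rw [h1, pr_zero_left]
    simp
  have hk0 : 0 < k := by
    rcases Nat.eq_zero_or_pos k with h | h
    · rw [h, zero_mul] at hak; exact absurd hak ha0
    · exact h
  have hda : d ≤ a := by nlinarith
  by_cases hl2 : lt ∧ D = 2
  · obtain ⟨hl, hD2⟩ := hl2
    rw [hτpr]
    rw [hD2] at hE
    rcases two_frame hE hχ hωi hχω with h3 | ⟨R, hR, hR0⟩
    · obtain ⟨k, hk⟩ := hlt hl G (MonoidHom.id G) _ hχ h3
      exact ⟨k, hk⟩
    · -- support in a proper subgroup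
      have hcard : Nat.card R < N := by
        rw [← hN]
        refine lt_of_le_of_ne (Subgroup.card_le_card_group R) fun h2 => hR ?_
        exact Subgroup.eq_top_of_card_eq R h2
      have hZR : Subgroup.center G ≤ R := by
        intro z hz
        by_contra hzR
        have h4 := hR0 z hzR
        have h5 := hχω 1 ⟨z, hz⟩
        rw [one_mul] at h5
        rw [h5] at h4
        obtain ⟨d', hd', h6⟩ := irr_deg_pos hχ
        rw [h6] at h4
        rcases mul_eq_zero.mp h4 with h7 | h7
        · exact (ω ⟨z, hz⟩).ne_zero h7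
        · have : (d' : ℂ) ≠ 0 := by exact_mod_cast hd'.ne'
          exact this h7
      have hpos := ih _ hcard R rfl inferInstance (fun x => θ x)
        (hP.sub G θ hPθ hθ hvirt R hZR)
        (hθ.comp R.subtype) (hvirt.comp R.subtype)
        (fun h => (hlt h).comp R.subtype)
      obtain ⟨l, hl'⟩ := hvirt.pr_int hχ
      have h4 := pr_support hvirt hχ R hR0 hpos
      obtain ⟨j, hj⟩ := h4
      have h5 : (0 : ℤ) ≤ l := by
        rw [hl'] at hj
        have h6 : (Nat.card G : ℤ) * l = j := by exact_mod_cast hj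
        have h7 : (0 : ℤ) < Nat.card G := by exact_mod_cast Nat.card_pos
        by_contra hcon
        push Not at hcon
        have h8 : (0 : ℤ) ≤ j := by positivity
        nlinarith
      obtain ⟨l', hl''⟩ := Int.eq_ofNat_of_zero_le h5
      exact ⟨l', by rw [hl', hl'']; simp⟩
  obtain ⟨hno, hcyc⟩ := hobs G θ hPθ hθ hvirt E D hE (fun h1 h2 => hl2 ⟨h1, h2⟩) ω hωi a ha
  rw [← hdp] at hno hcyc
  have hk1 : k = 1 := by
    by_contra h
    apply hno
    have h1 : 2 ≤ k := by omega
    nlinarith
  have had : τ 1 = d := by rw [ha', hak, hk1, one_mul]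
  replace hcyc : ¬ ∃ g, E ⊔ Subgroup.zpowers g = ⊤ := fun h => hcyc ⟨hda, h⟩
  push Not at hcyc
  -- the norms on the subgroups `E ⊔ ⟨g⟩`
  refine final hτV had ?_ _ hχ
  let c : G → Subgroup G := fun g => E ⊔ Subgroup.zpowers g
  have hcm : ∀ x, x ∈ c x := fun x => Subgroup.mem_sup_right (Subgroup.mem_zpowers x)
  have hmono : ∀ x y, x ∈ c y → c x ≤ c y := by
    intro x y hx
    refine sup_le le_sup_left ?_
    rw [Subgroup.zpowers_le]
    exact hx
  have hsum := mobius c hcm hmono (fun x => τ x * τ x⁻¹ - 1) (by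
    intro y
    have : Fintype (c y) := Fintype.ofFinite _
    have hZK : Subgroup.center G ≤ c y := hE.le.trans le_sup_left
    have hcard : Nat.card (c y) < N := by
      rw [← hN]
      refine lt_of_le_of_ne (Subgroup.card_le_card_group _) fun h2 => hcyc y ?_
      exact Subgroup.eq_top_of_card_eq _ h2
    have hpos := ih _ hcard (c y) rfl inferInstance (fun x => θ x)
      (hP.sub G θ hPθ hθ hvirt (c y) hZK)
      (hθ.comp (c y).subtype) (hvirt.comp (c y).subtype)
      (fun h => (hlt h).comp (c y).subtype)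
    have h1 := norm_one (G := c y) (τ := fun x => τ x) (hτV.comp (c y).subtype) hd
      (by simpa using had) (by
        intro ψ hψ
        rcases pr_restrict (μ := ω) le_rfl hvirt hZK hψ with ⟨h2, -⟩ | h2
        · obtain ⟨k, hk⟩ := hpos ψ hψ
          exact ⟨k, by rw [← hk]; exact h2⟩
        · exact ⟨0, by rw [Nat.cast_zero]; exact h2⟩) (by
        intro ψ hψ hne
        rcases pr_restrict (μ := ω) le_rfl hvirt hZK hψ with ⟨-, h2⟩ | h2
        · exact hdiv (c y) (Subgroup.inclusion le_sup_left) ψ (irr_heilbronn hψ) (by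
            intro g z
            exact h2 (Subgroup.inclusion le_sup_left g) z)
        · exact absurd h2 hne)
    rw [pr_eq] at h1
    rw [finsum_eq_sum_of_fintype, Finset.sum_sub_distrib, Finset.sum_const, Finset.card_univ,
      ← Nat.card_eq_fintype_card, nsmul_eq_mul, mul_one]
    have h3 : (Nat.card (c y) : ℂ) ≠ 0 := card_ne
    have h4 : ∑ g : c y, τ g * τ (g : G)⁻¹ = Nat.card (c y) := by
      have h5 := congrArg (fun z => (Nat.card (c y) : ℂ) * z) h1
      simp only [mul_one] at h5
      rw [← mul_assoc, mul_inv_cancel₀ h3, one_mul] at h5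
      exact h5
    rw [h4, sub_self])
  rw [Finset.sum_sub_distrib, Finset.sum_const, Finset.card_univ, ← Nat.card_eq_fintype_card,
    nsmul_eq_mul, mul_one] at hsum
  rw [pr_eq, sub_eq_zero.mp hsum, inv_mul_cancel₀ card_ne]

end Pool.Agent.R362
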