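import Mathlib
import Pool.Agent.R362.GMain

/-!
# Sections over a faithful central character
-/

set_option autoImplicit false
set_option linter.unusedSectionVars false

namespace Pool.Agent.R362

open Pool.Agent.H302R2 Pool.Agent.H541R3.ART Pool.Agent.H302R5 Pool.Agent.H302R6
  Pool.Agent.W446.AS

/-- The pairs (quotient of a subgroup containing `Z`, function over `μ` of degree at most `r`),
where the quotient map is injective on `Z`. -/
def Track {Q : Type} [Group Q] (Z : Subgroup Q) (μ : Z →* ℂˣ) (r : ℕ) (X : Type) [Group X]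
    (σ : X → ℂ) : Prop :=
  σ = 0 ∨ ((∃ a : ℕ, a ≤ r ∧ σ 1 = a) ∧ ∃ (H : Subgroup Q) (hZ : Z ≤ H) (f : H →* X),
    Function.Surjective f ∧ (∀ z : Z, f ⟨z, hZ z.2⟩ = 1 → z = 1) ∧
    ∀ (x : X) (z : Z), σ (x * f ⟨z, hZ z.2⟩) = ((μ z : ℂˣ) : ℂ) * σ x)

variable {Q : Type} [Group Q] [Finite Q] {Z : Subgroup Q} {μ : Z →* ℂˣ}

lemma track_closed (hZc : Z ≤ Subgroup.center Q) (hμ : Function.Injective μ) (r : ℕ) :
    Closed (Track Z μ r) := by
  refine ⟨?_, ?_⟩
  · intro X _ _ σ hσ hH hV X' hX'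
    rcases hσ with rfl | ⟨⟨a, har, ha⟩, H, hZH, f, hf, hinj, hσ⟩
    · left
      rfl
    right
    refine ⟨⟨a, har, ha⟩, ?_⟩
    have hcen : ∀ z : Z, f ⟨z, hZH z.2⟩ ∈ X' := by
      intro z
      apply hX'
      rw [Subgroup.mem_center_iff]
      intro x
      obtain ⟨q, rfl⟩ := hf x
      rw [← map_mul, ← map_mul]
      congr 1
      apply Subtype.ext
      exact Subgroup.mem_center_iff.mp (hZc z.2) q
    let H' : Subgroup Q :=
      { carrier := {q | ∃ h : q ∈ H, f ⟨q, h⟩ ∈ X'}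
        mul_mem' := by
          rintro p q ⟨hp, hp'⟩ ⟨hq, hq'⟩
          refine ⟨H.mul_mem hp hq, ?_⟩
          have h1 : f ⟨p * q, H.mul_mem hp hq⟩ = f ⟨p, hp⟩ * f ⟨q, hq⟩ := by
            rw [← map_mul]
            rfl
          rw [h1]
          exact X'.mul_mem hp' hq'
        one_mem' := by
          refine ⟨H.one_mem, ?_⟩
          have h1 : f ⟨1, H.one_mem⟩ = 1 := map_one f
          rw [h1]
          exact X'.one_mem
        inv_mem' := by
          rintro p ⟨hp, hp'⟩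
          refine ⟨H.inv_mem hp, ?_⟩
          have h1 : f ⟨p⁻¹, H.inv_mem hp⟩ = (f ⟨p, hp⟩)⁻¹ := by
            rw [← map_inv]
            rfl
          rw [h1]
          exact X'.inv_mem hp' }
    have hH' : ∀ q : H', ∃ h : (q : Q) ∈ H, f ⟨q, h⟩ ∈ X' := fun q => q.2
    let f' : H' →* X' :=
      { toFun := fun q => ⟨f ⟨q, (hH' q).1⟩, (hH' q).2⟩
        map_one' := Subtype.ext (map_one f)
        map_mul' := by
          intro p q
          apply Subtype.ext
          change f _ = f _ * f _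
          rw [← map_mul]
          rfl }
    refine ⟨H', fun z hz => ⟨hZH hz, hcen ⟨z, hz⟩⟩, f', ?_, ?_, ?_⟩
    · rintro ⟨x, hx⟩
      obtain ⟨q, rfl⟩ := hf x
      exact ⟨⟨q, q.2, hx⟩, rfl⟩
    · intro z hz
      exact hinj z (congrArg Subtype.val hz)
    · intro x z
      exact hσ x z
  · intro X _ _ σ hσ hH hV Y _ _ π hπ
    have : Fintype π.ker := Fintype.ofFinite _
    rcases hσ with rfl | ⟨⟨a, har, ha⟩, H, hZH, f, hf, hinj, hσ⟩
    · left
      funext y
      obtain ⟨x, rfl⟩ := hπ y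
      rw [push_apply]
      simp
    have hcen : ∀ (z : Z) (x : X), x * f ⟨z, hZH z.2⟩ = f ⟨z, hZH z.2⟩ * x := by
      intro z x
      obtain ⟨q, rfl⟩ := hf x
      rw [← map_mul, ← map_mul]
      congr 1
      apply Subtype.ext
      exact Subgroup.mem_center_iff.mp (hZc z.2) q
    have hrel : ∀ (y : Y) (z : Z), push π σ (y * π (f ⟨z, hZH z.2⟩))
        = ((μ z : ℂˣ) : ℂ) * push π σ y := by
      intro y z
      obtain ⟨x, rfl⟩ := hπ y
      rw [← map_mul, push_apply, push_apply]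
      have h1 : ∀ k : π.ker, σ (x * f ⟨z, hZH z.2⟩ * k) = ((μ z : ℂˣ) : ℂ) * σ (x * k) := by
        intro k
        rw [← hσ, mul_assoc, mul_assoc, hcen]
      rw [Finset.sum_congr rfl (fun k _ => h1 k), ← Finset.mul_sum]
      ring
    by_cases hz : ∀ z : Z, π (f ⟨z, hZH z.2⟩) = 1 → z = 1
    · right
      obtain ⟨a', ha', ha1⟩ := push_one_nat_le hπ hH ha
      exact ⟨⟨a', ha'.trans har, ha1⟩, H, hZH, π.comp f, hπ.comp hf, hz, hrel⟩
    · left
      push Not at hz
      obtain ⟨z, hz1, hz2⟩ := hz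
      funext y
      have h1 := hrel y z
      rw [hz1, mul_one] at h1
      have h2 : (1 - ((μ z : ℂˣ) : ℂ)) * push π σ y = 0 := by rw [sub_mul, one_mul, ← h1, sub_self]
      rcases mul_eq_zero.mp h2 with h3 | h3
      · exfalso
        apply hz2
        apply hμ
        rw [map_one]
        exact (Units.ext (sub_eq_zero.mp h3)).symm
      · exact h3

/-- **The core theorem**: functions over a faithful character of a central subgroup. -/
theorem central_core [Group.IsSolvable Q] (lt : Prop) (hZc : Z ≤ Subgroup.center Q)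
    (hμ : Function.Injective μ) {r : ℕ} {τ : Q → ℂ} (hτ : IsHeilbronn τ) (hV : Virt τ)
    (h1 : τ 1 = r) (hτμ : ∀ (q : Q) (z : Z), τ (q * z) = ((μ z : ℂˣ) : ℂ) * τ q)
    (hlt : lt → TwoPos τ)
    (hfree : ∀ (H : Subgroup Q) (hZ : Z ≤ H) (X : Type) [Group X] (f : H →* X),
      Function.Surjective f → (∀ z : Z, f ⟨z, hZ z.2⟩ = 1 → z = 1) → ¬ FObstruct lt r X) :
    ∀ ψ ∈ Irr Q, ∃ k : ℕ, pr τ ψ = k := by
  classical
  refine gmain lt (Track Z μ r) (track_closed hZc hμ r) ?_ _ Q rfl inferInstance τ ?_ hτ hV hlt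
  · intro X _ _ σ hσ hH hV' F D hF hD2 ω hω a ha
    rcases hσ with rfl | ⟨⟨s, hsr, hs⟩, H, hZH, f, hf, hinj, hσ⟩
    · rw [lam_zero] at ha
      have h2 : a = 0 := by
        have h3 : (a : ℂ) = 0 := ha.symm
        exact_mod_cast h3
      have h3 := hF.one_lt
      omega
    · have h2 := hfree H hZH X f hf hinj
      obtain ⟨a', ha', ha1⟩ := lam_one_le (μ := ω) le_rfl hH hs
      have h3 : a = a' := by
        rw [ha] at ha1
        exact_mod_cast ha1
      have har : a ≤ r := by omega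
      refine ⟨fun h4 => h2 ⟨F, D, hF, hD2, Or.inl (h4.trans har)⟩, ?_⟩
      rintro ⟨h4, h5⟩
      exact h2 ⟨F, D, hF, hD2, Or.inr ⟨h4.trans har, h5⟩⟩
  · right
    exact ⟨⟨r, le_rfl, h1⟩, ⊤, le_top, (⊤ : Subgroup Q).subtype,
      fun x => ⟨⟨x, Subgroup.mem_top x⟩, rfl⟩, fun z hz => Subtype.ext hz, hτμ⟩

end Pool.Agent.R362
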