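import Mathlib
import Pool.Agent.R362.Track
import Pool.Agent.Y788.VFin

/-!
# Two-dimensional characters with solvable image
-/

set_option autoImplicit false
set_option linter.unusedSectionVars false

namespace Pool.Agent.R362

open Pool.Agent.H302R2 Pool.Agent.H541R3.ART Pool.Agent.H302R5 Pool.Agent.H302R6
  Pool.Agent.W446.AS Pool.Agent.Y788.V Pool.Agent.Y788

/-- nonnegative multiplicities of the irreducible characters of degree two with solvable image -/
def SolPos {G : Type} [Group G] (θ : G → ℂ) : Prop :=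
  ∀ (H : Type) [Group H] [Finite H] (φ : H →* G) (ψ : H → ℂ), ψ ∈ Irr H → ψ 1 = 2 →
    (∃ k, ∀ x ∈ derivedSeries H k, ψ x = ψ 1) → ∃ k : ℕ, pr (fun x => θ (φ x)) ψ = k

lemma SolPos.comp {G : Type} [Group G] {θ : G → ℂ} (h : SolPos θ) {K : Type} [Group K]
    (i : K →* G) : SolPos (fun x => θ (i x)) := by
  intro H _ _ φ ψ hψ h1 h2
  exact h H (i.comp φ) ψ hψ h1 h2

lemma derived_mem {A B : Type} [Group A] [Group B] (f : A →* B) {k : ℕ} {x : A}
    (hx : x ∈ derivedSeries A k) : f x ∈ derivedSeries B k :=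
  map_derivedSeries_le_derivedSeries (G := A) (G' := B) f k ⟨x, hx, rfl⟩

lemma SolPos.push {G : Type} [Group G] [Fintype G] {Y : Type} [Group Y] [Finite Y] {π : G →* Y}
    (hπ : Function.Surjective π) {θ : G → ℂ} (h : SolPos θ) : SolPos (push π θ) := by
  classical
  intro H _ _ φ ψ hψ h1 hs
  let F : Subgroup (H × G) :=
    { carrier := {x | φ x.1 = π x.2}
      mul_mem' := by
        intro a b ha hb
        change φ (a.1 * b.1) = π (a.2 * b.2)
        rw [map_mul, map_mul, show φ a.1 = π a.2 from ha, show φ b.1 = π b.2 from hb]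
      one_mem' := by
        change φ 1 = π 1
        rw [map_one, map_one]
      inv_mem' := by
        intro a ha
        change φ a.1⁻¹ = π a.2⁻¹
        rw [map_inv, map_inv, show φ a.1 = π a.2 from ha] }
  let p1 : F →* H := (MonoidHom.fst H G).comp F.subtype
  let p2 : F →* G := (MonoidHom.snd H G).comp F.subtype
  have hp1 : Function.Surjective p1 := by
    intro x
    obtain ⟨g, hg⟩ := hπ (φ x)
    exact ⟨⟨(x, g), hg.symm⟩, rfl⟩
  have : Fintype F := Fintype.ofFinite F
  have : Fintype p1.ker := Fintype.ofFinite _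
  have : Fintype π.ker := Fintype.ofFinite _
  obtain ⟨n, hn⟩ := hs
  obtain ⟨k, hk⟩ := h F p2 (fun x => ψ (p1 x)) (infl_irr hp1 hψ) (by rw [map_one]; exact h1)
    ⟨n, fun x hx => by
      rw [map_one]
      exact hn _ (derived_mem p1 hx)⟩
  refine ⟨k, ?_⟩
  rw [← hk, ← pr_push hp1]
  congr 1
  funext x
  obtain ⟨y, rfl⟩ := hp1 x
  rw [push_apply]
  have hy : φ (p1 y) = π (p2 y) := y.2
  rw [hy, push_apply]
  let e : p1.ker ≃ π.ker :=
    { toFun := fun n => ⟨p2 n, by
        rw [MonoidHom.mem_ker]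
        have h2 : φ (p1 n) = π (p2 n) := (n : F).2
        rw [← h2, MonoidHom.mem_ker.mp n.2, map_one]⟩
      invFun := fun m => ⟨⟨(1, m), by
        change φ 1 = π (m : G)
        rw [map_one]
        exact (MonoidHom.mem_ker.mp m.2).symm⟩, rfl⟩
      left_inv := by
        intro n
        apply Subtype.ext
        apply Subtype.ext
        apply Prod.ext
        · exact (MonoidHom.mem_ker.mp n.2).symm
        · rfl
      right_inv := by
        intro m
        rfl }
  rw [Nat.card_congr e, ← Equiv.sum_comp e]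
  congr 1

/-- twisting irreducible characters by linear characters -/
lemma irr_twist {G : Type} [Group G] [Finite G] {ψ : G → ℂ} (hψ : ψ ∈ Irr G) (ν : G →* ℂˣ) :
    (fun g => ((ν g : ℂˣ) : ℂ) * ψ g) ∈ Irr G := by
  obtain ⟨n, ρ, hρ, rfl⟩ := exists_rep hψ
  let σ : Representation ℂ G (Fin n → ℂ) :=
    { toFun := fun g => ((ν g : ℂˣ) : ℂ) • ρ g
      map_one' := by simp
      map_mul' := by
        intro a b
        rw [map_mul, map_mul, Units.val_mul]
        refine LinearMap.ext fun v => ?_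
        simp only [LinearMap.smul_apply, Module.End.mul_apply, map_smul, smul_smul]
        rw [mul_comm] }
  have hσ : ∀ g v, σ g v = ((ν g : ℂˣ) : ℂ) • ρ g v := fun g v => rfl
  have h1 : (fun g => ((ν g : ℂˣ) : ℂ) * ρ.character g) = σ.character := by
    funext g
    change _ = LinearMap.trace ℂ _ (((ν g : ℂˣ) : ℂ) • ρ g)
    rw [map_smul]
    rfl
  rw [h1]
  refine irr_of_irred (ρ := σ) ⟨hρ.1, fun W hW => hρ.2 W ?_⟩
  intro g v hv
  have h2 := W.smul_mem (((ν g)⁻¹ : ℂˣ) : ℂ) (hW g v hv)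
  rw [hσ, smul_smul, ← Units.val_mul, inv_mul_cancel, Units.val_one, one_smul] at h2
  exact h2

/-- the part over an invariant linear character of a normal subgroup -/
lemma SolPos.lam {G : Type} [Group G] [Finite G] {θ : G → ℂ} (hc : ∀ g x : G, θ (x * g * x⁻¹) = θ g)
    (h : SolPos θ) {N : Subgroup G} [N.Normal] {μ : N →* ℂˣ}
    (hμ : ∀ (g : G) (a : N), μ (MulAut.conjNormal g a) = μ a) : SolPos (lam N μ θ) := by
  classical
  intro H _ _ η ψ hψ h1 hs
  have : Fintype N := Fintype.ofFinite N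
  have : Fintype H := Fintype.ofFinite H
  let φ : H →* MulAut N := (MulAut.conjNormal (H := N)).comp η
  have hfin : Fintype (N ⋊[φ] H) := Fintype.ofEquiv _ SemidirectProduct.equivProd.symm
  have hfin' : Finite (N ⋊[φ] H) := inferInstance
  let f : N ⋊[φ] H →* G := SemidirectProduct.lift N.subtype η (by
    intro h
    ext n
    simp [φ, MulAut.conjNormal_apply])
  let ν : N ⋊[φ] H →* ℂˣ := SemidirectProduct.lift μ 1 (by
    intro h
    ext n
    simp [φ, hμ])
  let p : N ⋊[φ] H →* H := SemidirectProduct.rightHom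
  have hp : Function.Surjective p := SemidirectProduct.rightHom_surjective
  obtain ⟨n, hn⟩ := hs
  obtain ⟨k, hk⟩ := h (N ⋊[φ] H) f (fun x => ((ν x : ℂˣ) : ℂ) * ψ (p x))
    (irr_twist (infl_irr hp hψ) ν) (by simp [h1]) ⟨n + 1, fun x hx => by
      have h2 : ν x = 1 := by
        have h3 : x ∈ derivedSeries (N ⋊[φ] H) 1 := derivedSeries_antitone _ (by omega) hx
        have h4 := derived_mem ν h3
        rw [derivedSeries_one, commutator_eq_bot] at h4
        exact h4
      have h3 := hn _ (derived_mem p (derivedSeries_antitone _ (Nat.le_succ n) hx))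
      rw [h2, h3, map_one, map_one]⟩
  refine ⟨k, ?_⟩
  rw [← hk, pr_eq, pr_eq, ← Equiv.sum_comp SemidirectProduct.equivProd.symm,
    Fintype.sum_prod_type, Nat.card_congr SemidirectProduct.equivProd, Nat.card_prod,
    Finset.sum_comm]
  have h5 : ∀ (x : H) (a : N), θ (f (SemidirectProduct.equivProd.symm (a, x))) *
      ((((ν (SemidirectProduct.equivProd.symm (a, x))⁻¹ : ℂˣ) : ℂ)) *
        ψ (p (SemidirectProduct.equivProd.symm (a, x))⁻¹))
      = θ (η x * a) * (((μ a)⁻¹ : ℂˣ) : ℂ) * ψ x⁻¹ := by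
    intro x a
    have h2 : (SemidirectProduct.equivProd.symm (a, x) : N ⋊[φ] H)
        = SemidirectProduct.inl a * SemidirectProduct.inr x :=
      SemidirectProduct.mk_eq_inl_mul_inr x a
    rw [h2]
    have h3 : f (SemidirectProduct.inl a * SemidirectProduct.inr x) = (a : G) * η x := by
      rw [map_mul]
      simp [f]
    have h4 : ν (SemidirectProduct.inl a * SemidirectProduct.inr x)⁻¹ = (μ a)⁻¹ := by
      rw [map_inv, map_mul]
      simp [ν]
    have h6 : p (SemidirectProduct.inl a * SemidirectProduct.inr x)⁻¹ = x⁻¹ := by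
      rw [map_inv, map_mul]
      simp [p]
    rw [h3, h4, h6, ← mul_assoc]
    congr 2
    have h7 := hc (η x * a) (a : G)
    rw [← h7]
    congr 1
    group
  simp_rw [h5]
  have h7 : ∀ x : H, Pool.Agent.W446.AS.lam N μ θ (η x) * ψ x⁻¹ = (Nat.card N : ℂ)⁻¹ *
      ∑ a : N, θ (η x * a) * (((μ a)⁻¹ : ℂˣ) : ℂ) * ψ x⁻¹ := by
    intro x
    rw [lam_eq, mul_assoc, Finset.sum_mul]
  rw [Finset.sum_congr rfl (fun x _ => h7 x), ← Finset.mul_sum]
  push_cast
  rw [mul_inv, ← mul_assoc]
  ring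

/-- on a solvable group all characters of degree two are covered -/
lemma SolPos.twoPos {G : Type} [Group G] [Finite G] [Group.IsSolvable G] {θ : G → ℂ}
    (h : SolPos θ) : TwoPos θ := by
  classical
  apply twoPos_of_sub
  intro H ψ hψ h1
  have hsol : Group.IsSolvable H := inferInstance
  obtain ⟨n, hn⟩ := (Group.isSolvable_def H).1 hsol
  exact h H H.subtype ψ hψ h1 ⟨n, fun x hx => by
    rw [hn, Subgroup.mem_bot] at hx
    rw [hx]⟩

/-- from subgroups to homomorphisms -/
lemma solPos_of_sub {G : Type} [Group G] [Finite G] {θ : G → ℂ}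
    (h : ∀ (H : Subgroup G) (ψ : H → ℂ), ψ ∈ Irr H → ψ 1 = 2 →
      (∃ k, ∀ x ∈ derivedSeries H k, ψ x = ψ 1) →
      ∃ k : ℕ, pr (fun x : H => θ x) ψ = k) : SolPos θ := by
  classical
  intro H _ _ φ ψ hψ h1 hs
  have : Fintype H := Fintype.ofFinite H
  let φ' : H →* φ.range := φ.rangeRestrict
  have hφ' : Function.Surjective φ' := φ.rangeRestrict_surjective
  have hφ : ∀ x, ((φ' x : φ.range) : G) = φ x := fun x => rfl
  by_cases h2 : ∃ x ∈ φ'.ker, ψ x ≠ ψ 1
  · obtain ⟨x, hx, hx1⟩ := h2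
    refine ⟨0, ?_⟩
    rw [pr_eq, pair_zero (θ := fun x => θ (φ x)) hψ φ'.ker (by
      intro n hn y
      have h3 : φ n = 1 := by rw [← hφ, MonoidHom.mem_ker.mp hn]; rfl
      rw [map_mul, h3, one_mul]) hx hx1, mul_zero]
    simp
  · push Not at h2
    obtain ⟨n, ρ, hρ, rfl⟩ := exists_rep hψ
    have : Fintype φ'.ker := Fintype.ofFinite _
    have htriv : ∀ g ∈ φ'.ker, ρ g = 1 := fun g hg => rep_triv ρ (h2 g hg)
    obtain ⟨ψ', hψ', h3⟩ := descend_irr hφ' hρ htriv
    obtain ⟨m, hm⟩ := hs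
    obtain ⟨k, hk⟩ := h φ.range ψ' hψ' (by rw [← map_one φ', ← h3, h1]) ⟨m, fun y hy => by
      have h4 : derivedSeries φ.range m = (derivedSeries H m).map φ' :=
        (map_derivedSeries_eq hφ' m).symm
      rw [h4] at hy
      obtain ⟨x, hx, rfl⟩ := hy
      rw [← h3, hm x hx, ← map_one φ', h3]⟩
    refine ⟨k, ?_⟩
    rw [← hk]
    have h4 : ρ.character = fun g => ψ' (φ' g) := funext h3
    rw [h4, ← pr_push hφ']
    congr 1
    funext y
    obtain ⟨g, rfl⟩ := hφ' y
    rw [push_apply]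
    have h5 : ∀ n : φ'.ker, θ (φ (g * n)) = θ (φ' g : φ.range) := by
      intro n
      have h6 : φ n = 1 := by rw [← hφ, MonoidHom.mem_ker.mp n.2]; rfl
      rw [map_mul, h6, mul_one, hφ]
    rw [Finset.sum_congr rfl (fun n _ => h5 n), Finset.sum_const, Finset.card_univ, nsmul_eq_mul,
      ← Nat.card_eq_fintype_card, ← mul_assoc, inv_mul_cancel₀ card_ne, one_mul]

lemma solPos_theta {G : Type} [Group G] [Finite G] {s₀ : ℂ} {A : ArtinData G s₀}
    (B : LTData A) : SolPos (theta A.ord : G → ℂ) :=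
  solPos_of_sub fun H _ hψ h1 hs => lt_pos B H hψ h1 hs

end Pool.Agent.R362
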