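import Mathlib
import Pool.Agent.R362.SolPos

/-!
# Multiplicities over a linear character of a normal subgroup
-/

set_option autoImplicit false
set_option linter.unusedSectionVars false

namespace Pool.Agent.R362

open Pool.Agent.H302R2 Pool.Agent.H541R3.ART Pool.Agent.H302R5 Pool.Agent.H302R6
  Pool.Agent.H302R10 Pool.Agent.TH820
  Pool.Agent.W446.AS Pool.Agent.Y788.V Pool.Agent.Y788

/-- `f` is a surjection of the subgroup `H` of `Y` onto `X`; the group `H` contains the image of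
`N` under `ε`, and every element of `N` which `f` maps to `1` lies in the kernel of `μ`. -/
structure Over {N Y : Type} [Group N] [Group Y] (ε : N →* Y) (μ : N →* ℂˣ) (H : Subgroup Y)
    (X : Type) [Group X] (f : H →* X) : Prop where
  mem : ∀ n, ε n ∈ H
  surj : Function.Surjective f
  inj : ∀ (n : N) (h : ε n ∈ H), f ⟨ε n, h⟩ = 1 → μ n = 1

section central

variable {Q : Type} [Group Q] [Finite Q] {Z : Subgroup Q} {μ : Z →* ℂˣ}

/-- the central case, without solvability -/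
theorem central_gen (lt : Prop) (hZc : Z ≤ Subgroup.center Q)
    (hμ : Function.Injective μ) {r : ℕ} {τ : Q → ℂ} (hτ : IsHeilbronn τ) (hV : Virt τ)
    (h1 : τ 1 = r) (hτμ : ∀ (q : Q) (z : Z), τ (q * z) = ((μ z : ℂˣ) : ℂ) * τ q)
    (hlt : lt → SolPos τ) (hrig : RigidV r (res Q)) :
    ((r = 0 ∨ ∃ z ∈ Z, z ∈ res Q ∧ z ≠ 1) → ∀ ψ ∈ Irr Q, pr τ ψ = 0) ∧
    ∀ (Y : Type) [Group Y] (κ : Q →* Y), Function.Surjective κ → κ.ker = res Q →
    (∀ (H : Subgroup Y) (X : Type) [Group X] (f : H →* X), Over (κ.comp Z.subtype) μ H X f →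
        ¬ FObstruct lt r X) → ∀ ψ ∈ Irr Q, ∃ k : ℕ, pr τ ψ = k := by
  classical
  have : Fintype Q := Fintype.ofFinite Q
  have hres : ∀ a ∈ res Q, τ a = τ 1 := by
    intro a ha
    have h2 := hrig _ (hτ.comp (res Q).subtype) (hV.comp (res Q).subtype) r le_rfl
      (by rw [map_one]; exact h1) ⟨a, ha⟩
    rw [map_one] at h2
    exact h2
  have hconst := const_of_kernel hτ (res Q) hres
  have hzero : (r = 0 ∨ ∃ z ∈ Z, z ∈ res Q ∧ z ≠ 1) → τ = 0 := by
    rintro (h0 | ⟨z, hz, hz1, hz2⟩)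
    · funext g
      have h2 := hτ.norm_le g
      rw [h1, h0] at h2
      simpa using h2
    funext q
    have h2 := hτμ q ⟨z, hz⟩
    have h3 : τ (q * z) = τ q := by
      have h4 : q * z = z * q := Subgroup.mem_center_iff.mp (hZc hz) q
      rw [h4]
      exact hconst z hz1 q
    change τ (q * z) = _ at h2
    rw [h3] at h2
    have h5 : (1 - ((μ ⟨z, hz⟩ : ℂˣ) : ℂ)) * τ q = 0 := by rw [sub_mul, one_mul, ← h2, sub_self]
    rcases mul_eq_zero.mp h5 with h6 | h6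
    · exfalso
      apply hz2
      have h7 : μ ⟨z, hz⟩ = 1 := (Units.ext (sub_eq_zero.mp h6)).symm
      have h8 : (⟨z, hz⟩ : Z) = 1 := hμ (by rw [h7, map_one])
      exact congrArg Subtype.val h8
    · exact h6
  refine ⟨fun h ψ _ => by rw [hzero h, pr_zero_left], ?_⟩
  intro Y _ κ hκ hker hfree ψ hψ
  by_cases hZr : ∃ z ∈ Z, z ∈ res Q ∧ z ≠ 1
  · exact ⟨0, by rw [hzero (Or.inr hZr), pr_zero_left]; simp⟩
  push Not at hZr
  by_cases h2 : ∃ x ∈ res Q, ψ x ≠ ψ 1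
  · obtain ⟨x, hxN, hx⟩ := h2
    refine ⟨0, ?_⟩
    rw [pr_eq, pair_zero (θ := τ) hψ (res Q) hconst hxN hx, mul_zero]
    simp
  push Not at h2
  have hYf : Finite Y := Finite.of_surjective κ hκ
  have hkm : ∀ q, κ q = 1 ↔ q ∈ res Q := fun q => by rw [← hker, MonoidHom.mem_ker]
  have hsY : Group.IsSolvable Y := by
    let e : Q ⧸ res Q →* Y := QuotientGroup.lift (res Q) κ (fun x hx => (hkm x).mpr hx)
    refine Group.isSolvable_of_surjective (f := e) ?_
    intro y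
    obtain ⟨x, rfl⟩ := hκ y
    exact ⟨(x : Q ⧸ res Q), rfl⟩
  have : Fintype κ.ker := Fintype.ofFinite _
  obtain ⟨n, ρ, hρ, rfl⟩ := exists_rep hψ
  have htriv : ∀ g ∈ κ.ker, ρ g = 1 := by
    intro g hg
    rw [hker] at hg
    exact rep_triv ρ (h2 g hg)
  obtain ⟨ψ', hψ', h3⟩ := descend_irr hκ hρ htriv
  let σ : Y → ℂ := push κ τ
  have hσ : ∀ q, σ (κ q) = τ q := by
    intro q
    change push κ τ (κ q) = τ q
    rw [push_apply]
    have h5 : ∀ z : κ.ker, τ (q * z) = τ q := by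
      intro z
      have hz : (z : Q) ∈ res Q := (hkm z).mp z.2
      have h6 : q * z = (q * z * q⁻¹) * q := by group
      have h7 : q * z * q⁻¹ ∈ res Q := (res_normal Q).conj_mem _ hz q
      rw [h6, hconst _ h7]
    rw [Finset.sum_congr rfl (fun z _ => h5 z), Finset.sum_const, Finset.card_univ, nsmul_eq_mul,
      ← Nat.card_eq_fintype_card, ← mul_assoc, inv_mul_cancel₀ card_ne, one_mul]
  -- the central subgroup of `Y`
  let ZY : Subgroup Y := Z.map κ
  let e₀ : Z →* ZY := (κ.comp Z.subtype).codRestrict ZY (fun z => ⟨z, z.2, rfl⟩)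
  have he₀ : Function.Bijective e₀ := by
    constructor
    · rw [injective_iff_map_eq_one]
      intro z hz
      have h6 : κ (z : Q) = 1 := congrArg Subtype.val hz
      rw [hkm] at h6
      exact Subtype.ext (hZr z z.2 h6)
    · rintro ⟨y, z, hz, rfl⟩
      exact ⟨⟨z, hz⟩, rfl⟩
  let e : Z ≃* ZY := MulEquiv.ofBijective e₀ he₀
  have hev : ∀ z : Z, ((e z : ZY) : Y) = κ z := fun z => rfl
  let μY : ZY →* ℂˣ := μ.comp e.symm.toMonoidHom
  have hμY : ∀ z : Z, μY (e z) = μ z := by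
    intro z
    change μ (e.symm (e z)) = _
    rw [MulEquiv.symm_apply_apply]
  have hZYc : ZY ≤ Subgroup.center Y := by
    rintro y ⟨z, hz, rfl⟩
    rw [Subgroup.mem_center_iff]
    intro x
    obtain ⟨q, rfl⟩ := hκ x
    rw [← map_mul, ← map_mul, Subgroup.mem_center_iff.mp (hZc hz) q]
  obtain ⟨k, hk⟩ := central_core (Q := Y) (Z := ZY) (μ := μY) lt hZYc (hμ.comp e.symm.injective)
    (push_isHeilbronn hκ hτ) (hV.push hκ) (r := r) (by
      have := hσ 1
      rw [map_one, h1] at this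
      exact this) (by
      intro y z
      obtain ⟨q, rfl⟩ := hκ y
      obtain ⟨z, rfl⟩ := e.surjective z
      rw [hμY, hev, ← map_mul]
      change σ (κ (q * z)) = _ * σ (κ q)
      rw [hσ, hσ]
      exact hτμ q z) (fun h => ((hlt h).push hκ).twoPos) (by
      intro H hZH X _ f hf hinj
      refine hfree H X f ⟨fun z => hZH ⟨z, z.2, rfl⟩, hf, ?_⟩
      intro z hz h6
      have h7 := hinj (e z) h6
      have h8 : z = 1 := e.injective (by rw [h7, map_one])
      rw [h8, map_one]) ψ' hψ'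
  refine ⟨k, ?_⟩
  rw [← hk, pr_push hκ]
  congr 1
  funext g
  exact h3 g

end central

section local_case

variable {G : Type} [Group G] [Finite G] {N : Subgroup G} [N.Normal] {μ : N →* ℂˣ}

/-- **The local theorem**: `Q` is the quotient of the stabilizer of `μ` by the kernel of `μ`. -/
theorem local_gen (lt : Prop) {θ : G → ℂ} (hθ : IsHeilbronn θ) (hV : Virt θ) (hlt : lt → SolPos θ)
    {r : ℕ} (hr : ∑ᶠ n : N, θ n * (((μ n)⁻¹ : ℂˣ) : ℂ) = r * Nat.card N)
    {Q : Type} [Group Q] (π : stab N μ →* Q) (hπ : Function.Surjective π)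
    (hker : ∀ t, π t = 1 ↔ ∃ n : N, μ n = 1 ∧ (n : G) = t) (hrig : RigidV r (res Q))
    {χ : G → ℂ} (hχ : χ ∈ Irr G) (hχμ : ∑ᶠ n : N, χ n * (((μ n)⁻¹ : ℂˣ) : ℂ) ≠ 0) :
    ((r = 0 ∨ ∃ n : N, μ n ≠ 1 ∧ π ⟨n, le_stab N μ n.2⟩ ∈ res Q) → pr θ χ = 0) ∧
    ∀ (Y : Type) [Group Y] (κ : Q →* Y), Function.Surjective κ → κ.ker = res Q →
    (∀ (H : Subgroup Y) (X : Type) [Group X] (f : H →* X),
      Over ((κ.comp π).comp (Subgroup.inclusion (le_stab N μ))) μ H X f →
        ¬ FObstruct lt r X) → ∃ k : ℕ, pr θ χ = k := by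
  classical
  have : Fintype G := Fintype.ofFinite G
  have : Fintype N := Fintype.ofFinite N
  obtain ⟨m, ρ, hρ, rfl⟩ := exists_rep hχ
  -- an eigenvector
  have heig : ∃ v₀ : Fin m → ℂ, v₀ ≠ 0 ∧ ∀ a : N, ρ a v₀ = ((μ a : ℂˣ) : ℂ) • v₀ := by
    by_contra hcon
    push Not at hcon
    apply hχμ
    have h1 : ∑ a : N, (((μ a)⁻¹ : ℂˣ) : ℂ) • ρ a = 0 := by
      refine LinearMap.ext fun v => ?_
      by_contra h2
      obtain ⟨a, ha⟩ := hcon _ h2
      apply ha
      simp only [LinearMap.sum_apply, LinearMap.smul_apply, map_sum, map_smul]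
      rw [Finset.smul_sum, ← Equiv.sum_comp (Equiv.mulLeft a) (fun b : N => ((μ a : ℂˣ) : ℂ) •
        (((μ b)⁻¹ : ℂˣ) : ℂ) • ρ b v)]
      refine Finset.sum_congr rfl fun b _ => ?_
      rw [Equiv.coe_mulLeft, map_mul, mul_inv_rev, smul_smul, ← Units.val_mul,
        mul_comm (μ b)⁻¹, ← mul_assoc, mul_inv_cancel, one_mul, Subgroup.coe_mul, map_mul,
        Module.End.mul_apply]
    rw [finsum_eq_sum_of_fintype]
    have h2 := congrArg (LinearMap.trace ℂ (Fin m → ℂ)) h1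
    rw [map_sum, map_zero] at h2
    rw [← h2]
    refine Finset.sum_congr rfl fun a _ => ?_
    rw [map_smul, smul_eq_mul, mul_comm]
    rfl
  obtain ⟨v₀, hv₀, hμv⟩ := heig
  obtain ⟨ψ, hψ, hψμ, -, hpr⟩ := stab_irr hρ N μ v₀ hv₀ hμv
  rw [hpr θ hθ.conj]
  -- the stabilizer
  let T : Subgroup G := stab N μ
  have hNT : N ≤ T := le_stab N μ
  let NT : Subgroup T := N.subgroupOf T
  have hNTn : NT.Normal := inferInstance
  let eN : NT ≃* N := Subgroup.subgroupOfEquivOfLe hNT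
  have heN : ∀ a : NT, ((eN a : N) : G) = ((a : T) : G) := fun a => rfl
  let μT : NT →* ℂˣ := μ.comp eN.toMonoidHom
  have hμT : ∀ a : NT, μT a = μ (eN a) := fun a => rfl
  have hinv : ∀ (g : T) (a : NT), μT (MulAut.conjNormal g a) = μT a := by
    intro g a
    rw [hμT, hμT, ← (mem_stab.mp g.2) (eN a)]
    congr 1
  let θT : T → ℂ := fun t => θ t
  have hθT : IsHeilbronn θT := hθ.comp T.subtype
  have hVT : Virt θT := hV.comp T.subtype
  let τT : T → ℂ := lam NT μT θT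
  have hτT : IsHeilbronn τT := lam_heilbronn' hinv hθT
  have hτTV : Virt τT := virt_lam' hinv hVT
  have : Fintype NT := Fintype.ofFinite NT
  have hτT1 : τT 1 = r := by
    change lam NT μT θT 1 = r
    rw [lam_one, finsum_eq_sum_of_fintype]
    rw [finsum_eq_sum_of_fintype] at hr
    have h1 : ∑ a : NT, θT a * (((μT a)⁻¹ : ℂˣ) : ℂ) = ∑ n : N, θ n * (((μ n)⁻¹ : ℂˣ) : ℂ) := by
      rw [← Equiv.sum_comp eN.toEquiv (fun n : N => θ n * (((μ n)⁻¹ : ℂˣ) : ℂ))]
      rfl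
    rw [h1, hr, Nat.card_congr eN.toEquiv]
    have h2 : (Nat.card N : ℂ) ≠ 0 := card_ne
    field_simp
  have hτTμ : ∀ (t : T) (a : NT), τT (t * a) = ((μT a : ℂˣ) : ℂ) * τT t := fun t a => lam_mul t a
  have hψ' : ∀ (t : T) (a : NT), ψ (t * a) = ((μT a : ℂˣ) : ℂ) * ψ t := fun t a => hψμ t (eN a)
  have hpr2 : pr θT ψ = pr τT ψ :=
    (pr_lam' (θ := θT) (fun g x => Irr.conj hψ g x) hψ').symm
  suffices hsuf : ((r = 0 ∨ ∃ n : N, μ n ≠ 1 ∧ π ⟨n, le_stab N μ n.2⟩ ∈ res Q) → pr τT ψ = 0) ∧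
    ∀ (Y : Type) [Group Y] (κ : Q →* Y), Function.Surjective κ → κ.ker = res Q →
    (∀ (H : Subgroup Y) (X : Type) [Group X] (f : H →* X),
      Over ((κ.comp π).comp (Subgroup.inclusion (le_stab N μ))) μ H X f →
        ¬ FObstruct lt r X) → ∃ k : ℕ, pr τT ψ = k by
    rw [← hpr2] at hsuf
    exact hsuf
  -- the quotient
  have : Finite Q := Finite.of_surjective π hπ
  have hkerT : ∀ t : T, π t = 1 ↔ ∃ a : NT, μT a = 1 ∧ (a : T) = t := by
    intro t
    rw [hker]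
    constructor
    · rintro ⟨n, h1, h2⟩
      exact ⟨eN.symm n, by rw [hμT, MulEquiv.apply_symm_apply]; exact h1, Subtype.ext h2⟩
    · rintro ⟨a, h1, rfl⟩
      exact ⟨eN a, h1, rfl⟩
  obtain ⟨n', ρ', hρ', rfl⟩ := exists_rep hψ
  have htriv : ∀ g ∈ π.ker, ρ' g = 1 := by
    intro g hg
    obtain ⟨a, h1, rfl⟩ := (hkerT g).mp hg
    apply rep_triv
    have h2 := hψ' 1 a
    rw [h1, one_mul, Units.val_one, one_mul] at h2
    exact h2
  obtain ⟨ψ₁, hψ₁, h3⟩ := descend_irr hπ hρ' htriv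
  have : Fintype π.ker := Fintype.ofFinite _
  let τ : Q → ℂ := push π τT
  have hτv : ∀ t, τ (π t) = τT t := by
    intro t
    change push π τT (π t) = τT t
    rw [push_apply]
    have h5 : ∀ z : π.ker, τT (t * z) = τT t := by
      intro z
      obtain ⟨a, h1, h2⟩ := (hkerT z).mp z.2
      rw [← h2, hτTμ, h1, Units.val_one, one_mul]
    rw [Finset.sum_congr rfl (fun z _ => h5 z), Finset.sum_const, Finset.card_univ, nsmul_eq_mul,
      ← Nat.card_eq_fintype_card, ← mul_assoc, inv_mul_cancel₀ card_ne, one_mul]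
  have hpr3 : pr τT ρ'.character = pr τ ψ₁ := by
    change _ = pr (push π τT) ψ₁
    rw [pr_push hπ]
    congr 1
    funext g
    exact h3 g
  rw [hpr3]
  -- the central subgroup (hpr3 rewrites both clauses)
  let Z : Subgroup Q := NT.map π
  let p : NT →* Z := (π.comp NT.subtype).codRestrict Z (fun a => ⟨a, a.2, rfl⟩)
  have hp : Function.Surjective p := by
    rintro ⟨y, a, ha, rfl⟩
    exact ⟨⟨a, ha⟩, rfl⟩
  have hpv : ∀ a : NT, ((p a : Z) : Q) = π a := fun a => rfl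
  have hpk : ∀ a : NT, p a = 1 ↔ μT a = 1 := by
    intro a
    have h1 : p a = 1 ↔ π a = 1 := by
      rw [← hpv]
      exact ⟨fun h => by rw [h]; rfl, fun h => Subtype.ext h⟩
    rw [h1, hkerT]
    constructor
    · rintro ⟨b, h1, h2⟩
      have h3 : b = a := Subtype.ext h2
      rw [← h3, h1]
    · intro h
      exact ⟨a, h, rfl⟩
  let e : NT ⧸ p.ker ≃* Z := QuotientGroup.quotientKerEquivOfSurjective p hp
  let μq : NT ⧸ p.ker →* ℂˣ := QuotientGroup.lift p.ker μT (fun a ha => (hpk a).mp ha)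
  let μZ : Z →* ℂˣ := μq.comp e.symm.toMonoidHom
  have hμZ : ∀ a : NT, μZ (p a) = μT a := by
    intro a
    have h1 : e.symm (p a) = (QuotientGroup.mk a : NT ⧸ p.ker) := by
      rw [MulEquiv.symm_apply_eq]; rfl
    change μq (e.symm (p a)) = _
    rw [h1]
    rfl
  have hμZi : Function.Injective μZ := by
    rw [injective_iff_map_eq_one]
    intro z hz
    obtain ⟨a, rfl⟩ := hp z
    rw [hμZ] at hz
    exact (hpk a).mpr hz
  have hZc : Z ≤ Subgroup.center Q := by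
    rintro z ⟨a, ha, rfl⟩
    rw [Subgroup.mem_center_iff]
    intro q
    obtain ⟨t, rfl⟩ := hπ q
    rw [← map_mul, ← map_mul]
    have h1 : (MulAut.conjNormal t (⟨a, ha⟩ : NT) * (⟨a, ha⟩ : NT)⁻¹ : NT) = (⟨t * a * t⁻¹ * a⁻¹, by
        exact NT.mul_mem (hNTn.conj_mem a ha t) (NT.inv_mem ha)⟩ : NT) := by
      apply Subtype.ext
      rw [Subgroup.coe_mul, MulAut.conjNormal_apply]
      rfl
    have h2 : μT (⟨t * a * t⁻¹ * a⁻¹, by
        exact NT.mul_mem (hNTn.conj_mem a ha t) (NT.inv_mem ha)⟩ : NT) = 1 := by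
      rw [← h1, map_mul, hinv, map_inv, mul_inv_cancel]
    have h4 : π (t * a * t⁻¹ * a⁻¹) = 1 := (hkerT _).mpr ⟨_, h2, rfl⟩
    have h5 : t * a = (t * a * t⁻¹ * a⁻¹) * (a * t) := by group
    rw [h5, map_mul, h4, one_mul]
  have hτZ : ∀ (q : Q) (z : Z), τ (q * z) = ((μZ z : ℂˣ) : ℂ) * τ q := by
    intro q z
    obtain ⟨t, rfl⟩ := hπ q
    obtain ⟨a, rfl⟩ := hp z
    rw [hpv, ← map_mul, hτv, hτv, hτTμ, hμZ]
  have hτ1 : τ 1 = r := by
    have := hτv 1
    rw [map_one, hτT1] at this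
    exact this
  have hltτ : lt → SolPos τ := fun h => (((hlt h).comp T.subtype).lam hθT.conj hinv).push hπ
  obtain ⟨h5, h6⟩ := central_gen (Q := Q) (Z := Z) (μ := μZ) lt hZc hμZi
    (push_isHeilbronn hπ hτT) (hτTV.push hπ) hτ1 hτZ hltτ hrig
  refine ⟨?_, ?_⟩
  · rintro (h0 | ⟨n, hn1, hn2⟩)
    · exact h5 (Or.inl h0) ψ₁ hψ₁
    refine h5 (Or.inr ⟨π ⟨n, le_stab N μ n.2⟩, ?_, hn2, ?_⟩) ψ₁ hψ₁
    · exact ⟨⟨n, le_stab N μ n.2⟩, n.2, rfl⟩
    · intro h7
      obtain ⟨n2, h8, h9⟩ := (hker _).mp h7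
      apply hn1
      have h10 : n2 = n := Subtype.ext h9
      rw [← h10, h8]
  · intro Y _ κ hκ hκr hfree
    refine h6 Y κ hκ hκr ?_ ψ₁ hψ₁
    intro H X _ f hov
    refine hfree H X f ⟨?_, hov.surj, ?_⟩
    · intro n
      exact hov.mem (p (eN.symm n))
    · intro n hn h7
      have h8 := hov.inj (p (eN.symm n)) hn h7
      rw [hμZ, hμT, MulEquiv.apply_symm_apply] at h8
      exact h8

end local_case

end Pool.Agent.R362
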