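import Mathlib
import Pool.Agent.W446.AS.FNum
import Pool.Agent.R362.Local

/-!
# Arithmetic conditions on the index of the centre which exclude frames
-/

set_option autoImplicit false
set_option linter.unusedSectionVars false

namespace Pool.Agent.R362

open Pool.Agent.H302R2 Pool.Agent.H541R3.ART Pool.Agent.W446.AS

/-- the frame index -/
lemma Frame.index_eq {X : Type} [Group X] [Finite X] {F : Subgroup X} {D : ℕ} (hF : Frame X F D) :
    (Subgroup.center X).index = D ^ 2 * F.index := by
  have hZpos : 0 < Nat.card (Subgroup.center X) := Nat.card_pos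
  have h1 := Subgroup.index_mul_card (Subgroup.center X)
  have h2 := Subgroup.index_mul_card F
  rw [hF.card, ← mul_assoc] at h2
  have h3 : (Subgroup.center X).index * Nat.card (Subgroup.center X)
      = (F.index * D ^ 2) * Nat.card (Subgroup.center X) := by rw [h1, h2]
  have h4 := Nat.eq_of_mul_eq_mul_right hZpos h3
  rw [h4, mul_comm]

lemma Crit.index_eq {X : Type} [Group X] [Finite X] {E : Subgroup X} {p n : ℕ}
    (hE : Crit X E p n) : (Subgroup.center X).index = p ^ (2 * n) * E.index := by
  have hZpos : 0 < Nat.card (Subgroup.center X) := Nat.card_pos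
  have h1 := Subgroup.index_mul_card (Subgroup.center X)
  have h2 := Subgroup.index_mul_card E
  rw [hE.card, ← mul_assoc] at h2
  have h3 : (Subgroup.center X).index * Nat.card (Subgroup.center X)
      = (E.index * p ^ (2 * n)) * Nat.card (Subgroup.center X) := by rw [h1, h2]
  have h4 := Nat.eq_of_mul_eq_mul_right hZpos h3
  rw [h4, mul_comm]

/-- arithmetic conditions which exclude an obstruction -/
theorem obs_of {X : Type} [Group X] [Finite X] (lt : Prop) (r : ℕ)
    (h1 : ∀ p q n i : ℕ, p.Prime → q.Prime → q ≠ p → 0 < n → 0 < i → i ≤ 2 * n → q ∣ p ^ i - 1 →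
      p ^ (2 * n) * q ∣ (Subgroup.center X).index → p ^ (2 * n + 1) * q ∣ Nat.card X →
      r < 2 * p ^ n)
    (h2 : ∀ p n m : ℕ, p.Prime → 0 < n → m ∣ p ^ (2 * n) - 1 →
      (∀ j, 0 < j → j < 2 * n → ¬ m ∣ p ^ j - 1) →
      p ^ (2 * n) * m ∣ (Subgroup.center X).index → p ^ (2 * n + 1) * m ∣ Nat.card X →
      r < p ^ n) : ¬ FObstruct lt r X := by
  rintro ⟨F, D, hF, -, hobs⟩
  obtain ⟨E, p, n, hEF, hE⟩ := exists_crit_le hF.abel hF.cyc hF.normal hF.le hF.ne hF.comm
  have hEn := hE.normal
  have hZpos : 0 < Nat.card (Subgroup.center X) := Nat.card_pos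
  obtain ⟨a⟩ := hE.exists_act
  have hdvd : ∀ m, m ∣ E.index → p ^ (2 * n) * m ∣ (Subgroup.center X).index := by
    intro m hm
    rw [Crit.index_eq hE]
    exact mul_dvd_mul_left _ hm
  have hdvd' : ∀ m, m ∣ E.index → p ^ (2 * n + 1) * m ∣ Nat.card X := by
    intro m hm
    rw [← Subgroup.index_mul_card E, mul_comm (p ^ (2 * n + 1)) m]
    exact mul_dvd_mul hm hE.dvd_card
  have key : r < 2 * p ^ n := by
    obtain ⟨q, i, hq, hqp, hi, hin, hqi, hqE⟩ := a.exists_prime hE.prime hE.pos
    exact h1 p q n i hE.prime hq hqp hE.pos hi hin hqi (hdvd q hqE) (hdvd' q hqE)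
  have h3 : Nat.card E ∣ Nat.card F := Subgroup.card_dvd_of_le hEF
  rw [hE.card, hF.card] at h3
  have h4 : (p ^ n) ^ 2 ∣ D ^ 2 := by
    rw [← pow_mul, mul_comm n 2]
    exact Nat.dvd_of_mul_dvd_mul_right hZpos h3
  obtain ⟨k, hk⟩ : p ^ n ∣ D := (Nat.pow_dvd_pow_iff (by norm_num)).mp h4
  have hD := hF.one_lt
  have hpn : 0 < p ^ n := pow_pos hE.prime.pos n
  rcases Nat.lt_or_ge k 2 with hk2 | hk2
  · have hk1 : k = 1 := by
      rcases Nat.eq_zero_or_pos k with h | h
      · rw [h, mul_zero] at hk
        omega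
      · omega
    rw [hk1, mul_one] at hk
    subst hk
    have h5 : E = F := by
      apply Subgroup.eq_of_le_of_card_ge hEF
      rw [hE.card, hF.card, ← pow_mul, mul_comm n 2]
    subst h5
    rcases hobs with h | ⟨h, g, hg⟩
    · omega
    · obtain ⟨h5, h6, h7⟩ := a.cyclic hE.prime hE.pos hg
      have := h2 p n _ hE.prime hE.pos h5 h6 (hdvd _ h7) (hdvd' _ h7)
      omega
  · have h5 : 2 * p ^ n ≤ D := by
      rw [hk, mul_comm]
      exact Nat.mul_le_mul_left _ hk2
    rcases hobs with h | ⟨h, -⟩ <;> omega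

/-- conditions with the two-dimensional case known -/
theorem obs_lt {X : Type} [Group X] [Finite X] {r : ℕ} (h6 : r ≤ 6)
    (h36 : 36 ∣ (Subgroup.center X).index → 108 ∣ Nat.card X → r ≤ 2)
    (h80 : 80 ∣ (Subgroup.center X).index → 160 ∣ Nat.card X → r ≤ 3)
    (h75 : 75 ∣ (Subgroup.center X).index → 375 ∣ Nat.card X → r ≤ 4) :
    ¬ FObstruct True r X := by
  rintro ⟨F, D, hF, hD2, hobs⟩
  have hD2 := hD2 trivial
  have hD := hF.one_lt
  have hdvd : ∀ k m : ℕ, k ∣ F.index → m ∣ Nat.card F → k * m ∣ Nat.card X := by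
    intro k m hk hm
    rw [← Subgroup.index_mul_card F]
    exact mul_dvd_mul hk hm
  have hdvd2 : ∀ k : ℕ, k ∣ F.index → D ^ 2 * k ∣ (Subgroup.center X).index := by
    intro k hk
    rw [Frame.index_eq hF]
    exact mul_dvd_mul_left _ hk
  have hDr : D ≤ r := by
    rcases hobs with h | ⟨h, -⟩ <;> omega
  have hcases : D = 3 ∨ D = 4 ∨ D = 5 ∨ D = 6 := by omega
  rcases hcases with rfl | rfl | rfl | rfl
  · have h1 := (hF.crit_of_prime Nat.prime_three).dvd_card
    have := h36 (hdvd2 4 (three_index hF)) (hdvd 4 27 (three_index hF) h1)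
    omega
  · rcases hobs with h | ⟨-, g, hg⟩
    · omega
    · obtain ⟨h1, h2⟩ := four_cyc hF hg
      have := h80 (hdvd2 5 h2) (hdvd 5 32 h2 h1.dvd_card)
      omega
  · rcases hobs with h | ⟨-, g, hg⟩
    · omega
    · have h1 := hF.crit_of_prime Nat.prime_five
      have := h75 (hdvd2 3 (five_cyc h1 hg)) (hdvd 3 125 (five_cyc h1 hg) h1.dvd_card)
      omega
  · have := h36 (by
      rw [Frame.index_eq hF]
      exact dvd_mul_right _ _) (six_dvd hF)
    omega

/-- all prime divisors of the index of the centre are at least `P` -/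
theorem obs_least {X : Type} [Group X] [Finite X] (lt : Prop) {P r : ℕ} (hP : 3 ≤ P)
    (hr : r ≤ 2 * P - 2) (h : ∀ q, q.Prime → q ∣ (Subgroup.center X).index → P ≤ q) :
    ¬ FObstruct lt r X := by
  apply obs_of
  · intro p q n i hp hq hqp hn hi hin hqi hd _
    have h1 : P ≤ p := h p hp ((dvd_pow_self p (by omega)).trans ((dvd_mul_right _ q).trans hd))
    have h6 : p ≤ p ^ n := Nat.le_self_pow hn.ne' p
    omega
  · intro p n m hp hn hm hj hd _
    by_contra hle
    push Not at hle
    have h1 : P ≤ p := h p hp ((dvd_pow_self p (by omega)).trans ((dvd_mul_right _ m).trans hd))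
    have h7 : n = 1 := by
      by_contra h8
      have h9 : 2 ≤ n := by omega
      have h10 : p ^ 2 ≤ p ^ n := Nat.pow_le_pow_right hp.pos h9
      have h11 : 3 * P ≤ p ^ 2 := by nlinarith
      omega
    subst h7
    obtain ⟨q, hq, hqm, k, hk⟩ := exists_prime_succ hp.pos hm (hj 1 (by norm_num) (by norm_num))
    have h2 : P ≤ q := h q hq (hqm.trans ((dvd_mul_left m _).trans hd))
    have h3 : Odd p := hp.odd_of_ne_two (by omega)
    have h4 : Odd q := hq.odd_of_ne_two (by omega)
    have h5 : 2 ≤ k := by
      by_contra h6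
      have h7 : k = 1 := by
        have : k ≠ 0 := by
          rintro rfl
          omega
        omega
      rw [h7, mul_one] at hk
      rw [← hk] at h4
      exact (Nat.not_even_iff_odd.mpr h4) h3.add_one
    rw [pow_one] at hle
    have h6 : P * 2 ≤ q * k := Nat.mul_le_mul h2 h5
    omega

/-- index prime to six -/
theorem obs_twelve {X : Type} [Group X] [Finite X] (lt : Prop) {r : ℕ}
    (hr : r ≤ 12) (h : ((Subgroup.center X).index).Coprime 6) : ¬ FObstruct lt r X := by
  have h5 : ∀ q, q.Prime → q ∣ (Subgroup.center X).index → 5 ≤ q := by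
    intro q hq hd
    by_contra hlt
    push Not at hlt
    have h1 : q.Coprime 6 := Nat.Coprime.coprime_dvd_left hd h
    have h2 := hq.two_le
    interval_cases q <;> revert h1 <;> decide
  apply obs_of
  · intro p q n i hp hq hqp hn hi hin hqi hd _
    by_contra hle
    push Not at hle
    have h1 : 5 ≤ p := h5 p hp ((dvd_pow_self p (by omega)).trans ((dvd_mul_right _ q).trans hd))
    have h2 : 5 ≤ q := h5 q hq ((dvd_mul_left q _).trans hd)
    have h6 : p ≤ p ^ n := Nat.le_self_pow hn.ne' p
    have h7 : n = 1 := by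
      by_contra h8
      have h9 : 2 ≤ n := by omega
      have h10 : p ^ 2 ≤ p ^ n := Nat.pow_le_pow_right hp.pos h9
      nlinarith
    subst h7
    have h8 : p = 5 := by
      rw [pow_one] at hle
      have : p ≤ 6 := by omega
      by_contra h9
      have h10 : p = 6 := by omega
      rw [h10] at hp
      revert hp
      decide
    subst h8
    have h9 : q ∣ 24 := by
      have : i = 1 ∨ i = 2 := by omega
      rcases this with rfl | rfl
      · exact (show q ∣ 4 from hqi).trans (by norm_num)
      · exact hqi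
    have h10 : q ∣ 2 ^ 3 * 3 := h9
    rcases (hq.dvd_mul).mp h10 with h11 | h11
    · have := Nat.le_of_dvd (by norm_num) (hq.dvd_of_dvd_pow h11)
      omega
    · have := Nat.le_of_dvd (by norm_num) h11
      omega
  · intro p n m hp hn hm hj hd _
    by_contra hle
    push Not at hle
    have h1 : 5 ≤ p := h5 p hp ((dvd_pow_self p (by omega)).trans ((dvd_mul_right _ m).trans hd))
    have h7 : n = 1 := by
      by_contra h8
      have h9 : 2 ≤ n := by omega
      have h10 : p ^ 2 ≤ p ^ n := Nat.pow_le_pow_right hp.pos h9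
      nlinarith
    subst h7
    obtain ⟨q, hq, hqm, hqp⟩ := exists_prime_succ hp.pos hm (hj 1 (by norm_num) (by norm_num))
    have h2 : 5 ≤ q := h5 q hq (hqm.trans ((dvd_mul_left m _).trans hd))
    rw [pow_one] at hle
    have h8 : p ≤ 12 := hle.trans hr
    have h9 : q ∣ 2 ^ 3 * 3 := by
      have h10 : p = 5 ∨ p = 7 ∨ p = 11 := by
        clear hj hd hm hqp hle
        interval_cases p <;> revert hp <;> decide
      rcases h10 with rfl | rfl | rfl
      · exact hqp.trans (by norm_num)
      · exact hqp.trans (by norm_num)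
      · exact hqp.trans (by norm_num)
    rcases (hq.dvd_mul).mp h9 with h11 | h11
    · have := Nat.le_of_dvd (by norm_num) (hq.dvd_of_dvd_pow h11)
      omega
    · have := Nat.le_of_dvd (by norm_num) h11
      omega

/-- odd index -/
theorem obs_ten {X : Type} [Group X] [Finite X] (lt : Prop) {r : ℕ}
    (hr : r ≤ 10) (h : Odd (Subgroup.center X).index)
    (h75 : ¬ (75 ∣ (Subgroup.center X).index ∧ 375 ∣ Nat.card X))
    (h405 : ¬ (405 ∣ (Subgroup.center X).index ∧ 1215 ∣ Nat.card X)) : ¬ FObstruct lt r X := by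
  have hod : ∀ m, m ∣ (Subgroup.center X).index → Odd m := fun m hm => Odd.of_dvd_nat h hm
  have h3 : ∀ q, q.Prime → q ∣ (Subgroup.center X).index → 3 ≤ q := by
    intro q hq hd
    have h1 := hod q hd
    have h2 := hq.two_le
    rcases h2.lt_or_eq with h3 | h3
    · omega
    · rw [← h3] at h1
      exact absurd h1 (by decide)
  apply obs_of
  · intro p q n i hp hq hqp hn hi hin hqi hd hd'
    by_contra hle
    push Not at hle
    have h1 : 3 ≤ p := h3 p hp ((dvd_pow_self p (by omega)).trans ((dvd_mul_right _ q).trans hd))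
    have h2 : 3 ≤ q := h3 q hq ((dvd_mul_left q _).trans hd)
    have h6 : p ≤ p ^ n := Nat.le_self_pow hn.ne' p
    have h7 : n = 1 := by
      by_contra h8
      have h9 : 2 ≤ n := by omega
      have h10 : p ^ 2 ≤ p ^ n := Nat.pow_le_pow_right hp.pos h9
      nlinarith
    subst h7
    have h8 : p = 3 ∨ p = 5 := by
      rw [pow_one] at hle
      have : p ≤ 5 := by omega
      by_contra h9
      have h10 : p = 4 := by omega
      rw [h10] at hp
      revert hp
      decide
    have hi2 : i = 1 ∨ i = 2 := by omega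
    rcases h8 with rfl | rfl
    · have h10 : q ∣ 2 ^ 3 := by
        rcases hi2 with rfl | rfl
        · exact (show q ∣ 2 from hqi).trans (by norm_num)
        · exact hqi
      have := Nat.le_of_dvd (by norm_num) (hq.dvd_of_dvd_pow h10)
      omega
    · have h10 : q ∣ 2 ^ 3 * 3 := by
        rcases hi2 with rfl | rfl
        · exact (show q ∣ 4 from hqi).trans (by norm_num)
        · exact hqi
      rcases (hq.dvd_mul).mp h10 with h11 | h11
      · have := Nat.le_of_dvd (by norm_num) (hq.dvd_of_dvd_pow h11)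
        omega
      · have h12 : q = 3 := (Nat.prime_dvd_prime_iff_eq hq Nat.prime_three).mp h11
        subst h12
        exact h75 ⟨hd, hd'⟩
  · intro p n m hp hn hm hj hd hd'
    by_contra hle
    push Not at hle
    have h1 : 3 ≤ p := h3 p hp ((dvd_pow_self p (by omega)).trans ((dvd_mul_right _ m).trans hd))
    have hmG := (dvd_mul_left m _).trans hd
    have hle := hle.trans hr
    rcases Nat.lt_or_ge n 2 with h9 | h9
    · have h7 : n = 1 := by omega
      subst h7
      obtain ⟨q, hq, hqm, hqp⟩ := exists_prime_succ hp.pos hm (hj 1 (by norm_num) (by norm_num))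
      have h2 : 3 ≤ q := h3 q hq (hqm.trans hmG)
      rw [pow_one] at hle
      have h10 : p = 3 ∨ p = 5 ∨ p = 7 := by
        clear hj hd hd' hm hqp
        interval_cases p <;> revert hp <;> decide
      rcases h10 with rfl | rfl | rfl
      · have := Nat.le_of_dvd (by norm_num) (hq.dvd_of_dvd_pow (show q ∣ 2 ^ 2 from hqp))
        omega
      · have h10 : q ∣ 2 * 3 := hqp
        rcases (hq.dvd_mul).mp h10 with h11 | h11
        · have := Nat.le_of_dvd (by norm_num) h11
          omega
        · have h12 : q = 3 := (Nat.prime_dvd_prime_iff_eq hq Nat.prime_three).mp h11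
          subst h12
          exact h75 ⟨(mul_dvd_mul_left 25 hqm).trans hd, (mul_dvd_mul_left 125 hqm).trans hd'⟩
      · have := Nat.le_of_dvd (by norm_num) (hq.dvd_of_dvd_pow (show q ∣ 2 ^ 3 from hqp))
        omega
    · have h10 : p ^ 2 ≤ p ^ n := Nat.pow_le_pow_right hp.pos h9
      have h11 : p = 3 := by
        by_contra h12
        have h13 : 4 ≤ p := by omega
        nlinarith
      subst h11
      have h12 : n = 2 := by
        by_contra h12
        have h13 : 3 ≤ n := by omega
        have h14 : (3 : ℕ) ^ 3 ≤ 3 ^ n := Nat.pow_le_pow_right (by norm_num) h13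
        omega
      subst h12
      have h13 := hod m hmG
      have h14 : ¬ m ∣ 2 := hj 1 (by norm_num) (by norm_num)
      have h15 : m ∣ 2 ^ 4 * 5 := hm
      have h16 : m ∣ 5 := by
        apply Nat.Coprime.dvd_of_dvd_mul_left _ h15
        exact (Nat.Coprime.pow_left 4 ((Nat.coprime_two_left).mpr h13)).symm
      rcases (Nat.dvd_prime Nat.prime_five).mp h16 with h17 | h17
      · rw [h17] at h14
        exact h14 (one_dvd _)
      · subst h17
        exact h405 ⟨hd, hd'⟩

/-- the index of the centre of a section -/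
lemma index_center_dvd {Y : Type} [Group Y] [Finite Y] {K : Subgroup Y}
    (hK : K ≤ Subgroup.center Y) {H : Subgroup Y} (hKH : K ≤ H) {X : Type} [Group X]
    (f : H →* X) (hf : Function.Surjective f) :
    (Subgroup.center X).index ∣ K.index ∧ Nat.card X ∣ Nat.card Y := by
  refine ⟨?_, (Subgroup.card_dvd_of_surjective f hf).trans (Subgroup.card_subgroup_dvd_card H)⟩
  have h1 : (Subgroup.center X).index = ((Subgroup.center X).comap f).index :=
    (Subgroup.index_comap_of_surjective _ hf).symm
  rw [h1]
  have h2 : K.subgroupOf H ≤ (Subgroup.center X).comap f := by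
    intro x hx
    rw [Subgroup.mem_comap, Subgroup.mem_center_iff]
    intro y
    obtain ⟨z, rfl⟩ := hf y
    rw [← map_mul, ← map_mul]
    congr 1
    apply Subtype.ext
    exact Subgroup.mem_center_iff.mp (hK hx) z
  refine (Subgroup.index_dvd_of_le h2).trans ?_
  change K.relIndex H ∣ K.index
  rw [← Subgroup.relIndex_mul_index hKH]
  exact dvd_mul_right _ _

end Pool.Agent.R362
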