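import Mathlib
import Pool.Agent.R362.Arith

/-!
# Artin L-functions over a Hecke L-function of small order
-/

set_option autoImplicit false
set_option linter.unusedSectionVars false

namespace Pool.Agent.R362

open Pool.Agent.H302R2 Pool.Agent.H541R3.ART Pool.Agent.H302R5 Pool.Agent.H302R6
  Pool.Agent.H302R10 Pool.Agent.TH820
  Pool.Agent.W446.AS Pool.Agent.Y788.V Pool.Agent.Y788

variable {G : Type} [Group G] [Finite G] {s₀ : ℂ}

/-- the multiplicity of a linear character of a subgroup -/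
lemma mult_of_order (A : ArtinData G s₀) {H : Subgroup G} {ψ : H →* ℂˣ} {r : ℕ}
    (hr : meromorphicOrderAt (A.Lin H ψ) s₀ = (r : WithTop ℤ)) :
    ∑ᶠ h : H, (theta A.ord : G → ℂ) h * (((ψ h)⁻¹ : ℂˣ) : ℂ) = r * Nat.card H := by
  classical
  choose! m hm using fun χ (hχ : χ ∈ Irr G) => exists_mult hχ H ψ
  rw [theta_mult A.ord H ψ m hm]
  rw [A.order_Lin H ψ m hm] at hr
  have h1 : (∑ χ ∈ irrF G, (m χ : ℤ) * A.ord χ : ℤ) = (r : ℤ) := by
    have : ((∑ χ ∈ irrF G, (m χ : ℤ) * A.ord χ : ℤ) : WithTop ℤ) = ((r : ℤ) : WithTop ℤ) := by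
      rw [hr]; rfl
    exact WithTop.coe_injective this
  rw [h1]
  simp

lemma order_of_mult (A : ArtinData G s₀) {H : Subgroup G} {ψ : H →* ℂˣ} {r : ℕ}
    (hr : ∑ᶠ h : H, (theta A.ord : G → ℂ) h * (((ψ h)⁻¹ : ℂˣ) : ℂ) = r * Nat.card H) :
    meromorphicOrderAt (A.Lin H ψ) s₀ = (r : WithTop ℤ) := by
  classical
  choose! m hm using fun χ (hχ : χ ∈ Irr G) => exists_mult hχ H ψ
  rw [theta_mult A.ord H ψ m hm] at hr
  rw [A.order_Lin H ψ m hm]
  have hH : (Nat.card H : ℂ) ≠ 0 := by exact_mod_cast Nat.card_pos.ne'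
  have h1 := mul_right_cancel₀ hH hr
  have h2 : (∑ χ ∈ irrF G, (m χ : ℤ) * A.ord χ : ℤ) = (r : ℤ) := by exact_mod_cast h1
  rw [h2]
  rfl

lemma ord_zero (A : ArtinData G s₀) {χ : G → ℂ} (hχ : χ ∈ Irr G)
    (h : pr (theta A.ord : G → ℂ) χ = 0) : meromorphicOrderAt (A.L χ) s₀ = 0 := by
  have h4 : pr (theta A.ord : G → ℂ) χ = ((0 : ℤ) : ℂ) := by rw [h]; simp
  have h5 := ord_of_pr A hχ h4
  simpa using h5

/-- Heilbronn virtual characters of degree one -/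
lemma deg_one {T : Type} [Group T] [Finite T] {τ : T → ℂ} (hτ : IsHeilbronn τ) (hV : Virt τ)
    (h1 : τ 1 = 1) {ψ : T → ℂ} (hψ : ψ ∈ Irr T) :
    pr τ ψ = 0 ∨ (pr τ ψ = 1 ∧ ψ 1 = 1) := by
  classical
  have : Fintype T := Fintype.ofFinite T
  have hnorm : pr τ τ = 1 := by
    rw [pr_eq]
    have h2 : ∀ g : T, τ g * τ g⁻¹ = 1 := by
      intro g
      -- restrict to the cyclic subgroup
      have h3 : IsHeilbronn (fun x : Subgroup.zpowers g => τ x) :=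
        hτ.comp (Subgroup.zpowers g).subtype
      obtain ⟨ι, _, φ, n, h4⟩ := h3.comm_decomp (zpowers_comm g)
      have h5 : (∑ i, (n i : ℂ)) = 1 := by
        have h6 := h4 1
        simp only [Subgroup.coe_one, h1, map_one, Units.val_one, mul_one] at h6
        exact h6.symm
      have h6 : ∑ i, n i = 1 := by exact_mod_cast h5
      obtain ⟨i, -, hi⟩ : ∃ i ∈ Finset.univ, n i ≠ 0 := by
        by_contra hcon
        push Not at hcon
        rw [Finset.sum_eq_zero hcon] at h6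
        omega
      have hi1 : n i = 1 ∧ ∀ j, j ≠ i → n j = 0 := by
        have h7 := Finset.add_sum_erase Finset.univ n (Finset.mem_univ i)
        rw [h6] at h7
        have h8 : n i = 1 := by omega
        refine ⟨h8, fun j hj => ?_⟩
        have h9 : ∑ j ∈ Finset.univ.erase i, n j = 0 := by omega
        exact Finset.sum_eq_zero_iff.mp h9 j (Finset.mem_erase.mpr ⟨hj, Finset.mem_univ j⟩)
      have h7 : ∀ e : Subgroup.zpowers g, τ e = ((φ i e : ℂˣ) : ℂ) := by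
        intro e
        rw [h4 e, Finset.sum_eq_single i]
        · rw [hi1.1]; simp
        · intro j _ hj
          rw [hi1.2 j hj]; simp
        · intro h; exact absurd (Finset.mem_univ i) h
      have h8 := h7 ⟨g, Subgroup.mem_zpowers g⟩
      have h9 := h7 (⟨g, Subgroup.mem_zpowers g⟩⁻¹)
      have h10 : τ g⁻¹ = ((φ i (⟨g, Subgroup.mem_zpowers g⟩⁻¹) : ℂˣ) : ℂ) := h9
      have h11 : τ g = ((φ i ⟨g, Subgroup.mem_zpowers g⟩ : ℂˣ) : ℂ) := h8
      rw [h10, h11, map_inv, ← Units.val_mul, mul_inv_cancel, Units.val_one]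
    rw [Finset.sum_congr rfl (fun g _ => h2 g), Finset.sum_const, Finset.card_univ, nsmul_eq_mul,
      mul_one, ← Nat.card_eq_fintype_card, inv_mul_cancel₀ card_ne]
  obtain ⟨k, hk⟩ := final hV (d := 1) (by rw [h1]; simp) hnorm ψ hψ
  rw [pr_self_expand hV] at hnorm
  rcases Nat.eq_zero_or_pos k with h0 | h0
  · left
    rw [hk, h0]; simp
  right
  -- all multiplicities are integers and the sum of the squares is one
  choose! l hl using fun ψ (hψ : ψ ∈ Irr T) => hV.pr_int hψ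
  have hsum : ∑ ψ ∈ irrF T, l ψ ^ 2 = 1 := by
    have h2 : ∑ ψ ∈ irrF T, pr τ ψ ^ 2 = ((∑ ψ ∈ irrF T, l ψ ^ 2 : ℤ) : ℂ) := by
      push_cast
      exact Finset.sum_congr rfl fun ψ hψ => by rw [hl ψ (mem_irrF.mp hψ)]
    rw [h2] at hnorm
    exact_mod_cast hnorm
  have hlψ : l ψ = k := by
    have h2 := hl ψ hψ
    rw [hk] at h2
    exact_mod_cast h2.symm
  have h3 := Finset.add_sum_erase (irrF T) (fun ψ => l ψ ^ 2) (mem_irrF.mpr hψ)
  rw [hsum] at h3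
  have h4 : 0 ≤ ∑ ψ ∈ (irrF T).erase ψ, l ψ ^ 2 := Finset.sum_nonneg fun _ _ => sq_nonneg _
  have h5 : (1 : ℤ) ≤ k := by exact_mod_cast h0
  have h6 : l ψ = 1 := by
    rw [hlψ] at h3 ⊢
    nlinarith
  have h7 : ∑ ψ ∈ (irrF T).erase ψ, l ψ ^ 2 = 0 := by
    rw [h6] at h3
    omega
  have h8 : ∀ φ ∈ (irrF T).erase ψ, l φ = 0 := by
    intro φ hφ
    have := (Finset.sum_eq_zero_iff_of_nonneg fun _ _ => sq_nonneg _).mp h7 φ hφ
    exact pow_eq_zero_iff (two_ne_zero) |>.mp this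
  have h9 : τ 1 = ψ 1 := by
    rw [hV.expand 1, Finset.sum_eq_single ψ]
    · rw [hl ψ hψ, h6]; simp
    · intro φ hφ hne
      rw [hl φ (mem_irrF.mp hφ), h8 φ (Finset.mem_erase.mpr ⟨hne, hφ⟩)]; simp
    · intro h; exact absurd (mem_irrF.mpr hψ) h
  refine ⟨?_, by rw [← h9, h1]⟩
  rw [hl ψ hψ, h6]; simp

/-- an eigenvector for `μ` -/
lemma exists_eig {N : Subgroup G} {μ : N →* ℂˣ} {m : ℕ} {ρ : Representation ℂ G (Fin m → ℂ)}
    (hχμ : ∑ᶠ n : N, ρ.character n * (((μ n)⁻¹ : ℂˣ) : ℂ) ≠ 0) :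
    ∃ v₀ : Fin m → ℂ, v₀ ≠ 0 ∧ ∀ a : N, ρ a v₀ = ((μ a : ℂˣ) : ℂ) • v₀ := by
  classical
  have : Fintype N := Fintype.ofFinite N
  by_contra hcon
  push Not at hcon
  apply hχμ
  have h1 : ∑ a : N, (((μ a)⁻¹ : ℂˣ) : ℂ) • ρ a = 0 := by
    refine LinearMap.ext fun v => ?_
    by_contra h2
    obtain ⟨a, ha⟩ := hcon _ h2
    apply ha
    simp only [LinearMap.sum_apply, LinearMap.smul_apply, map_sum, map_smul]
    rw [Finset.smul_sum, ← Equiv.sum_comp (Equiv.mulLeft a) (fun b : N => ((μ a : ℂˣ) : ℂ) •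
      (((μ b)⁻¹ : ℂˣ) : ℂ) • ρ b v)]
    refine Finset.sum_congr rfl fun b _ => ?_
    rw [Equiv.coe_mulLeft, map_mul, mul_inv_rev, smul_smul, ← Units.val_mul,
      mul_comm (μ b)⁻¹, ← mul_assoc, mul_inv_cancel, one_mul, Subgroup.coe_mul, map_mul,
      Module.End.mul_apply]
  rw [finsum_eq_sum_of_fintype]
  have h2 := congrArg (LinearMap.trace ℂ (Fin m → ℂ)) h1
  rw [map_sum, map_zero] at h2
  rw [← h2]
  refine Finset.sum_congr rfl fun a _ => ?_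
  rw [map_smul, smul_eq_mul, mul_comm]
  rfl

/-- the case of degree one -/
lemma local_one {N : Subgroup G} [N.Normal] {μ : N →* ℂˣ} {θ : G → ℂ} (hθ : IsHeilbronn θ)
    (hV : Virt θ) (hr : ∑ᶠ n : N, θ n * (((μ n)⁻¹ : ℂˣ) : ℂ) = Nat.card N)
    {χ : G → ℂ} (hχ : χ ∈ Irr G) (hχμ : ∑ᶠ n : N, χ n * (((μ n)⁻¹ : ℂˣ) : ℂ) ≠ 0) :
    pr θ χ = 0 ∨ (pr θ χ = 1 ∧ χ 1 = (stab N μ).index) := by
  classical
  have : Fintype G := Fintype.ofFinite G
  have : Fintype N := Fintype.ofFinite N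
  obtain ⟨m, ρ, hρ, rfl⟩ := exists_rep hχ
  obtain ⟨v₀, hv₀, hμv⟩ := exists_eig hχμ
  obtain ⟨ψ, hψ, hψμ, hdeg, hpr⟩ := stab_irr hρ N μ v₀ hv₀ hμv
  rw [hpr θ hθ.conj, hdeg]
  let T : Subgroup G := stab N μ
  have hNT : N ≤ T := le_stab N μ
  let NT : Subgroup T := N.subgroupOf T
  have hNTn : NT.Normal := inferInstance
  let eN : NT ≃* N := Subgroup.subgroupOfEquivOfLe hNT
  let μT : NT →* ℂˣ := μ.comp eN.toMonoidHom
  have hμT : ∀ a : NT, μT a = μ (eN a) := fun a => rfl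
  have hinv : ∀ (g : T) (a : NT), μT (MulAut.conjNormal g a) = μT a := by
    intro g a
    rw [hμT, hμT, ← (mem_stab.mp g.2) (eN a)]
    congr 1
  let θT : T → ℂ := fun t => θ t
  have hθT : IsHeilbronn θT := hθ.comp T.subtype
  have hVT : Virt θT := hV.comp T.subtype
  have : Fintype NT := Fintype.ofFinite NT
  have hτT1 : lam NT μT θT 1 = 1 := by
    rw [lam_one, finsum_eq_sum_of_fintype]
    rw [finsum_eq_sum_of_fintype] at hr
    have h1 : ∑ a : NT, θT a * (((μT a)⁻¹ : ℂˣ) : ℂ) = ∑ n : N, θ n * (((μ n)⁻¹ : ℂˣ) : ℂ) := by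
      rw [← Equiv.sum_comp eN.toEquiv (fun n : N => θ n * (((μ n)⁻¹ : ℂˣ) : ℂ))]
      rfl
    rw [h1, hr, Nat.card_congr eN.toEquiv, inv_mul_cancel₀ card_ne]
  have hψ' : ∀ (t : T) (a : NT), ψ (t * a) = ((μT a : ℂˣ) : ℂ) * ψ t := fun t a => hψμ t (eN a)
  have hpr2 : pr θT ψ = pr (lam NT μT θT) ψ :=
    (pr_lam' (θ := θT) (fun g x => Irr.conj hψ g x) hψ').symm
  rcases deg_one (lam_heilbronn' hinv hθT) (virt_lam' hinv hVT) hτT1 hψ with h | ⟨h, h'⟩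
  · left
    rw [← h, ← hpr2]
  · right
    refine ⟨?_, by rw [h', mul_one]⟩
    rw [← h, ← hpr2]

end Pool.Agent.R362
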