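import Mathlib
import Pool.Agent.R362.LocalArt

/-!
# Relative orders: solvable normal subgroups
-/

set_option autoImplicit false
set_option linter.unusedSectionVars false

namespace Pool.Agent.R362

open Pool.Agent.H302R2 Pool.Agent.H541R3.ART Pool.Agent.H302R5 Pool.Agent.H302R6
  Pool.Agent.H302R10 Pool.Agent.TH820
  Pool.Agent.W446.AS Pool.Agent.Y788.V Pool.Agent.Y788

/-- the multiplicities of the linear characters of a group add up to at most the multiplicity of
the trivial character of the commutator subgroup -/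
lemma sum_lin_le {B : Type} [Group B] [Finite B] {θ : B → ℂ} (hθ : IsHeilbronn θ)
    (S : Finset (B →* ℂˣ)) (r : (B →* ℂˣ) → ℕ)
    (hr : ∀ ν ∈ S, ∑ᶠ b : B, θ b * (((ν b)⁻¹ : ℂˣ) : ℂ) = r ν * Nat.card B) {z : ℕ}
    (hz : ∑ᶠ b : commutator B, θ b = z * Nat.card (commutator B)) : ∑ ν ∈ S, r ν ≤ z := by
  classical
  have : Fintype B := Fintype.ofFinite B
  let C := B ⧸ commutator B
  let κ : B →* C := QuotientGroup.mk' (commutator B)
  have hκ : Function.Surjective κ := QuotientGroup.mk'_surjective _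
  have hkm : ∀ b, κ b = 1 ↔ b ∈ commutator B := fun b => QuotientGroup.eq_one_iff b
  have : Fintype κ.ker := Fintype.ofFinite _
  have : Fintype C := Fintype.ofFinite _
  have hcomm : ∀ a b : C, a * b = b * a := by
    intro a b
    obtain ⟨x, rfl⟩ := hκ a
    obtain ⟨y, rfl⟩ := hκ b
    have h1 : κ (x * y * x⁻¹ * y⁻¹) = 1 := by
      rw [hkm]
      exact Subgroup.commutator_mem_commutator (Subgroup.mem_top x) (Subgroup.mem_top y)
    have h2 : x * y = (x * y * x⁻¹ * y⁻¹) * (y * x) := by group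
    rw [← map_mul, h2, map_mul, h1, one_mul, map_mul]
  have hσ := push_isHeilbronn hκ hθ
  obtain ⟨ι, _, ψ, n, hdec⟩ := hσ.comm_decomp hcomm
  -- the value at one
  have hz1 : (∑ i, n i) = z := by
    have h1 : push κ θ 1 = z := by
      rw [← map_one κ, push_apply]
      have h2 : ∑ k : κ.ker, θ (1 * k) = z * Nat.card κ.ker := by
        have h3 : κ.ker = commutator B := QuotientGroup.ker_mk' _
        have h4 : ∀ (K : Subgroup B) [Fintype K], K = commutator B →
            ∑ k : K, θ (1 * k) = z * Nat.card K := by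
          rintro K _ rfl
          rw [← hz, finsum_eq_sum_of_fintype]
          simp
        exact h4 κ.ker h3
      rw [h2]
      have h3 : (Nat.card κ.ker : ℂ) ≠ 0 := card_ne
      field_simp
    have h2 := hdec 1
    rw [h1] at h2
    simp only [map_one, Units.val_one, mul_one] at h2
    exact_mod_cast h2.symm
  -- characters factor
  have hlift : ∀ ν : B →* ℂˣ, ∃ ν' : C →* ℂˣ, ∀ b, ν' (κ b) = ν b := by
    intro ν
    refine ⟨QuotientGroup.lift (commutator B) ν ?_, fun b => rfl⟩
    intro x hx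
    have h1 : commutator B ≤ ν.ker := Abelianization.commutator_subset_ker ν
    exact h1 hx
  choose L hL using hlift
  have hLi : Function.Injective L := by
    intro a b h
    ext x
    rw [← hL a, ← hL b, h]
  have hrν : ∀ ν ∈ S, r ν = ∑ i, if ψ i = L ν then n i else 0 := by
    intro ν hν
    have h1 := hr ν hν
    rw [finsum_eq_sum_of_fintype] at h1
    have h2 : pr θ (fun b => ((ν b : ℂˣ) : ℂ)) = r ν := by
      rw [pr_eq]
      have h3 : ∀ b : B, θ b * ((ν b⁻¹ : ℂˣ) : ℂ) = θ b * (((ν b)⁻¹ : ℂˣ) : ℂ) := fun b => by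
        rw [map_inv]
      rw [Finset.sum_congr rfl (fun b _ => h3 b), h1]
      have h4 : (Nat.card B : ℂ) ≠ 0 := card_ne
      field_simp
    have h3 : (fun b => ((ν b : ℂˣ) : ℂ)) = fun b => ((L ν (κ b) : ℂˣ) : ℂ) := by
      funext b
      rw [hL]
    rw [h3, ← pr_push hκ (ψ := fun c => ((L ν c : ℂˣ) : ℂ)), pr_eq] at h2
    have h4 : ∀ c : C, push κ θ c * ((L ν c⁻¹ : ℂˣ) : ℂ)
        = ∑ i, (n i : ℂ) * (((ψ i * (L ν)⁻¹) c : ℂˣ) : ℂ) := by
      intro c
      rw [hdec, Finset.sum_mul]
      refine Finset.sum_congr rfl fun i _ => ?_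
      rw [map_inv, MonoidHom.mul_apply, MonoidHom.inv_apply, Units.val_mul, mul_assoc]
    rw [Finset.sum_congr rfl (fun c _ => h4 c), Finset.sum_comm] at h2
    have h5 : ∀ i, ∑ c : C, (n i : ℂ) * (((ψ i * (L ν)⁻¹) c : ℂˣ) : ℂ)
        = ((if ψ i = L ν then n i else 0 : ℕ) : ℂ) * Nat.card C := by
      intro i
      rw [← Finset.mul_sum]
      by_cases h6 : ψ i = L ν
      · rw [if_pos h6]
        have h7 : ∀ c : C, (((ψ i * (L ν)⁻¹) c : ℂˣ) : ℂ) = 1 := by
          intro c
          rw [MonoidHom.mul_apply, MonoidHom.inv_apply, h6, mul_inv_cancel, Units.val_one]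
        rw [Finset.sum_congr rfl (fun c _ => h7 c)]
        simp
      · rw [if_neg h6]
        have h7 : ψ i * (L ν)⁻¹ ≠ 1 := fun h => h6 (mul_inv_eq_one.mp h)
        have h8 := finsum_char_eq_zero _ h7
        rw [finsum_eq_sum_of_fintype] at h8
        rw [h8]
        simp
    rw [Finset.sum_congr rfl (fun i _ => h5 i), ← Finset.sum_mul, mul_comm, mul_assoc,
      mul_inv_cancel₀ card_ne, mul_one] at h2
    exact_mod_cast h2.symm
  rw [Finset.sum_congr rfl hrν, Finset.sum_comm, ← hz1]
  refine Finset.sum_le_sum fun i _ => ?_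
  rw [Finset.sum_ite, Finset.sum_const_zero, add_zero, Finset.sum_const, smul_eq_mul]
  have h9 : (S.filter fun ν => ψ i = L ν).card ≤ 1 := by
    rw [Finset.card_le_one]
    intro a ha b hb
    rw [Finset.mem_filter] at ha hb
    exact hLi (ha.2.symm.trans hb.2)
  calc _ ≤ 1 * n i := Nat.mul_le_mul_right _ h9
    _ = n i := one_mul _

variable {G : Type} [Group G] [Finite G] {s₀ : ℂ}

/-- the multiplicity of the trivial character of a subgroup -/
noncomputable def zm (θ : G → ℂ) (H : Subgroup G) : ℕ :=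
  Nat.floor ((Nat.card H : ℂ)⁻¹ * ∑ᶠ h : H, θ h).re

lemma zm_eq {θ : G → ℂ} (hθ : IsHeilbronn θ) (H : Subgroup G) :
    ∑ᶠ h : H, θ h = zm θ H * Nat.card H := by
  obtain ⟨n, hn⟩ := hθ.mult H 1
  simp only [MonoidHom.one_apply, inv_one, Units.val_one, mul_one] at hn
  have h1 : (Nat.card H : ℂ) ≠ 0 := card_ne
  have h2 : zm θ H = n := by
    unfold zm
    rw [hn, mul_comm, mul_assoc, mul_inv_cancel₀ h1, mul_one, Complex.natCast_re, Nat.floor_natCast]
  rw [h2, hn]

lemma zm_unique {θ : G → ℂ} (hθ : IsHeilbronn θ) {H : Subgroup G} {n : ℕ}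
    (h : ∑ᶠ h : H, θ h = n * Nat.card H) : zm θ H = n := by
  rw [zm_eq hθ] at h
  have h1 : (Nat.card H : ℂ) ≠ 0 := card_ne
  exact_mod_cast mul_right_cancel₀ h1 h

/-- conjugation of linear characters of a normal subgroup -/
noncomputable def cj (N : Subgroup G) [N.Normal] (μ : N →* ℂˣ) (g : G) : N →* ℂˣ :=
  μ.comp (MulAut.conjNormal g⁻¹).toMonoidHom

lemma cj_apply {N : Subgroup G} [N.Normal] (μ : N →* ℂˣ) (g : G) (n : N) :
    cj N μ g n = μ (MulAut.conjNormal g⁻¹ n) := rfl

lemma cj_eq_iff {N : Subgroup G} [N.Normal] (μ : N →* ℂˣ) (g h : G) :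
    cj N μ g = cj N μ h ↔ g⁻¹ * h ∈ stab N μ := by
  constructor
  · intro h1 n
    have h2 := DFunLike.congr_fun h1 (MulAut.conjNormal h n)
    rw [cj_apply, cj_apply, ← MulAut.mul_apply, ← map_mul, ← MulAut.mul_apply, ← map_mul,
      inv_mul_cancel, map_one, MulAut.one_apply] at h2
    exact h2
  · intro h1
    ext n
    rw [cj_apply, cj_apply]
    have h2 := h1 (MulAut.conjNormal h⁻¹ n)
    rw [← MulAut.mul_apply, ← map_mul] at h2
    have h3 : g⁻¹ * h * h⁻¹ = g⁻¹ := by group
    rw [h3] at h2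
    rw [h2]

/-- **one step**: the conjugates of a nontrivial linear character of a normal subgroup -/
lemma step_le {θ : G → ℂ} (hθ : IsHeilbronn θ) (N : Subgroup G) [N.Normal] (μ : N →* ℂˣ)
    (hμ : μ ≠ 1) {r : ℕ} (hr : ∑ᶠ n : N, θ n * (((μ n)⁻¹ : ℂˣ) : ℂ) = r * Nat.card N) :
    (stab N μ).index * r + zm θ N ≤ zm θ ((commutator N).map N.subtype) := by
  classical
  have : Fintype N := Fintype.ofFinite N
  have : Fintype (G ⧸ stab N μ) := Fintype.ofFinite _
  let c : G ⧸ stab N μ → (N →* ℂˣ) := fun x => cj N μ x.out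
  have hc : Function.Injective c := by
    intro x y hxy
    have h1 := (cj_eq_iff μ _ _).mp hxy
    rw [← QuotientGroup.eq, QuotientGroup.out_eq', QuotientGroup.out_eq'] at h1
    exact h1
  have hc1 : ∀ x, c x ≠ 1 := by
    intro x hx
    apply hμ
    ext n
    have h1 := DFunLike.congr_fun hx (MulAut.conjNormal x.out n)
    change μ (MulAut.conjNormal (x.out)⁻¹ (MulAut.conjNormal x.out n)) = _ at h1
    rw [← MulAut.mul_apply, ← map_mul, inv_mul_cancel, map_one, MulAut.one_apply] at h1
    rw [h1]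
    rfl
  have hcr : ∀ x, ∑ᶠ n : N, θ n * (((c x n)⁻¹ : ℂˣ) : ℂ) = r * Nat.card N := by
    intro x
    rw [← hr, finsum_eq_sum_of_fintype, finsum_eq_sum_of_fintype,
      ← Equiv.sum_comp (MulAut.conjNormal x.out).toEquiv]
    refine Finset.sum_congr rfl fun n _ => ?_
    change θ ((MulAut.conjNormal x.out n : N) : G) *
      (((μ (MulAut.conjNormal (x.out)⁻¹ (MulAut.conjNormal x.out n)))⁻¹ : ℂˣ) : ℂ) = _
    rw [← MulAut.mul_apply, ← map_mul, inv_mul_cancel, map_one, MulAut.one_apply,
      MulAut.conjNormal_apply, hθ.conj]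
  let S : Finset (N →* ℂˣ) := insert 1 (Finset.univ.image c)
  let f : (N →* ℂˣ) → ℕ := fun ν => if ν = 1 then zm θ N else r
  have h1 := sum_lin_le (θ := fun n : N => θ n) (hθ.comp N.subtype) S f (by
    intro ν hν
    rw [Finset.mem_insert] at hν
    rcases hν with rfl | hν
    · simp only [f, if_true]
      rw [← zm_eq hθ]
      simp
    · rw [Finset.mem_image] at hν
      obtain ⟨x, -, rfl⟩ := hν
      simp only [f, if_neg (hc1 x)]
      exact hcr x) (z := zm θ ((commutator N).map N.subtype)) (by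
    have h2 := zm_eq hθ ((commutator N).map N.subtype)
    let e : commutator N ≃* (commutator N).map N.subtype :=
      (commutator N).equivMapOfInjective N.subtype N.subtype_injective
    have : Fintype (commutator N) := Fintype.ofFinite _
    have : Fintype ((commutator N).map N.subtype) := Fintype.ofFinite _
    rw [Nat.card_congr e.toEquiv, ← h2, finsum_eq_sum_of_fintype, finsum_eq_sum_of_fintype,
      ← Equiv.sum_comp e.toEquiv]
    rfl)
  have h2 : (1 : N →* ℂˣ) ∉ Finset.univ.image c := by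
    rw [Finset.mem_image]
    rintro ⟨x, -, hx⟩
    exact hc1 x hx
  have h3 : ∑ ν ∈ S, f ν = zm θ N + (stab N μ).index * r := by
    rw [Finset.sum_insert h2]
    congr 1
    · simp [f]
    · rw [Finset.sum_image (fun a _ b _ h => hc h), Finset.sum_congr rfl
        (fun x _ => if_neg (hc1 x)), Finset.sum_const, Finset.card_univ, smul_eq_mul,
        Subgroup.index_eq_card, Nat.card_eq_fintype_card]
  rw [h3] at h1
  omega

lemma step_mono {θ : G → ℂ} (hθ : IsHeilbronn θ) (N : Subgroup G) :
    zm θ N ≤ zm θ ((commutator N).map N.subtype) := by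
  classical
  have : Fintype N := Fintype.ofFinite N
  have h1 := sum_lin_le (θ := fun n : N => θ n) (hθ.comp N.subtype) {1} (fun _ => zm θ N) (by
    intro ν hν
    rw [Finset.mem_singleton] at hν
    subst hν
    rw [← zm_eq hθ]
    simp) (z := zm θ ((commutator N).map N.subtype)) (by
    have h2 := zm_eq hθ ((commutator N).map N.subtype)
    let e : commutator N ≃* (commutator N).map N.subtype :=
      (commutator N).equivMapOfInjective N.subtype N.subtype_injective
    have : Fintype (commutator N) := Fintype.ofFinite _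
    have : Fintype ((commutator N).map N.subtype) := Fintype.ofFinite _
    rw [Nat.card_congr e.toEquiv, ← h2, finsum_eq_sum_of_fintype, finsum_eq_sum_of_fintype,
      ← Equiv.sum_comp e.toEquiv]
    rfl)
  simpa using h1

end Pool.Agent.R362
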