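import Mathlib
import Pool.Agent.R362.Rel

/-!
# Relative orders: the theorem for solvable normal subgroups
-/

set_option autoImplicit false
set_option linter.unusedSectionVars false

namespace Pool.Agent.R362

open Pool.Agent.H302R2 Pool.Agent.H541R3.ART Pool.Agent.H302R5 Pool.Agent.H302R6
  Pool.Agent.H302R10 Pool.Agent.TH820
  Pool.Agent.W446.AS Pool.Agent.Y788.V Pool.Agent.Y788

variable {G : Type} [Group G] [Finite G]

/-- an eigenvector gives a nonzero multiplicity -/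
lemma over_of_eig {N : Subgroup G} {μ : N →* ℂˣ} {m : ℕ} {ρ : Representation ℂ G (Fin m → ℂ)}
    {v₀ : Fin m → ℂ} (hv₀ : v₀ ≠ 0) (hμv : ∀ a : N, ρ a v₀ = ((μ a : ℂˣ) : ℂ) • v₀) :
    ∑ᶠ n : N, ρ.character n * (((μ n)⁻¹ : ℂˣ) : ℂ) ≠ 0 := by
  classical
  have : Fintype N := Fintype.ofFinite N
  have hcA : (Nat.card N : ℂ) ≠ 0 := card_ne
  let P : (Fin m → ℂ) →ₗ[ℂ] (Fin m → ℂ) :=
    (Nat.card N : ℂ)⁻¹ • ∑ a : N, (((μ a)⁻¹ : ℂˣ) : ℂ) • ρ a
  have hP : ∀ v, P v = (Nat.card N : ℂ)⁻¹ • ∑ a : N, (((μ a)⁻¹ : ℂˣ) : ℂ) • ρ a v := by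
    intro v
    simp [P, LinearMap.sum_apply]
  have hPw : ∀ v, (∀ a : N, ρ a v = ((μ a : ℂˣ) : ℂ) • v) → P v = v := by
    intro v hv
    rw [hP]
    have h1 : ∀ a : N, (((μ a)⁻¹ : ℂˣ) : ℂ) • ρ a v = v := by
      intro a
      rw [hv, smul_smul, ← Units.val_mul, inv_mul_cancel, Units.val_one, one_smul]
    rw [Finset.sum_congr rfl (fun a _ => h1 a), Finset.sum_const, Finset.card_univ,
      ← Nat.card_eq_fintype_card, ← Nat.cast_smul_eq_nsmul ℂ, smul_smul, inv_mul_cancel₀ hcA,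
      one_smul]
  have hwP : ∀ (a : N) (v : Fin m → ℂ), ρ a (P v) = ((μ a : ℂˣ) : ℂ) • P v := by
    intro a v
    rw [hP, map_smul, map_sum, smul_comm ((μ a : ℂˣ) : ℂ) ((Nat.card N : ℂ)⁻¹)]
    congr 1
    rw [Finset.smul_sum, ← Equiv.sum_comp (Equiv.mulLeft a) (fun b : N => ((μ a : ℂˣ) : ℂ) •
      (((μ b)⁻¹ : ℂˣ) : ℂ) • ρ b v)]
    refine Finset.sum_congr rfl fun b _ => ?_
    rw [map_smul, Equiv.coe_mulLeft, map_mul, mul_inv_rev, smul_smul, ← Units.val_mul,
      mul_comm (μ b)⁻¹, ← mul_assoc, mul_inv_cancel, one_mul, Subgroup.coe_mul, map_mul,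
      Module.End.mul_apply]
  have hfix : ∀ v ∈ LinearMap.range P, P v = v := by
    rintro v ⟨w, rfl⟩
    exact hPw _ fun a => hwP a w
  have h4 : LinearMap.IsProj (LinearMap.range P) P := ⟨fun v => ⟨v, rfl⟩, hfix⟩
  have h5 : LinearMap.trace ℂ (Fin m → ℂ) P = Module.finrank ℂ (LinearMap.range P) := h4.trace
  have h6 : LinearMap.trace ℂ (Fin m → ℂ) P
      = (Nat.card N : ℂ)⁻¹ * ∑ n : N, ρ.character n * (((μ n)⁻¹ : ℂˣ) : ℂ) := by
    simp only [P, map_smul, map_sum, smul_eq_mul]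
    congr 1
    refine Finset.sum_congr rfl fun a _ => ?_
    rw [mul_comm]
    rfl
  have hne : Nontrivial (LinearMap.range P) := by
    refine ⟨⟨⟨P v₀, ⟨v₀, rfl⟩⟩, 0, ?_⟩⟩
    intro h
    apply hv₀
    have h7 := congrArg Subtype.val h
    rw [← hPw v₀ hμv]
    exact h7
  intro h
  rw [finsum_eq_sum_of_fintype] at h
  rw [h, mul_zero, h5] at h6
  have h7 : 0 < Module.finrank ℂ (LinearMap.range P) := Module.finrank_pos
  have h8 : Module.finrank ℂ (LinearMap.range P) = 0 := by exact_mod_cast h6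
  omega

/-- the derived subgroups of a normal subgroup -/
def dn (S : Subgroup G) (i : ℕ) : Subgroup G := (derivedSeries S i).map S.subtype

lemma dn_zero (S : Subgroup G) : dn S 0 = S := by
  rw [dn, derivedSeries_zero, ← MonoidHom.range_eq_map, Subgroup.range_subtype]

lemma dn_succ (S : Subgroup G) (i : ℕ) :
    dn S (i + 1) = (commutator (dn S i)).map (dn S i).subtype := by
  rw [commutator_def, Subgroup.map_commutator, ← MonoidHom.range_eq_map, Subgroup.range_subtype,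
    dn, derivedSeries_succ, Subgroup.map_commutator]
  rfl

instance dn_normal (S : Subgroup G) [S.Normal] (i : ℕ) : (dn S i).Normal := by
  unfold dn
  infer_instance

lemma dn_le (S : Subgroup G) (i : ℕ) : dn S i ≤ S := by
  rintro x ⟨y, -, rfl⟩
  exact y.2

lemma zm_dn_mono {θ : G → ℂ} (hθ : IsHeilbronn θ) (S : Subgroup G) {i j : ℕ} (hij : i ≤ j) :
    zm θ (dn S i) ≤ zm θ (dn S j) := by
  induction j, hij using Nat.le_induction with
  | base => exact le_rfl
  | succ j _ ih =>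
    refine ih.trans ?_
    rw [dn_succ]
    exact step_mono hθ _

/-- characters which are nontrivial on a solvable normal subgroup -/
theorem rel_exists {θ : G → ℂ} (hθ : IsHeilbronn θ) (S : Subgroup G) [S.Normal]
    [Group.IsSolvable S] {χ : G → ℂ} (hχ : χ ∈ Irr G) (hS : ∃ x ∈ S, χ x ≠ χ 1) :
    ∃ (N : Subgroup G) (_ : N.Normal) (μ : N →* ℂˣ) (r : ℕ), N ≤ S ∧ μ ≠ 1 ∧
      (∑ᶠ n : N, χ n * (((μ n)⁻¹ : ℂˣ) : ℂ) ≠ 0) ∧
      (∑ᶠ n : N, θ n * (((μ n)⁻¹ : ℂˣ) : ℂ) = r * Nat.card N) ∧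
      (stab N μ).index * r + zm θ S ≤ zm θ ⊥ := by
  classical
  obtain ⟨m, ρ, hρ, rfl⟩ := exists_rep hχ
  obtain ⟨k, hk⟩ := (Group.isSolvable_def S).1 inferInstance
  have hk' : dn S k = ⊥ := by rw [dn, hk, Subgroup.map_bot]
  have hex : ∃ j, ∀ x ∈ dn S j, ρ x = 1 := ⟨k, fun x hx => by
    rw [hk', Subgroup.mem_bot] at hx
    rw [hx, map_one]⟩
  obtain ⟨x₀, hx₀, hx₁⟩ := hS
  have hj0 : Nat.find hex ≠ 0 := by
    intro h0
    have h1 := Nat.find_spec hex
    rw [h0, dn_zero] at h1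
    apply hx₁
    change LinearMap.trace ℂ _ (ρ x₀) = LinearMap.trace ℂ _ (ρ 1)
    rw [h1 x₀ hx₀, map_one ρ]
  obtain ⟨i, hi⟩ := Nat.exists_eq_succ_of_ne_zero hj0
  have htriv : ∀ x ∈ dn S (i + 1), ρ x = 1 := by
    have h1 := Nat.find_spec hex
    rw [hi] at h1
    exact h1
  have hnon : ∃ x ∈ dn S i, ρ x ≠ 1 := by
    have h1 := Nat.find_min hex (m := i) (by omega)
    push Not at h1
    exact h1
  let N : Subgroup G := dn S i
  have hNn : N.Normal := dn_normal S i
  let B := N ⧸ commutator N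
  let σ : Representation ℂ B (Fin m → ℂ) := QuotientGroup.lift (commutator N) (ρ.comp N.subtype) (by
    intro x hx
    apply htriv
    rw [dn_succ]
    exact ⟨x, hx, rfl⟩)
  have hB : ∀ a b : B, a * b = b * a := by
    intro a b
    obtain ⟨x, rfl⟩ := QuotientGroup.mk_surjective a
    obtain ⟨y, rfl⟩ := QuotientGroup.mk_surjective b
    have h1 : (QuotientGroup.mk (x * y * x⁻¹ * y⁻¹) : B) = 1 := by
      rw [QuotientGroup.eq_one_iff]
      exact Subgroup.commutator_mem_commutator (Subgroup.mem_top x) (Subgroup.mem_top y)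
    have h2 : x * y = (x * y * x⁻¹ * y⁻¹) * (y * x) := by group
    rw [← QuotientGroup.mk_mul, h2, QuotientGroup.mk_mul, h1, one_mul, QuotientGroup.mk_mul]
  obtain ⟨ν, v, hv, hνv⟩ := exists_weight hB σ hρ.1
  let μ : N →* ℂˣ := ν.comp (QuotientGroup.mk' (commutator N))
  have hμv : ∀ a : N, ρ a v = ((μ a : ℂˣ) : ℂ) • v := fun a => hνv (QuotientGroup.mk a)
  have hμ1 : μ ≠ 1 := by
    intro h1
    let W : Submodule ℂ (Fin m → ℂ) :=
      { carrier := {w | ∀ n ∈ N, ρ n w = w}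
        add_mem' := by
          intro a b ha hb n hn
          rw [map_add, ha n hn, hb n hn]
        zero_mem' := by
          intro n _
          exact map_zero _
        smul_mem' := by
          intro c a ha n hn
          rw [map_smul, ha n hn] }
    obtain ⟨x, hx, hx1⟩ := hnon
    rcases hρ.2 W (by
      intro g w hw n hn
      have h1 : g⁻¹ * n * g ∈ N := by
        have := hNn.conj_mem n hn g⁻¹
        rwa [inv_inv] at this
      have h2 := hw _ h1
      have h3 : n * g = g * (g⁻¹ * n * g) := by group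
      rw [← Module.End.mul_apply, ← map_mul, h3, map_mul, Module.End.mul_apply, h2]) with h | h
    · apply hv
      have h2 : v ∈ W := by
        intro n hn
        have h3 := hμv ⟨n, hn⟩
        rw [h1] at h3
        simpa using h3
      rw [h, Submodule.mem_bot] at h2
      exact h2
    · apply hx1
      refine LinearMap.ext fun w => ?_
      have h2 : w ∈ W := by rw [h]; exact Submodule.mem_top
      exact h2 x hx
  obtain ⟨r, hr⟩ := hθ.mult N μ
  refine ⟨N, hNn, μ, r, dn_le S i, hμ1, over_of_eig hv hμv, hr, ?_⟩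
  have h1 := step_le hθ N μ hμ1 hr
  have h2 : zm θ ((commutator N).map N.subtype) ≤ zm θ ⊥ := by
    have h3 : dn S (max k (i + 1)) = ⊥ := by
      rw [eq_bot_iff, ← hk']
      exact Subgroup.map_mono (derivedSeries_antitone S (le_max_left _ _))
    have h4 : zm θ (dn S (i + 1)) ≤ zm θ (dn S (max k (i + 1))) :=
      zm_dn_mono hθ S (le_max_right _ _)
    rw [h3, dn_succ] at h4
    exact h4
  have h3 : zm θ S ≤ zm θ N := by
    have h4 := zm_dn_mono hθ S (Nat.zero_le i)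
    rw [dn_zero] at h4
    exact h4
  omega

end Pool.Agent.R362
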