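import Mathlib
import Pool.Agent.R362.RelArt

/-!
# The theorems on Artin L-functions over one Hecke L-function of small order
-/

set_option autoImplicit false
set_option linter.unusedSectionVars false

namespace Pool.Agent.R362

open Pool.Agent.H302R2 Pool.Agent.H541R3.ART Pool.Agent.H302R5 Pool.Agent.H302R6
  Pool.Agent.H302R10 Pool.Agent.TH820
  Pool.Agent.W446.AS Pool.Agent.Y788.V Pool.Agent.Y788

variable {G : Type} [Group G] [Finite G] {s₀ : ℂ}

lemma solv_surj {A B : Type} [Group A] [Group B] [Group.IsSolvable A] {f : A →* B}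
    (hf : Function.Surjective f) : Group.IsSolvable B :=
  Group.isSolvable_of_surjective (f := f) hf

lemma res_bot {Q : Type} [Group Q] [Finite Q] [Group.IsSolvable Q] : res Q = ⊥ := by
  obtain ⟨n, hn⟩ := (Group.isSolvable_def Q).1 inferInstance
  rw [eq_bot_iff, ← hn]
  exact iInf_le _ n

lemma rigid_solv {Q : Type} [Group Q] [Finite Q] [Group.IsSolvable Q] (r : ℕ) :
    RigidV r (res Q) := by
  intro η _ _ s _ _ t
  have h1 : t = 1 := by
    apply Subtype.ext
    have h2 : (t : Q) ∈ (⊥ : Subgroup Q) := (le_of_eq res_bot) t.2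
    exact Subgroup.mem_bot.mp h2
  rw [h1]

/-- the quotient of the stabilizer by the kernel of the character -/
lemma exists_quot (N : Subgroup G) [N.Normal] (μ : N →* ℂˣ) :
    ∃ (Q : Type) (_ : Group Q) (π : stab N μ →* Q), Function.Surjective π ∧
      ∀ t, π t = 1 ↔ ∃ n : N, μ n = 1 ∧ (n : G) = t := by
  let K : Subgroup (stab N μ) := (μ.ker.map N.subtype).subgroupOf (stab N μ)
  have hKm : ∀ t : stab N μ, t ∈ K ↔ ∃ n : N, μ n = 1 ∧ (n : G) = t := by
    intro t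
    rw [Subgroup.mem_subgroupOf]
    constructor
    · rintro ⟨n, hn, h⟩
      exact ⟨n, hn, h⟩
    · rintro ⟨n, hn, h⟩
      exact ⟨n, hn, h⟩
  have hK : K.Normal := by
    refine ⟨fun x hx t => ?_⟩
    rw [hKm] at hx ⊢
    obtain ⟨n, hn, h⟩ := hx
    refine ⟨MulAut.conjNormal (t : G) n, by rw [(mem_stab.mp t.2) n, hn], ?_⟩
    rw [MulAut.conjNormal_apply, h]
    rfl
  refine ⟨stab N μ ⧸ K, inferInstance, QuotientGroup.mk' K, QuotientGroup.mk'_surjective K, ?_⟩
  intro t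
  rw [← hKm]
  exact QuotientGroup.eq_one_iff t

lemma rigid_one {Q : Type} [Group Q] [Finite Q] {r : ℕ} (hr : r ≤ 1) : RigidV r (res Q) := by
  refine rigid_of_local ?_ (Or.inl (by omega))
  intro Q' _ _ _
  right
  intro p hp hpr _
  have := hp.two_le
  omega

/-- **order at most one** -/
theorem art_one (A : ArtinData G s₀) (N : Subgroup G) [N.Normal] (μ : N →* ℂˣ) {r : ℕ}
    (hr : meromorphicOrderAt (A.Lin N μ) s₀ = (r : WithTop ℤ)) (hr1 : r ≤ 1)
    {χ : G → ℂ} (hχ : χ ∈ Irr G) (hχμ : ∑ᶠ n : N, χ n * (((μ n)⁻¹ : ℂˣ) : ℂ) ≠ 0) :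
    meromorphicOrderAt (A.L χ) s₀ = 0 ∨
      (r = 1 ∧ meromorphicOrderAt (A.L χ) s₀ = 1 ∧ χ 1 = (stab N μ).index) := by
  classical
  have h1 := mult_of_order A hr
  rcases Nat.lt_or_ge r 1 with h0 | h0
  · left
    have hr0 : r = 0 := by omega
    obtain ⟨Q, _, π, hπ, hker⟩ := exists_quot N μ
    have : Finite Q := Finite.of_surjective π hπ
    have h2 := local_gen False A.isHeilbronn (theta_virt _) (fun h => h.elim) h1 π hπ hker
      (rigid_one (by omega)) hχ hχμ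
    exact ord_zero A hχ (h2.1 (Or.inl hr0))
  · have hr1' : r = 1 := by omega
    subst hr1'
    rw [Nat.cast_one, one_mul] at h1
    rcases local_one A.isHeilbronn (theta_virt _) h1 hχ hχμ with h2 | ⟨h2, h3⟩
    · left
      exact ord_zero A hχ h2
    · right
      refine ⟨rfl, ?_, h3⟩
      have h4 : pr (theta A.ord : G → ℂ) χ = ((1 : ℤ) : ℂ) := by rw [h2]; simp
      have h5 := ord_of_pr A hχ h4
      simpa using h5

/-- the numerical conditions: `t` is the index of a central subgroup, `w` the order of the group -/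
def Small (lt : Prop) (r t w : ℕ) : Prop :=
  r ≤ 1 ∨ (∃ P : ℕ, 3 ≤ P ∧ r ≤ 2 * P - 2 ∧ ∀ q : ℕ, q.Prime → q ∣ t → P ≤ q) ∨
    (r ≤ 12 ∧ t.Coprime 6) ∨
    (r ≤ 10 ∧ Odd t ∧ ¬ (75 ∣ t ∧ 375 ∣ w) ∧ ¬ (405 ∣ t ∧ 1215 ∣ w)) ∨
    (lt ∧ r ≤ 6 ∧ (36 ∣ t → 108 ∣ w → r ≤ 2) ∧ (80 ∣ t → 160 ∣ w → r ≤ 3) ∧
      (75 ∣ t → 375 ∣ w → r ≤ 4))

lemma Small.obs {X : Type} [Group X] [Finite X] {lt : Prop} {r t w : ℕ} (h : Small lt r t w)
    (ht : (Subgroup.center X).index ∣ t) (hw : Nat.card X ∣ w) : ¬ FObstruct lt r X := by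
  have hpos : 0 < (Subgroup.center X).index := Nat.pos_of_ne_zero Subgroup.index_ne_zero_of_finite
  rcases h with h1 | ⟨P, hP, hrP, hq⟩ | ⟨h12, h6⟩ | ⟨h10, hodd, h75, h405⟩ | ⟨hlt, h6, h36, h80, h75⟩
  · rintro ⟨F, D, hF, -, h2⟩
    have := hF.one_lt
    rcases h2 with h2 | ⟨h2, -⟩ <;> omega
  · exact obs_least lt hP hrP fun q hq1 hq2 => hq q hq1 (hq2.trans ht)
  · exact obs_twelve lt h12 (Nat.Coprime.coprime_dvd_left ht h6)
  · exact obs_ten lt h10 (Odd.of_dvd_nat hodd ht) (fun h => h75 ⟨h.1.trans ht, h.2.trans hw⟩)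
      (fun h => h405 ⟨h.1.trans ht, h.2.trans hw⟩)
  · have h1 := obs_lt (X := X) h6 (fun a b => h36 (a.trans ht) (b.trans hw))
      (fun a b => h80 (a.trans ht) (b.trans hw)) (fun a b => h75 (a.trans ht) (b.trans hw))
    rintro ⟨F, D, hF, h2, h3⟩
    exact h1 ⟨F, D, hF, fun _ => h2 hlt, h3⟩

/-- **the general theorem** -/
theorem art_local (A : ArtinData G s₀) (N : Subgroup G) [N.Normal] (μ : N →* ℂˣ) {r : ℕ}
    (hr : meromorphicOrderAt (A.Lin N μ) s₀ = (r : WithTop ℤ))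
    {Q : Type} [Group Q] (π : stab N μ →* Q) (hπ : Function.Surjective π)
    (hker : ∀ t, π t = 1 ↔ ∃ n : N, μ n = 1 ∧ (n : G) = t) (hrig : RigidV r (res Q))
    {χ : G → ℂ} (hχ : χ ∈ Irr G) (hχμ : ∑ᶠ n : N, χ n * (((μ n)⁻¹ : ℂˣ) : ℂ) ≠ 0) :
    ((r = 0 ∨ ∃ n : N, μ n ≠ 1 ∧ π ⟨n, le_stab N μ n.2⟩ ∈ res Q) →
      meromorphicOrderAt (A.L χ) s₀ = 0) ∧
    ∀ (Y : Type) [Group Y] (κ : Q →* Y), Function.Surjective κ → κ.ker = res Q →
      (meromorphicOrderAt (A.L χ) s₀ < 0 →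
        ∃ (H : Subgroup Y) (X : Type) (_ : Group X) (f : H →* X) (F : Subgroup X) (D : ℕ),
          Over ((κ.comp π).comp (Subgroup.inclusion (le_stab N μ))) μ H X f ∧ Frame X F D ∧
          (Nonempty (LTData A) → D ≠ 2) ∧
          (2 * D ≤ r ∨ (D ≤ r ∧ ∃ g : X, F ⊔ Subgroup.zpowers g = ⊤))) ∧
      (Small (Nonempty (LTData A)) r
          ((κ.comp π).comp (Subgroup.inclusion (le_stab N μ))).range.index (Nat.card Y) →
        0 ≤ meromorphicOrderAt (A.L χ) s₀) := by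
  classical
  have hQ : Finite Q := Finite.of_surjective π hπ
  have h1 := mult_of_order A hr
  obtain ⟨h2, h3⟩ := local_gen (Nonempty (LTData A)) A.isHeilbronn (theta_virt _)
    (fun h => h.elim fun B => solPos_theta B) h1 π hπ hker hrig hχ hχμ
  refine ⟨fun h => ord_zero A hχ (h2 h), ?_⟩
  intro Y _ κ hκ hκr
  have hYf : Finite Y := Finite.of_surjective κ hκ
  have key : (∀ (H : Subgroup Y) (X : Type) [Group X] (f : H →* X),
      Over ((κ.comp π).comp (Subgroup.inclusion (le_stab N μ))) μ H X f →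
        ¬ FObstruct (Nonempty (LTData A)) r X) → 0 ≤ meromorphicOrderAt (A.L χ) s₀ :=
    fun h => order_nonneg A hχ (h3 Y κ hκ hκr h)
  refine ⟨?_, ?_⟩
  · intro hneg
    by_contra hcon
    refine (not_lt.mpr (key ?_)) hneg
    rintro H X _ f hov ⟨F, D, hF, h4, h5⟩
    exact hcon ⟨H, X, _, f, F, D, hov, hF, h4, h5⟩
  · intro hsm
    apply key
    intro H X _ f hov
    set ε := (κ.comp π).comp (Subgroup.inclusion (le_stab N μ)) with hε
    have hK : ε.range ≤ Subgroup.center Y := by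
      rintro y ⟨n, rfl⟩
      rw [Subgroup.mem_center_iff]
      intro y
      obtain ⟨q, rfl⟩ := hκ y
      obtain ⟨t, rfl⟩ := hπ q
      change κ (π t) * κ (π _) = κ (π _) * κ (π t)
      rw [← map_mul, ← map_mul, ← map_mul, ← map_mul]
      have h6 : (t * (Subgroup.inclusion (le_stab N μ) n) : stab N μ)
          = (t * (Subgroup.inclusion (le_stab N μ) n) * t⁻¹ *
            (Subgroup.inclusion (le_stab N μ) n)⁻¹) * ((Subgroup.inclusion (le_stab N μ) n) * t) := by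
        group
      have h7 : π (t * (Subgroup.inclusion (le_stab N μ) n) * t⁻¹ *
            (Subgroup.inclusion (le_stab N μ) n)⁻¹) = 1 := by
        rw [hker]
        refine ⟨MulAut.conjNormal (t : G) n * n⁻¹, ?_, ?_⟩
        · rw [map_mul, (mem_stab.mp t.2) n, map_inv, mul_inv_cancel]
        · rw [Subgroup.coe_mul, MulAut.conjNormal_apply]
          rfl
      rw [h6, map_mul, h7, one_mul]
    have hKH : ε.range ≤ H := by
      rintro y ⟨n, rfl⟩
      exact hov.mem n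
    have hXf : Finite X := Finite.of_surjective f hov.surj
    obtain ⟨h8, h9⟩ := index_center_dvd hK hKH f hov.surj
    exact hsm.obs h8 h9

/-- **relative orders for solvable groups** -/
theorem art_rel (A : ArtinData G s₀) (S : Subgroup G) [S.Normal] [Group.IsSolvable S]
    {z e : ℕ} (hz : meromorphicOrderAt (A.Lin S 1) s₀ = (z : WithTop ℤ))
    (he : meromorphicOrderAt (A.Lin ⊥ 1) s₀ = ((z + e : ℕ) : WithTop ℤ))
    {χ : G → ℂ} (hχ : χ ∈ Irr G) (hS : ∃ x ∈ S, χ x ≠ χ 1) :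
    ∃ (N : Subgroup G) (_ : N.Normal) (μ : N →* ℂˣ) (r : ℕ), N ≤ S ∧ μ ≠ 1 ∧
      (∑ᶠ n : N, χ n * (((μ n)⁻¹ : ℂˣ) : ℂ) ≠ 0) ∧
      meromorphicOrderAt (A.Lin N μ) s₀ = (r : WithTop ℤ) ∧ (stab N μ).index * r ≤ e := by
  classical
  have hθ := A.isHeilbronn
  obtain ⟨N, hN, μ, r, h1, h2, h3, h4, h5⟩ := rel_exists hθ S hχ hS
  refine ⟨N, hN, μ, r, h1, h2, h3, order_of_mult A h4, ?_⟩
  have hz' : zm (theta A.ord : G → ℂ) S = z := by
    apply zm_unique hθ
    have h6 := mult_of_order A hz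
    simpa using h6
  have he' : zm (theta A.ord : G → ℂ) ⊥ = z + e := by
    apply zm_unique hθ
    have h6 := mult_of_order A he
    simp only [MonoidHom.one_apply, inv_one, Units.val_one, mul_one] at h6
    exact h6
  rw [hz', he'] at h5
  omega

theorem art_rel_solv (A : ArtinData G s₀) [Group.IsSolvable G]
    {z e : ℕ} (hz : meromorphicOrderAt (A.Lin ⊤ 1) s₀ = (z : WithTop ℤ))
    (he : meromorphicOrderAt (A.Lin ⊥ 1) s₀ = ((z + e : ℕ) : WithTop ℤ))
    (hsm : Small (Nonempty (LTData A)) e (Nat.card G) (Nat.card G))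
    {χ : G → ℂ} (hχ : χ ∈ Irr G) : 0 ≤ meromorphicOrderAt (A.L χ) s₀ := by
  classical
  have : Fintype G := Fintype.ofFinite G
  by_cases hS : ∃ x ∈ (⊤ : Subgroup G), χ x ≠ χ 1
  · obtain ⟨N, hN, μ, r, -, -, h3, h4, h5⟩ := art_rel A ⊤ hz he hχ hS
    have hidx : 0 < (stab N μ).index := Nat.pos_of_ne_zero Subgroup.index_ne_zero_of_finite
    have hre : r ≤ e := by nlinarith
    obtain ⟨Q, _, π, hπ, hker⟩ := exists_quot N μ
    have hQ : Finite Q := Finite.of_surjective π hπ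
    have hsolQ : Group.IsSolvable Q := solv_surj hπ
    obtain ⟨h6, h7⟩ := local_gen (Nonempty (LTData A)) A.isHeilbronn (theta_virt _)
      (fun h => h.elim fun B => solPos_theta B) (mult_of_order A h4) π hπ hker (rigid_solv r)
      hχ h3
    refine order_nonneg A hχ (h7 Q (MonoidHom.id Q) Function.surjective_id ?_ ?_)
    · rw [res_bot]
      ext x
      rw [MonoidHom.mem_ker, Subgroup.mem_bot]
      rfl
    · intro H X _ f hov hobs
      have hXf : Finite X := Finite.of_surjective f hov.surj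
      have hX : Nat.card X ∣ Nat.card G :=
        ((Subgroup.card_dvd_of_surjective f hov.surj).trans
          (Subgroup.card_subgroup_dvd_card H)).trans
          ((Subgroup.card_dvd_of_surjective π hπ).trans (Subgroup.card_subgroup_dvd_card _))
      refine (hsm.obs (X := X) ((Subgroup.index_dvd_card _).trans hX) hX) ?_
      obtain ⟨F, D, hF, h8, h9⟩ := hobs
      refine ⟨F, D, hF, h8, ?_⟩
      rcases h9 with h9 | ⟨h9, h10⟩
      · exact Or.inl (h9.trans hre)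
      · exact Or.inr ⟨h9.trans hre, h10⟩
  · push Not at hS
    obtain ⟨k, hk⟩ := A.isHeilbronn.mult_hom (MonoidHom.id G) 1
    obtain ⟨d, hd, hd1⟩ := irr_deg_pos hχ
    apply order_nonneg A hχ
    refine ⟨k * d, ?_⟩
    rw [pr_eq]
    have h1 : ∀ g : G, (theta A.ord : G → ℂ) g * χ g⁻¹
        = ((theta A.ord : G → ℂ) (MonoidHom.id G g) * ((((1 : G →* ℂˣ) g)⁻¹ : ℂˣ) : ℂ)) * d := by
      intro g
      rw [hS g⁻¹ (Subgroup.mem_top _), hd1]
      simp
    rw [Finset.sum_congr rfl (fun g _ => h1 g), ← Finset.sum_mul, hk]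
    have h2 : (Nat.card G : ℂ) ≠ 0 := card_ne
    push_cast
    field_simp

end Pool.Agent.R362
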