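import Mathlib
import Pool.Agent.R362.MainA

/-!
# Exact tracking of restrictions and averages
-/

set_option autoImplicit false
set_option linter.unusedSectionVars false

namespace Pool.Agent.R362

open Pool.Agent.H302R2 Pool.Agent.H541R3.ART Pool.Agent.H302R5 Pool.Agent.H302R6
  Pool.Agent.W446.AS Pool.Agent.Y788.V

/-- `σ` is the average over the fibres of `f` of the restriction of `θ` to `H` -/
def IsAvg {G : Type} [Group G] (θ : G → ℂ) {X : Type} [Group X] (σ : X → ℂ) (H : Subgroup G)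
    (f : H →* X) : Prop :=
  ∀ F : X → ℂ, ∑ᶠ h : H, θ h * F (f h) = (Nat.card f.ker : ℂ) * ∑ᶠ x : X, σ x * F x

/-- The pairs obtained from `(G, θ)` by restrictions and averages -/
def Tr {G : Type} [Group G] (θ : G → ℂ) (X : Type) [Group X] (σ : X → ℂ) : Prop :=
  ∃ (H : Subgroup G) (f : H →* X), Function.Surjective f ∧ IsAvg θ σ H f

/-- averages against test functions -/
lemma push_test {X : Type} [Group X] [Fintype X] {Y : Type} [Group Y] [Fintype Y] {π : X →* Y}
    (hπ : Function.Surjective π) (σ : X → ℂ) (F : Y → ℂ) :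
    ∑ x : X, σ x * F (π x) = (Nat.card π.ker : ℂ) * ∑ y : Y, push π σ y * F y := by
  classical
  have h1 : (Nat.card π.ker : ℂ) ≠ 0 := card_ne
  have h2 : ∀ y : Y, push π σ y * F y
      = (Nat.card π.ker : ℂ)⁻¹ * ∑ x : X, if π x = y then σ x * F (π x) else 0 := by
    intro y
    unfold push
    rw [mul_assoc, Finset.sum_mul]
    congr 1
    refine Finset.sum_congr rfl fun x _ => ?_
    by_cases h : π x = y
    · rw [if_pos h, if_pos h, h]
    · rw [if_neg h, if_neg h, zero_mul]
  rw [Finset.sum_congr rfl (fun y _ => h2 y), ← Finset.mul_sum, ← mul_assoc, mul_inv_cancel₀ h1,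
    one_mul, Finset.sum_comm]
  refine Finset.sum_congr rfl fun x _ => ?_
  rw [Finset.sum_ite_eq]
  simp

variable {G : Type} [Group G] [Finite G]

lemma tr_closed (θ : G → ℂ) : Closed (Tr θ) := by
  classical
  refine ⟨?_, ?_⟩
  · intro X _ _ σ hσ _ _ X' _
    obtain ⟨H, f, hf, hF⟩ := hσ
    let H' : Subgroup G :=
      { carrier := {q | ∃ h : q ∈ H, f ⟨q, h⟩ ∈ X'}
        mul_mem' := by
          rintro p q ⟨hp, hp'⟩ ⟨hq, hq'⟩
          refine ⟨H.mul_mem hp hq, ?_⟩
          have h1 : f ⟨p * q, H.mul_mem hp hq⟩ = f ⟨p, hp⟩ * f ⟨q, hq⟩ := by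
            rw [← map_mul]
            rfl
          rw [h1]
          exact X'.mul_mem hp' hq'
        one_mem' := by
          refine ⟨H.one_mem, ?_⟩
          have h1 : f ⟨1, H.one_mem⟩ = 1 := map_one f
          rw [h1]
          exact X'.one_mem
        inv_mem' := by
          rintro p ⟨hp, hp'⟩
          refine ⟨H.inv_mem hp, ?_⟩
          have h1 : f ⟨p⁻¹, H.inv_mem hp⟩ = (f ⟨p, hp⟩)⁻¹ := by
            rw [← map_inv]
            rfl
          rw [h1]
          exact X'.inv_mem hp' }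
    have hH' : ∀ q : H', ∃ h : (q : G) ∈ H, f ⟨q, h⟩ ∈ X' := fun q => q.2
    let f' : H' →* X' :=
      { toFun := fun q => ⟨f ⟨q, (hH' q).1⟩, (hH' q).2⟩
        map_one' := Subtype.ext (map_one f)
        map_mul' := by
          intro p q
          apply Subtype.ext
          change f _ = f _ * f _
          rw [← map_mul]
          rfl }
    have hf'v : ∀ q : H', ((f' q : X') : X) = f ⟨q, (hH' q).1⟩ := fun q => rfl
    refine ⟨H', f', ?_, ?_⟩
    · rintro ⟨x, hx⟩
      obtain ⟨q, rfl⟩ := hf x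
      exact ⟨⟨q, q.2, hx⟩, rfl⟩
    · intro F
      have : Fintype H := Fintype.ofFinite _
      have : Fintype H' := Fintype.ofFinite _
      have : Fintype X := Fintype.ofFinite _
      have : Fintype X' := Fintype.ofFinite _
      have h1 := hF (fun x => if h : x ∈ X' then F ⟨x, h⟩ else 0)
      rw [finsum_eq_sum_of_fintype, finsum_eq_sum_of_fintype] at h1
      rw [finsum_eq_sum_of_fintype, finsum_eq_sum_of_fintype]
      have h2 : ∑ x : X, σ x * (if h : x ∈ X' then F ⟨x, h⟩ else 0) = ∑ x : X', σ x * F x := by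
        have h3 : ∀ x : X, σ x * (if h : x ∈ X' then F ⟨x, h⟩ else 0)
            = if x ∈ X' then σ x * (if h : x ∈ X' then F ⟨x, h⟩ else 0) else 0 := by
          intro x
          by_cases h : x ∈ X'
          · rw [if_pos h]
          · rw [if_neg h, dif_neg h, mul_zero]
        rw [Finset.sum_congr rfl (fun x _ => h3 x), ← Finset.sum_filter,
          Finset.sum_subtype (Finset.univ.filter fun x => x ∈ X') (p := fun x => x ∈ X')
            (by simp) (fun x => σ x * (if h : x ∈ X' then F ⟨x, h⟩ else 0))]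
        refine Finset.sum_congr rfl fun x _ => ?_
        rw [dif_pos x.2]
      have h4 : ∑ h : H, θ h * (if h' : f h ∈ X' then F ⟨f h, h'⟩ else 0)
          = ∑ h : H', θ h * F (f' h) := by
        have h3 : ∀ h : H, θ h * (if h' : f h ∈ X' then F ⟨f h, h'⟩ else 0)
            = if f h ∈ X' then θ h * (if h' : f h ∈ X' then F ⟨f h, h'⟩ else 0) else 0 := by
          intro x
          by_cases h : f x ∈ X'
          · rw [if_pos h]
          · rw [if_neg h, dif_neg h, mul_zero]
        rw [Finset.sum_congr rfl (fun x _ => h3 x), ← Finset.sum_filter]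
        symm
        refine Finset.sum_bij (fun q _ => (⟨q, (hH' q).1⟩ : H)) ?_ ?_ ?_ ?_
        · intro q _
          rw [Finset.mem_filter]
          exact ⟨Finset.mem_univ _, (hH' q).2⟩
        · intro a _ b _ hab
          apply Subtype.ext
          exact congrArg (fun y : H => (y : G)) hab
        · intro b hb
          rw [Finset.mem_filter] at hb
          exact ⟨⟨b, b.2, hb.2⟩, Finset.mem_univ _, rfl⟩
        · intro a _
          rw [dif_pos (hH' a).2]
          rfl
      have h5 : Nat.card f'.ker = Nat.card f.ker := by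
        refine Nat.card_congr
          { toFun := fun q => ⟨⟨q, (hH' q).1⟩, ?_⟩
            invFun := fun q => ⟨⟨(q : H), ⟨(q : H).2, ?_⟩⟩, ?_⟩
            left_inv := fun q => rfl
            right_inv := fun q => rfl }
        · rw [MonoidHom.mem_ker]
          have := congrArg Subtype.val (MonoidHom.mem_ker.mp q.2)
          exact this
        · have := MonoidHom.mem_ker.mp q.2
          change f (q : H) ∈ X'
          rw [this]
          exact X'.one_mem
        · rw [MonoidHom.mem_ker]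
          apply Subtype.ext
          exact MonoidHom.mem_ker.mp q.2
      rw [h5, ← h2, ← h1, ← h4]
  · intro X _ _ σ hσ _ _ Y _ _ π hπ
    obtain ⟨H, f, hf, hF⟩ := hσ
    refine ⟨H, π.comp f, hπ.comp hf, ?_⟩
    intro F
    have : Fintype Y := Fintype.ofFinite _
    have h1 := hF (fun x => F (π x))
    rw [finsum_eq_sum_of_fintype (fun x => σ x * F (π x)), push_test hπ] at h1
    rw [finsum_eq_sum_of_fintype (fun y => push π σ y * F y)]
    have h2 : Nat.card (π.comp f).ker = Nat.card f.ker * Nat.card π.ker := by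
      have : Fintype H := Fintype.ofFinite _
      have h3 := card_eq_ker_mul (π := π.comp f) (hπ.comp hf)
      have h4 := card_eq_ker_mul hf
      have h5 := card_eq_ker_mul hπ
      have h6 : 0 < Nat.card Y := Nat.card_pos
      apply Nat.eq_of_mul_eq_mul_right h6
      rw [← h3, h4, h5, mul_assoc]
    rw [h2]
    push_cast
    rw [mul_assoc, ← h1]
    rfl

lemma tr_self (θ : G → ℂ) : Tr θ G θ := by
  classical
  refine ⟨⊤, (⊤ : Subgroup G).subtype, fun x => ⟨⟨x, Subgroup.mem_top x⟩, rfl⟩, ?_⟩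
  intro F
  have : Fintype G := Fintype.ofFinite _
  have : Fintype (⊤ : Subgroup G) := Fintype.ofFinite _
  have h1 : Nat.card (⊤ : Subgroup G).subtype.ker = 1 := by
    rw [Subgroup.card_eq_one]
    exact (MonoidHom.ker_eq_bot_iff _).mpr (Subgroup.subtype_injective _)
  rw [h1, finsum_eq_sum_of_fintype, finsum_eq_sum_of_fintype, Nat.cast_one, one_mul,
    ← Equiv.sum_comp (Subgroup.topEquiv (G := G)).toEquiv (fun g => θ g * F g)]
  rfl

/-- the preimage in `G` of a subgroup of the section -/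
def pre {X : Type} [Group X] (H : Subgroup G) (f : H →* X) (B : Subgroup X) : Subgroup G :=
  (B.comap f).map H.subtype

lemma mem_pre {X : Type} [Group X] {H : Subgroup G} {f : H →* X} {B : Subgroup X} {g : G} :
    g ∈ pre H f B ↔ ∃ h : g ∈ H, f ⟨g, h⟩ ∈ B := by
  constructor
  · rintro ⟨x, hx, rfl⟩
    exact ⟨x.2, hx⟩
  · rintro ⟨h, hx⟩
    exact ⟨⟨g, h⟩, hx, rfl⟩

/-- the homomorphism from the preimage of `B` to `B` -/
def preHom {X : Type} [Group X] (H : Subgroup G) (f : H →* X) (B : Subgroup X) :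
    pre H f B →* B where
  toFun g := ⟨f ⟨g, (mem_pre.mp g.2).1⟩, (mem_pre.mp g.2).2⟩
  map_one' := Subtype.ext (map_one f)
  map_mul' := by
    intro a b
    apply Subtype.ext
    change f _ = f _ * f _
    rw [← map_mul]
    rfl

lemma preHom_surj {X : Type} [Group X] {H : Subgroup G} {f : H →* X}
    (hf : Function.Surjective f) (B : Subgroup X) : Function.Surjective (preHom H f B) := by
  rintro ⟨x, hx⟩
  obtain ⟨h, rfl⟩ := hf x
  exact ⟨⟨h, mem_pre.mpr ⟨h.2, hx⟩⟩, rfl⟩

/-- multiplicities of linear characters of subgroups of the section -/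
lemma tr_mult {θ : G → ℂ} {X : Type} [Group X] [Finite X] {σ : X → ℂ} {H : Subgroup G}
    {f : H →* X} (hf : Function.Surjective f) (hF : IsAvg θ σ H f) (B : Subgroup X)
    (ω : B →* ℂˣ) {a : ℕ} (ha : ∑ᶠ b : B, σ b * (((ω b)⁻¹ : ℂˣ) : ℂ) = a * Nat.card B) :
    ∑ᶠ g : pre H f B, θ g * (((ω (preHom H f B g))⁻¹ : ℂˣ) : ℂ) = a * Nat.card (pre H f B) := by
  classical
  have : Fintype X := Fintype.ofFinite _
  have : Fintype H := Fintype.ofFinite _
  have : Fintype B := Fintype.ofFinite _
  have : Fintype (pre H f B) := Fintype.ofFinite _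
  have h1 := hF (fun x => if h : x ∈ B then (((ω ⟨x, h⟩)⁻¹ : ℂˣ) : ℂ) else 0)
  rw [finsum_eq_sum_of_fintype, finsum_eq_sum_of_fintype] at h1
  rw [finsum_eq_sum_of_fintype] at ha ⊢
  have h2 : ∑ x : X, σ x * (if h : x ∈ B then (((ω ⟨x, h⟩)⁻¹ : ℂˣ) : ℂ) else 0)
      = ∑ b : B, σ b * (((ω b)⁻¹ : ℂˣ) : ℂ) := by
    have h3 : ∀ x : X, σ x * (if h : x ∈ B then (((ω ⟨x, h⟩)⁻¹ : ℂˣ) : ℂ) else 0)
        = if x ∈ B then σ x * (if h : x ∈ B then (((ω ⟨x, h⟩)⁻¹ : ℂˣ) : ℂ) else 0) else 0 := by
      intro x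
      by_cases h : x ∈ B
      · rw [if_pos h]
      · rw [if_neg h, dif_neg h, mul_zero]
    rw [Finset.sum_congr rfl (fun x _ => h3 x), ← Finset.sum_filter,
      Finset.sum_subtype (Finset.univ.filter fun x => x ∈ B) (p := fun x => x ∈ B)
        (by simp) (fun x => σ x * (if h : x ∈ B then (((ω ⟨x, h⟩)⁻¹ : ℂˣ) : ℂ) else 0))]
    refine Finset.sum_congr rfl fun x _ => ?_
    rw [dif_pos x.2]
  have h4 : ∑ h : H, θ h * (if h' : f h ∈ B then (((ω ⟨f h, h'⟩)⁻¹ : ℂˣ) : ℂ) else 0)
      = ∑ g : pre H f B, θ g * (((ω (preHom H f B g))⁻¹ : ℂˣ) : ℂ) := by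
    have h3 : ∀ h : H, θ h * (if h' : f h ∈ B then (((ω ⟨f h, h'⟩)⁻¹ : ℂˣ) : ℂ) else 0)
        = if f h ∈ B then θ h * (if h' : f h ∈ B then (((ω ⟨f h, h'⟩)⁻¹ : ℂˣ) : ℂ) else 0)
          else 0 := by
      intro x
      by_cases h : f x ∈ B
      · rw [if_pos h]
      · rw [if_neg h, dif_neg h, mul_zero]
    rw [Finset.sum_congr rfl (fun x _ => h3 x), ← Finset.sum_filter]
    symm
    refine Finset.sum_bij (fun q _ => (⟨q, (mem_pre.mp q.2).1⟩ : H)) ?_ ?_ ?_ ?_
    · intro q _
      rw [Finset.mem_filter]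
      exact ⟨Finset.mem_univ _, (mem_pre.mp q.2).2⟩
    · intro a _ b _ hab
      apply Subtype.ext
      exact congrArg (fun y : H => (y : G)) hab
    · intro b hb
      rw [Finset.mem_filter] at hb
      exact ⟨⟨b, mem_pre.mpr ⟨b.2, hb.2⟩⟩, Finset.mem_univ _, rfl⟩
    · intro a _
      rw [dif_pos (mem_pre.mp a.2).2]
      rfl
  have h5 : Nat.card (pre H f B) = Nat.card f.ker * Nat.card B := by
    rw [card_eq_ker_mul (preHom_surj hf B)]
    congr 1
    refine Nat.card_congr
      { toFun := fun q => ⟨⟨q, (mem_pre.mp (q : pre H f B).2).1⟩, ?_⟩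
        invFun := fun q => ⟨⟨(q : H), mem_pre.mpr ⟨(q : H).2, ?_⟩⟩, ?_⟩
        left_inv := fun q => rfl
        right_inv := fun q => rfl }
    · rw [MonoidHom.mem_ker]
      exact congrArg Subtype.val (MonoidHom.mem_ker.mp q.2)
    · change f (q : H) ∈ B
      rw [MonoidHom.mem_ker.mp q.2]
      exact B.one_mem
    · rw [MonoidHom.mem_ker]
      apply Subtype.ext
      exact MonoidHom.mem_ker.mp q.2
  rw [← h4, h1, h2, ha, h5]
  push_cast
  ring

end Pool.Agent.R362
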