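import Mathlib
import Pool.Agent.W446.AS.FDefs

/-!
# Noncentral elements of prime order in a frame
-/

set_option autoImplicit false
set_option linter.unusedSectionVars false

namespace Pool.Agent.R362

open Pool.Agent.W446.AS

section comm

variable {X : Type} [Group X] {x y z : X}

lemma pow_swap (hzx : z * x = x * z) (hzy : z * y = y * z) (h : y * x = z * x * y) (n : ℕ) :
    y ^ n * x = z ^ n * x * y ^ n := by
  induction n with
  | zero => simp
  | succ n ih =>
    have h1 : z ^ n * y = y * z ^ n := ((Commute.pow_left (show Commute z y from hzy) n)).eq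
    calc y ^ (n + 1) * x = y * (y ^ n * x) := by rw [pow_succ']; group
      _ = y * (z ^ n * x * y ^ n) := by rw [ih]
      _ = (y * z ^ n) * x * y ^ n := by group
      _ = z ^ n * (y * x) * y ^ n := by rw [← h1]; group
      _ = z ^ n * (z * x * y) * y ^ n := by rw [h]
      _ = z ^ (n + 1) * x * y ^ (n + 1) := by rw [pow_succ z, pow_succ' y]; group

lemma pow_swap' (hzx : z * x = x * z) (hzy : z * y = y * z) (h : y * x = z * x * y) (n : ℕ) :
    y * x ^ n = z ^ n * x ^ n * y := by
  induction n with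
  | zero => simp
  | succ n ih =>
    have h1 : x ^ n * z = z * x ^ n := ((Commute.pow_left (show Commute x z from hzx.symm) n)).eq
    calc y * x ^ (n + 1) = (y * x ^ n) * x := by rw [pow_succ]; group
      _ = z ^ n * x ^ n * (y * x) := by rw [ih]; group
      _ = z ^ n * (x ^ n * z) * x * y := by rw [h]; group
      _ = z ^ (n + 1) * x ^ (n + 1) * y := by rw [h1, pow_succ z, pow_succ x]; group

/-- powers of a product in class two -/
lemma mul_pow_class (hzx : z * x = x * z) (hzy : z * y = y * z) (h : y * x = z * x * y) (n : ℕ) :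
    (x * y) ^ n = x ^ n * y ^ n * z ^ (n.choose 2) := by
  induction n with
  | zero => simp
  | succ n ih =>
    have h1 := pow_swap hzx hzy h n
    have h2 : z ^ (n.choose 2) * x = x * z ^ (n.choose 2) :=
      ((Commute.pow_left (show Commute z x from hzx) _)).eq
    have h3 : z ^ (n.choose 2) * y = y * z ^ (n.choose 2) :=
      ((Commute.pow_left (show Commute z y from hzy) _)).eq
    have h4 : x ^ n * z ^ n = z ^ n * x ^ n :=
      ((Commute.pow_pow (show Commute x z from hzx.symm) n n)).eq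
    have h5 : z ^ n * y ^ (n + 1) = y ^ (n + 1) * z ^ n :=
      ((Commute.pow_pow (show Commute z y from hzy) n (n + 1))).eq
    have h6 : z ^ n * x ^ (n + 1) = x ^ (n + 1) * z ^ n :=
      ((Commute.pow_pow (show Commute z x from hzx) n (n + 1))).eq
    calc (x * y) ^ (n + 1) = (x * y) ^ n * (x * y) := pow_succ _ _
      _ = x ^ n * y ^ n * (z ^ (n.choose 2) * x) * y := by rw [ih]; group
      _ = x ^ n * (y ^ n * x) * (z ^ (n.choose 2) * y) := by rw [h2]; group
      _ = x ^ n * (z ^ n * x * y ^ n) * (y * z ^ (n.choose 2)) := by rw [h1, h3]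
      _ = (x ^ n * z ^ n) * x * (y ^ n * y) * z ^ (n.choose 2) := by group
      _ = z ^ n * (x ^ n * x) * (y ^ n * y) * z ^ (n.choose 2) := by rw [h4]; group
      _ = (z ^ n * x ^ (n + 1)) * y ^ (n + 1) * z ^ (n.choose 2) := by
        rw [← pow_succ, ← pow_succ]
      _ = x ^ (n + 1) * (z ^ n * y ^ (n + 1)) * z ^ (n.choose 2) := by rw [h6]; group
      _ = x ^ (n + 1) * y ^ (n + 1) * (z ^ n * z ^ (n.choose 2)) := by rw [h5]; group
      _ = x ^ (n + 1) * y ^ (n + 1) * z ^ ((n + 1).choose 2) := by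
        rw [← pow_add, Nat.choose_succ_succ' n 1, Nat.choose_one_right]

end comm

/-- in a cyclic group the quotient by the `p`-th powers has order at most `p` -/
lemma cyc_pow {Z : Type} [Group Z] [Finite Z] (hc : IsCyclic Z) {p : ℕ} (hp : p.Prime)
    (a b : Z) (ha : ∀ w : Z, a ≠ w ^ p) : ∃ (j : ℕ) (w : Z), b * a ^ j = w ^ p := by
  obtain ⟨g, hg⟩ := hc.exists_generator
  obtain ⟨k, rfl⟩ := (mem_powers_iff_mem_zpowers.mpr (hg a))
  obtain ⟨l, rfl⟩ := (mem_powers_iff_mem_zpowers.mpr (hg b))
  simp only at ha ⊢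
  have hk : ¬ p ∣ k := by
    rintro ⟨m, rfl⟩
    exact ha (g ^ m) (by rw [← pow_mul, mul_comm])
  have hcop : Nat.Coprime k p := ((Nat.Prime.coprime_iff_not_dvd hp).mpr hk).symm
  -- solve `l + j k ≡ 0`
  obtain ⟨j, hj⟩ : ∃ j : ℕ, p ∣ l + k * j := by
    have : Fact p.Prime := ⟨hp⟩
    have hk0 : (k : ZMod p) ≠ 0 := by
      rw [Ne, ZMod.natCast_eq_zero_iff]
      exact hk
    refine ⟨((-(l : ZMod p)) * (k : ZMod p)⁻¹).val, ?_⟩
    rw [← ZMod.natCast_eq_zero_iff]
    push_cast
    rw [ZMod.natCast_zmod_val]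
    field_simp
    ring
  obtain ⟨m, hm⟩ := hj
  refine ⟨j, g ^ m, ?_⟩
  rw [← pow_mul, ← pow_add, ← pow_mul, hm, mul_comm]

variable {X : Type} [Group X] [Finite X]

/-- two independent elements -/
lemma elt_of_pair {F : Subgroup X} (hle : Subgroup.center X ≤ F)
    (hcyc : IsCyclic (Subgroup.center X)) {p : ℕ} (hp : p.Prime) {u v z : X} (hu : u ∈ F)
    (hv : v ∈ F) (hz : z ∈ Subgroup.center X) (huv : u * v = z * v * u)
    (hzp : z ^ (p.choose 2) = 1) (hup : u ^ p ∈ Subgroup.center X)
    (hvp : v ^ p ∈ Subgroup.center X) (hu1 : u ∉ Subgroup.center X)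
    (hind : ∀ j : ℕ, v * u ^ j ∉ Subgroup.center X) :
    ∃ x ∈ F, x ∉ Subgroup.center X ∧ x ^ p = 1 := by
  have hcm : ∀ w ∈ Subgroup.center X, ∀ g : X, w * g = g * w := fun w hw g =>
    (Subgroup.mem_center_iff.mp hw g).symm
  have hcm' : ∀ w ∈ Subgroup.center X, ∀ g : X, (g * w⁻¹) ^ p = g ^ p * (w ^ p)⁻¹ := by
    intro w hw g
    rw [← inv_pow]
    exact (show Commute g w⁻¹ from ((hcm _ (Subgroup.inv_mem _ hw) g).symm)).mul_pow p
  by_cases ha : ∃ w : Subgroup.center X, (⟨u ^ p, hup⟩ : Subgroup.center X) = w ^ p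
  · obtain ⟨w, hw⟩ := ha
    have hw' : u ^ p = (w : X) ^ p := congrArg Subtype.val hw
    refine ⟨u * (w : X)⁻¹, F.mul_mem hu (F.inv_mem (hle w.2)), ?_, ?_⟩
    · intro h
      apply hu1
      have h1 := Subgroup.mul_mem _ h w.2
      rwa [inv_mul_cancel_right] at h1
    · rw [hcm' w w.2, hw', mul_inv_cancel]
  · push Not at ha
    obtain ⟨j, w, hjw⟩ := cyc_pow hcyc hp (⟨u ^ p, hup⟩ : Subgroup.center X) ⟨v ^ p, hvp⟩ ha
    have hjw' : v ^ p * (u ^ p) ^ j = (w : X) ^ p := congrArg Subtype.val hjw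
    refine ⟨v * u ^ j * (w : X)⁻¹, F.mul_mem (F.mul_mem hv (F.pow_mem hu j))
      (F.inv_mem (hle w.2)), ?_, ?_⟩
    · intro h
      apply hind j
      have h1 := Subgroup.mul_mem _ h w.2
      rwa [inv_mul_cancel_right] at h1
    · rw [hcm' w w.2]
      have h1 : u ^ j * v = z ^ j * v * u ^ j := pow_swap (hcm z hz v) (hcm z hz u) huv j
      have h2 : (v * u ^ j) ^ p = v ^ p * (u ^ j) ^ p * (z ^ j) ^ (p.choose 2) :=
        mul_pow_class (hcm _ (Subgroup.pow_mem _ hz j) v)
          (hcm _ (Subgroup.pow_mem _ hz j) _) h1 p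
      rw [h2, ← pow_mul z, mul_comm j, pow_mul z, hzp, one_pow, mul_one, ← pow_mul u,
        mul_comm j p, pow_mul u, hjw', mul_inv_cancel]

lemma exists_comm {F : Subgroup X} {D : ℕ} (hF : Frame X F D) {x y : X} (hx : x ∈ F)
    (hy : y ∈ F) : ∃ z ∈ Subgroup.center X, x * y = z * y * x :=
  ⟨x * y * x⁻¹ * y⁻¹, hF.comm x hx y hy, by group⟩

/-- an element of `F` of prime order modulo the centre -/
lemma exists_u {F : Subgroup X} {D : ℕ} (hF : Frame X F D) {p : ℕ} (hp : p.Prime)
    (hpD : p ∣ D) : ∃ u ∈ F, u ∉ Subgroup.center X ∧ u ^ p ∈ Subgroup.center X := by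
  have : Fact p.Prime := ⟨hp⟩
  let K : Subgroup F := (Subgroup.center X).subgroupOf F
  have hKn : K.Normal := inferInstance
  have hK : ∀ x : F, x ∈ K ↔ (x : X) ∈ Subgroup.center X := fun x => Iff.rfl
  have hcard : p ∣ Nat.card (F ⧸ K) := by
    have h1 := Subgroup.card_eq_card_quotient_mul_card_subgroup K
    have h2 : Nat.card K = Nat.card (Subgroup.center X) :=
      Nat.card_congr (Subgroup.subgroupOfEquivOfLe hF.le).toEquiv
    rw [hF.card, h2] at h1
    have h3 : D ^ 2 = Nat.card (F ⧸ K) := Nat.eq_of_mul_eq_mul_right Nat.card_pos h1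
    rw [← h3]
    exact hpD.trans (dvd_pow_self D two_ne_zero)
  obtain ⟨q, hq⟩ := exists_prime_orderOf_dvd_card' p hcard
  obtain ⟨u, rfl⟩ := QuotientGroup.mk_surjective q
  refine ⟨u, u.2, ?_, ?_⟩
  · intro h
    have h1 : (QuotientGroup.mk u : F ⧸ K) = 1 := (QuotientGroup.eq_one_iff u).mpr h
    rw [h1, orderOf_one] at hq
    exact hp.one_lt.ne hq
  · have h1 : (QuotientGroup.mk u : F ⧸ K) ^ p = 1 := by rw [← hq, pow_orderOf_eq_one]
    rw [← QuotientGroup.mk_pow, QuotientGroup.eq_one_iff] at h1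
    exact h1

/-- the smallest power in the centre -/
lemma exists_min_pow {F : Subgroup X} {D : ℕ} (hF : Frame X F D) {f : X} (hf : f ∈ F)
    (hfZ : f ∉ Subgroup.center X) :
    ∃ (q : ℕ) (w : X), q.Prime ∧ w ∈ Subgroup.zpowers f ∧ w ∉ Subgroup.center X ∧
      w ^ q ∈ Subgroup.center X := by
  -- the order modulo the centre
  let C := Subgroup.center X
  have hex : ∃ n, 0 < n ∧ f ^ n ∈ C := ⟨orderOf f, orderOf_pos f, by
    rw [pow_orderOf_eq_one]; exact C.one_mem⟩
  classical
  obtain ⟨hn0, hn⟩ := Nat.find_spec hex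
  have hmin := fun m => Nat.find_min hex (m := m)
  set n := Nat.find hex
  have hn1 : n ≠ 1 := by
    intro h
    rw [h, pow_one] at hn
    exact hfZ hn
  obtain ⟨q, hq, m, hm⟩ := Nat.exists_prime_and_dvd hn1
  refine ⟨q, f ^ m, hq, Subgroup.pow_mem _ (Subgroup.mem_zpowers f) m, ?_, ?_⟩
  · intro h
    have hm0 : 0 < m := by
      rcases Nat.eq_zero_or_pos m with h0 | h0
      · rw [h0, mul_zero] at hm; omega
      · exact h0
    have hlt : m < n := by
      have := hq.two_le
      nlinarith
    exact hmin m hlt ⟨hm0, h⟩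
  · rw [← pow_mul, mul_comm, ← hm]
    exact hn

lemma choose_two_dvd {p : ℕ} (hp : p.Prime) (h2 : p ≠ 2) {z : X} (hz : z ^ p = 1) :
    z ^ (p.choose 2) = 1 := by
  have h1 : p ∣ p.choose 2 := hp.dvd_choose_self (by norm_num) (by
    have := hp.two_le
    omega)
  obtain ⟨k, hk⟩ := h1
  rw [hk, pow_mul, hz, one_pow]

/-- involutions of a cyclic group -/
lemma cyc_invol {Z : Type} [Group Z] [Finite Z] (hc : IsCyclic Z) {a b : Z} (ha : a ^ 2 = 1)
    (ha1 : a ≠ 1) (hb : b ^ 2 = 1) : b = 1 ∨ b = a := by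
  classical
  have : Fintype Z := Fintype.ofFinite _
  by_contra hcon
  push Not at hcon
  obtain ⟨h1, h2⟩ := hcon
  have h3 := IsCyclic.card_pow_eq_one_le (α := Z) (n := 2) (by norm_num)
  have h4 : ({1, a, b} : Finset Z) ⊆ (Finset.univ.filter fun x : Z => x ^ 2 = 1) := by
    intro x hx
    rw [Finset.mem_filter]
    refine ⟨Finset.mem_univ _, ?_⟩
    simp only [Finset.mem_insert, Finset.mem_singleton] at hx
    rcases hx with rfl | rfl | rfl
    · exact one_pow 2
    · exact ha
    · exact hb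
  have h5 : ({1, a, b} : Finset Z).card = 3 := by
    rw [Finset.card_insert_of_notMem, Finset.card_insert_of_notMem, Finset.card_singleton]
    · rw [Finset.mem_singleton]; exact fun h => h2 h.symm
    · rw [Finset.mem_insert, Finset.mem_singleton]
      rintro (h | h)
      · exact ha1 h.symm
      · exact h1 h.symm
  have h6 := Finset.card_le_card h4
  omega

/-- **Noncentral elements of prime order** in a frame of degree different from two. -/
theorem exists_prime_elt {F : Subgroup X} {D : ℕ} (hF : Frame X F D) (hD : D ≠ 2) :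
    ∃ p : ℕ, p.Prime ∧ p ∣ D ∧ ∃ x ∈ F, x ∉ Subgroup.center X ∧ x ^ p = 1 := by
  classical
  have hcyc := hF.cyc
  have hcm : ∀ w ∈ Subgroup.center X, ∀ g : X, w * g = g * w := fun w hw g =>
    (Subgroup.mem_center_iff.mp hw g).symm
  -- the basic construction
  have key : ∀ p : ℕ, p.Prime → p ∣ D → (∃ x ∈ F, x ∉ Subgroup.center X ∧ x ^ p = 1) ∨
      (p = 2 ∧ ∃ u ∈ F, ∃ y ∈ F, ∃ c ∈ Subgroup.center X, u * y = c * y * u ∧ c ≠ 1 ∧
        c ^ 2 = 1 ∧ u ^ 2 ∈ Subgroup.center X ∧ y ^ 2 ∈ Subgroup.center X) := by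
    intro p hp hpD
    have hfact : Fact p.Prime := ⟨hp⟩
    obtain ⟨u, hu, huZ, hup⟩ := exists_u hF hp hpD
    -- noncommuting elements
    have hex : ∃ n : ℕ, 0 < n ∧ ∃ y ∈ F, u * y ≠ y * u ∧ y ^ n ∈ Subgroup.center X := by
      have h1 : ∃ y ∈ F, u * y ≠ y * u := by
        by_contra hcon
        push Not at hcon
        exact huZ (hF.cent u hcon)
      obtain ⟨y, hy, h2⟩ := h1
      exact ⟨orderOf y, orderOf_pos y, y, hy, h2, by
        rw [pow_orderOf_eq_one]; exact Subgroup.one_mem _⟩
    obtain ⟨hn0, y, hy, huy, hyn⟩ := Nat.find_spec hex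
    have hmin := fun m => Nat.find_min hex (m := m)
    set n := Nat.find hex
    obtain ⟨c, hc, huyc⟩ := exists_comm hF hu hy
    have hc1 : c ≠ 1 := by
      rintro rfl
      rw [one_mul] at huyc
      exact huy huyc
    have hcp : c ^ p = 1 := by
      have h1 := pow_swap (hcm c hc y) (hcm c hc u) huyc p
      rw [hcm _ hup y, mul_assoc] at h1
      have h2 : c ^ p * (y * u ^ p) = 1 * (y * u ^ p) := by rw [one_mul]; exact h1.symm
      exact mul_right_cancel h2
    have hcop : ∀ j : ℕ, c ^ j = 1 → p ∣ j := by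
      intro j hj
      have h1 : orderOf c = p := orderOf_eq_prime hcp hc1
      rw [← h1]
      exact orderOf_dvd_of_pow_eq_one hj
    have hn1 : n ≠ 1 := by
      intro h
      rw [h, pow_one] at hyn
      exact huy (hcm y hyn u).symm
    -- all prime divisors of `n` are `p`
    have hdiv : ∀ q : ℕ, q.Prime → q ∣ n → q = p := by
      intro q hq hqn
      by_contra hne
      obtain ⟨m, hm⟩ := hqn
      have hm0 : 0 < m := by
        rcases Nat.eq_zero_or_pos m with h0 | h0
        · rw [h0, mul_zero] at hm; omega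
        · exact h0
      have hlt : m < n := by
        have := hq.two_le
        nlinarith
      refine hmin m hlt ⟨hm0, y ^ q, F.pow_mem hy q, ?_, ?_⟩
      · intro h
        have h1 := pow_swap' (hcm c hc y) (hcm c hc u) huyc q
        rw [h, mul_assoc] at h1
        have h2 : c ^ q * (y ^ q * u) = 1 * (y ^ q * u) := by rw [one_mul]; exact h1.symm
        have h3 := hcop q (mul_right_cancel h2)
        exact hne ((Nat.prime_dvd_prime_iff_eq hp hq).mp h3).symm
      · rw [← pow_mul, ← hm]
        exact hyn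
    obtain ⟨q, hq, hqn⟩ := Nat.exists_prime_and_dvd hn1
    have hqp := hdiv q hq hqn
    subst hqp
    obtain ⟨m, hm⟩ := hqn
    have hm0 : 0 < m := by
      rcases Nat.eq_zero_or_pos m with h0 | h0
      · rw [h0, mul_zero] at hm; omega
      · exact h0
    have hmn : m < n := by
      have := hq.two_le
      nlinarith
    -- the element `v`
    have hv : y ^ m ∈ F := F.pow_mem hy m
    have hvq : (y ^ m) ^ q ∈ Subgroup.center X := by
      rw [← pow_mul, mul_comm m q, ← hm]
      exact hyn
    have hind : ∀ j : ℕ, y ^ m * u ^ j ∉ Subgroup.center X := by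
      intro j h
      -- the element commutes with `y`
      have h1 := hcm _ h y
      have h2 : u ^ j * y = y * u ^ j := by
        have h3 : y ^ m * (u ^ j * y) = y ^ m * (y * u ^ j) := by
          rw [← mul_assoc, h1, ← mul_assoc, ← mul_assoc, ← pow_succ, ← pow_succ']
        exact mul_left_cancel h3
      have h3 := pow_swap (hcm c hc y) (hcm c hc u) huyc j
      rw [h2, mul_assoc] at h3
      have h4 : c ^ j * (y * u ^ j) = 1 * (y * u ^ j) := by rw [one_mul]; exact h3.symm
      obtain ⟨k, hk⟩ := hcop j (mul_right_cancel h4)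
      have h5 : u ^ j ∈ Subgroup.center X := by
        rw [hk, pow_mul]
        exact Subgroup.pow_mem _ hup k
      have h6 : y ^ m ∈ Subgroup.center X := by
        have h7 := Subgroup.mul_mem _ h (Subgroup.inv_mem _ h5)
        rwa [mul_inv_cancel_right] at h7
      exact hmin m hmn ⟨hm0, y, hy, huy, h6⟩
    have hcomm := pow_swap' (hcm c hc y) (hcm c hc u) huyc m
    by_cases hz : (c ^ m) ^ (q.choose 2) = 1
    · left
      exact elt_of_pair hF.le hcyc hq hu hv (Subgroup.pow_mem _ hc m) hcomm hz hup hvq huZ hind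
    · right
      have hq2 : q = 2 := by
        by_contra h
        apply hz
        exact choose_two_dvd hq h (by rw [← pow_mul, mul_comm, pow_mul, hcp, one_pow])
      subst hq2
      refine ⟨rfl, u, hu, y, hy, c, hc, huyc, hc1, hcp, hup, ?_⟩
      have hm1 : m = 1 := by
        by_contra h
        obtain ⟨q', hq', h1⟩ := Nat.exists_prime_and_dvd h
        have h2 := hdiv q' hq' (h1.trans (by rw [hm]; exact dvd_mul_left _ _))
        subst h2
        apply hz
        obtain ⟨k, rfl⟩ := h1
        rw [pow_mul c, hcp, one_pow, one_pow]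
      rw [hm, hm1] at hyn
      simpa using hyn
  have hD1 := hF.one_lt
  by_cases hodd : ∃ p : ℕ, p.Prime ∧ p ∣ D ∧ p ≠ 2
  · obtain ⟨p, hp, hpD, hp2⟩ := hodd
    rcases key p hp hpD with h | ⟨h, -⟩
    · exact ⟨p, hp, hpD, h⟩
    · exact absurd h hp2
  push Not at hodd
  have h2D : 2 ∣ D := by
    obtain ⟨p, hp, hpD⟩ := Nat.exists_prime_and_dvd hD1.ne'
    rw [hodd p hp hpD] at hpD
    exact hpD
  rcases key 2 Nat.prime_two h2D with h | ⟨-, u, hu, y, hy, c, hc, huy, hc1, hc2, hu2, hy2⟩
  · exact ⟨2, Nat.prime_two, h2D, h⟩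
  refine ⟨2, Nat.prime_two, h2D, ?_⟩
  have huZ : u ∉ Subgroup.center X := by
    intro h
    have h1 := hcm u h y
    rw [huy, mul_assoc] at h1
    have h2 : c * (y * u) = 1 * (y * u) := by rw [one_mul]; exact h1
    exact hc1 (mul_right_cancel h2)
  -- an element commuting with `u` and `y`
  have hf : ∃ f ∈ F, f ∉ Subgroup.center X ∧ u * f = f * u ∧ y * f = f * y := by
    by_contra hcon
    push Not at hcon
    -- every element of `F` is central up to `u` and `y`
    have hsq : ∀ a ∈ F, a ^ 2 ∈ Subgroup.center X → ∀ f ∈ F,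
        a * f = f * a ∨ a * f = c * f * a := by
      intro a ha ha2 f hf
      obtain ⟨z, hz, h1⟩ := exists_comm hF ha hf
      have h2 := pow_swap (hcm z hz f) (hcm z hz a) h1 2
      rw [hcm _ ha2 f, mul_assoc] at h2
      have h3 : z ^ 2 * (f * a ^ 2) = 1 * (f * a ^ 2) := by rw [one_mul]; exact h2.symm
      have h4 := mul_right_cancel h3
      rcases cyc_invol hcyc (a := (⟨c, hc⟩ : Subgroup.center X)) (b := ⟨z, hz⟩)
        (Subtype.ext hc2) (fun h => hc1 (congrArg Subtype.val h)) (Subtype.ext h4) with h5 | h5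
      · left
        have h6 : z = 1 := congrArg Subtype.val h5
        rw [h1, h6, one_mul]
      · right
        have h6 : z = c := congrArg Subtype.val h5
        rw [h1, h6]
    have hcc : c * c = 1 := by rw [← pow_two]; exact hc2
    have hyu : y * u = c * u * y := by
      rw [mul_assoc, huy, mul_assoc, ← mul_assoc, hcc, one_mul]
    have hadj : ∀ f ∈ F, ∃ i j : Fin 2, f * y ^ (i : ℕ) * u ^ (j : ℕ) ∈ Subgroup.center X := by
      intro f hf
      obtain ⟨i, hi⟩ : ∃ i : Fin 2, u * (f * y ^ (i : ℕ)) = (f * y ^ (i : ℕ)) * u := by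
        rcases hsq u hu hu2 f hf with h | h
        · exact ⟨0, by simpa using h⟩
        · refine ⟨1, ?_⟩
          simp only [Fin.val_one, pow_one]
          calc u * (f * y) = (u * f) * y := by group
            _ = (c * f) * (u * y) := by rw [h]; group
            _ = c * f * (c * y * u) := by rw [huy]
            _ = c * (f * c) * y * u := by group
            _ = (c * c) * f * y * u := by rw [← hcm c hc f]; group
            _ = f * y * u := by rw [hcc]; group
      have hg : f * y ^ (i : ℕ) ∈ F := F.mul_mem hf (F.pow_mem hy _)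
      obtain ⟨j, hj, hj'⟩ : ∃ j : Fin 2,
          y * ((f * y ^ (i : ℕ)) * u ^ (j : ℕ)) = ((f * y ^ (i : ℕ)) * u ^ (j : ℕ)) * y ∧
          u * ((f * y ^ (i : ℕ)) * u ^ (j : ℕ)) = ((f * y ^ (i : ℕ)) * u ^ (j : ℕ)) * u := by
        set g := f * y ^ (i : ℕ)
        rcases hsq y hy hy2 g hg with h | h
        · exact ⟨0, by simpa using h, by simpa using hi⟩
        · refine ⟨1, ?_, ?_⟩
          · simp only [Fin.val_one, pow_one]
            calc y * (g * u) = (y * g) * u := by group
              _ = (c * g) * (y * u) := by rw [h]; group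
              _ = c * g * (c * u * y) := by rw [hyu]
              _ = c * (g * c) * u * y := by group
              _ = (c * c) * g * u * y := by rw [← hcm c hc g]; group
              _ = g * u * y := by rw [hcc]; group
          · simp only [Fin.val_one, pow_one]
            rw [← mul_assoc, hi]
      refine ⟨i, j, ?_⟩
      by_contra hnc
      exact hcon _ (F.mul_mem hg (F.pow_mem hu _)) hnc hj' hj
    choose I hI using fun f : F => hadj f f.2
    choose J hJ using hI
    let φ : F → Subgroup.center X × Fin 2 × Fin 2 := fun f => (⟨_, hJ f⟩, I f, J f)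
    have hφ : Function.Injective φ := by
      intro a b hab
      have h1 : (φ a).1 = (φ b).1 := by rw [hab]
      have h2 : I a = I b := by
        have : (φ a).2.1 = (φ b).2.1 := by rw [hab]
        exact this
      have h3 : J a = J b := by
        have : (φ a).2.2 = (φ b).2.2 := by rw [hab]
        exact this
      have h4 : (a : X) * y ^ ((I a : Fin 2) : ℕ) * u ^ ((J a : Fin 2) : ℕ)
          = b * y ^ ((I b : Fin 2) : ℕ) * u ^ ((J b : Fin 2) : ℕ) := congrArg Subtype.val h1
      rw [h2, h3] at h4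
      exact Subtype.ext (mul_right_cancel (mul_right_cancel h4))
    have h1 := Nat.card_le_card_of_injective φ hφ
    rw [hF.card, Nat.card_prod, Nat.card_prod, Nat.card_fin] at h1
    have hZ : 0 < Nat.card (Subgroup.center X) := Nat.card_pos
    have h2 : 3 ≤ D := by omega
    have h3 : 9 ≤ D ^ 2 := by nlinarith
    nlinarith
  obtain ⟨f, hfF, hfZ, hfu, hfy⟩ := hf
  obtain ⟨q, w, hq, hwf, hwZ, hwq⟩ := exists_min_pow hF hfF hfZ
  have hwF : w ∈ F := by
    have : Subgroup.zpowers f ≤ F := by rwa [Subgroup.zpowers_le]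
    exact this hwf
  have hwu : u * w = w * u := by
    obtain ⟨k, rfl⟩ := hwf
    exact ((show Commute u f from hfu).zpow_right k).eq
  have hwy : y * w = w * y := by
    obtain ⟨k, rfl⟩ := hwf
    exact ((show Commute y f from hfy).zpow_right k).eq
  -- `q = 2`
  have hqD : q ∣ D := by
    let K : Subgroup F := (Subgroup.center X).subgroupOf F
    have hKn : K.Normal := inferInstance
    have h1 := Subgroup.card_eq_card_quotient_mul_card_subgroup K
    have h2 : Nat.card K = Nat.card (Subgroup.center X) :=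
      Nat.card_congr (Subgroup.subgroupOfEquivOfLe hF.le).toEquiv
    rw [hF.card, h2] at h1
    have h3 : D ^ 2 = Nat.card (F ⧸ K) := Nat.eq_of_mul_eq_mul_right Nat.card_pos h1
    have h4 : orderOf (QuotientGroup.mk (⟨w, hwF⟩ : F) : F ⧸ K) = q := by
      have : Fact q.Prime := ⟨hq⟩
      apply orderOf_eq_prime
      · rw [← QuotientGroup.mk_pow, QuotientGroup.eq_one_iff]
        exact hwq
      · intro h
        rw [QuotientGroup.eq_one_iff] at h
        exact hwZ h
    have h5 : q ∣ D ^ 2 := by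
      rw [h3, ← h4]
      exact orderOf_dvd_natCard _
    exact hq.dvd_of_dvd_pow h5
  have hq2 := hodd q hq hqD
  subst hq2
  refine elt_of_pair hF.le hcyc Nat.prime_two hu hwF (Subgroup.one_mem _) (by rw [one_mul, hwu])
    (one_pow _) hu2 hwq huZ ?_
  intro j h
  have h1 := hcm _ h y
  have h2 : u ^ j * y = y * u ^ j := by
    have h3 : w * (u ^ j * y) = w * (y * u ^ j) := by
      rw [← mul_assoc, h1, ← mul_assoc, hwy, mul_assoc]
    exact mul_left_cancel h3
  have h3 := pow_swap (hcm c hc y) (hcm c hc u) huy j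
  rw [h2, mul_assoc] at h3
  have h4 : c ^ j * (y * u ^ j) = 1 * (y * u ^ j) := by rw [one_mul]; exact h3.symm
  have h5 : orderOf c = 2 := orderOf_eq_prime hc2 hc1
  obtain ⟨k, hk⟩ := orderOf_dvd_of_pow_eq_one (mul_right_cancel h4)
  rw [h5] at hk
  have h6 : u ^ j ∈ Subgroup.center X := by
    rw [hk, pow_mul]
    exact Subgroup.pow_mem _ hu2 k
  have h7 := Subgroup.mul_mem _ h (Subgroup.inv_mem _ h6)
  rw [mul_inv_cancel_right] at h7
  exact hwZ h7

end Pool.Agent.R362
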