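import Mathlib
import Pool.Agent.R362.Exact
import Pool.Agent.R362.PrimeElt

/-!
# Poles and zeros of the zeta functions of proper subfields
-/

set_option autoImplicit false
set_option linter.unusedSectionVars false

namespace Pool.Agent.R362

open Pool.Agent.H302R2 Pool.Agent.H541R3.ART Pool.Agent.H302R5 Pool.Agent.H302R6
  Pool.Agent.W446.AS Pool.Agent.Y788.V

section

variable {X : Type} [Group X] [Finite X] {σ : X → ℂ}

/-- the trivial character of `B` in the part of `σ` over a central character -/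
lemma zm_lam_le (hσ : IsHeilbronn σ) (ω : Subgroup.center X →* ℂˣ) (B : Subgroup X) :
    zm (lam (Subgroup.center X) ω σ) B ≤ zm σ B := by
  classical
  let Z := Subgroup.center X
  have : Fintype X := Fintype.ofFinite X
  have : Fintype Z := Fintype.ofFinite Z
  have : Fintype B := Fintype.ofFinite B
  have hcm : ∀ (z : Z) (g : X), (z : X) * g = g * z := fun z g =>
    (Subgroup.mem_center_iff.mp z.2 g).symm
  have hB : (Nat.card B : ℂ) ≠ 0 := card_ne
  have hZ : (Nat.card Z : ℂ) ≠ 0 := card_ne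
  let s : Z → ℂ := fun z => (Nat.card B : ℂ)⁻¹ * ∑ b : B, σ (z * b)
  have hs : IsHeilbronn s := by
    refine ⟨?_, ?_⟩
    · intro g h
      congr 2
      rw [show h * g * h⁻¹ = g from by
        rw [mul_inv_eq_iff_eq_mul]
        exact Subtype.ext (hcm h g)]
    · intro H ψ
      have : Fintype H := Fintype.ofFinite H
      let φ : H × B →* X :=
        { toFun := fun x => ((x.1 : Z) : X) * x.2
          map_one' := by simp
          map_mul' := by
            intro x y
            simp only [Prod.fst_mul, Prod.snd_mul, Subgroup.coe_mul]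
            have h1 := hcm (y.1 : Z) ((x.2 : B) : X)
            calc ((x.1 : Z) : X) * (y.1 : Z) * (((x.2 : B) : X) * y.2)
                = ((x.1 : Z) : X) * (((y.1 : Z) : X) * ((x.2 : B) : X)) * y.2 := by group
              _ = ((x.1 : Z) : X) * (x.2 : B) * (((y.1 : Z) : X) * y.2) := by rw [h1]; group }
      obtain ⟨n, hn⟩ := hσ.mult_hom φ (ψ.comp (MonoidHom.fst H B))
      refine ⟨n, ?_⟩
      rw [finsum_eq_sum_of_fintype]
      rw [Fintype.sum_prod_type, Nat.card_prod] at hn
      have h1 : ∀ h : H, s h * (((ψ h)⁻¹ : ℂˣ) : ℂ) = (Nat.card B : ℂ)⁻¹ *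
          ∑ b : B, σ (φ (h, b)) * ((((ψ.comp (MonoidHom.fst H B)) (h, b))⁻¹ : ℂˣ) : ℂ) := by
        intro h
        change (Nat.card B : ℂ)⁻¹ * (∑ b : B, σ (h * b)) * _ = _
        rw [mul_assoc, Finset.sum_mul]
        rfl
      rw [Finset.sum_congr rfl (fun h _ => h1 h), ← Finset.mul_sum, hn]
      push_cast
      field_simp
  have h1 := sum_lin_le hs {ω} (fun _ => zm (lam Z ω σ) B) (by
    intro ν hν
    rw [Finset.mem_singleton] at hν
    subst hν
    have h2 := zm_eq (lam_heilbronn (μ := ν) le_rfl hσ) B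
    rw [finsum_eq_sum_of_fintype] at h2 ⊢
    have h3 : ∑ z : Z, s z * (((ν z)⁻¹ : ℂˣ) : ℂ)
        = (Nat.card B : ℂ)⁻¹ * ((Nat.card Z : ℂ) * ∑ b : B, lam Z ν σ b) := by
      have h4 : ∀ z : Z, s z * (((ν z)⁻¹ : ℂˣ) : ℂ)
          = (Nat.card B : ℂ)⁻¹ * ∑ b : B, σ (b * z) * (((ν z)⁻¹ : ℂˣ) : ℂ) := by
        intro z
        change (Nat.card B : ℂ)⁻¹ * (∑ b : B, σ (z * b)) * _ = _
        rw [mul_assoc, Finset.sum_mul]
        congr 1
        exact Finset.sum_congr rfl fun b _ => by rw [hcm]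
      rw [Finset.sum_congr rfl (fun z _ => h4 z), ← Finset.mul_sum, Finset.sum_comm]
      congr 1
      rw [Finset.mul_sum]
      refine Finset.sum_congr rfl fun b _ => ?_
      rw [lam_eq, ← mul_assoc, mul_inv_cancel₀ hZ, one_mul]
    rw [h3, h2]
    field_simp) (z := zm σ B) (by
    have h2 := zm_eq hσ B
    rw [finsum_eq_sum_of_fintype] at h2
    have hc : ∀ a b : Z, a * b = b * a := fun a b => Subtype.ext (hcm a b)
    have h3 : commutator Z = ⊥ := by
      rw [commutator_def, Subgroup.commutator_eq_bot_iff_le_centralizer]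
      intro x _
      rw [Subgroup.mem_centralizer_iff]
      intro y _
      exact hc y x
    have h4 : ∀ (K : Subgroup Z), K = ⊥ → ∑ᶠ b : K, s b = zm σ B * Nat.card K := by
      rintro K rfl
      rw [finsum_eq_single _ (1 : (⊥ : Subgroup Z)) (by
        intro x hx
        exact absurd (Subsingleton.elim x 1) hx)]
      have h5 : s ((1 : (⊥ : Subgroup Z)) : Z) = zm σ B := by
        change (Nat.card B : ℂ)⁻¹ * ∑ b : B, σ (((1 : Z) : X) * b) = _
        have h6 : ∀ b : B, σ (((1 : Z) : X) * b) = σ b := by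
          intro b
          rw [Subgroup.coe_one, one_mul]
        rw [Finset.sum_congr rfl (fun b _ => h6 b), h2]
        field_simp
      rw [h5]
      simp
    exact h4 _ h3)
  simpa using h1

/-- the part over a faithful central character vanishes on noncentral elements of a frame -/
lemma lam_vanish {F : Subgroup X} {D : ℕ} (hF : Frame X F D) (hσ : IsHeilbronn σ)
    {ω : Subgroup.center X →* ℂˣ} (hω : Function.Injective ω) {x : X} (hx : x ∈ F)
    (hxZ : x ∉ Subgroup.center X) : lam (Subgroup.center X) ω σ x = 0 := by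
  have h1 : ∃ y ∈ F, x * y ≠ y * x := by
    by_contra hcon
    push Not at hcon
    exact hxZ (hF.cent x hcon)
  obtain ⟨y, hy, hxy⟩ := h1
  let z : Subgroup.center X := ⟨y * x * y⁻¹ * x⁻¹, hF.comm y hy x hx⟩
  have hz1 : z ≠ 1 := by
    intro h
    have h2 : y * x * y⁻¹ * x⁻¹ = 1 := congrArg Subtype.val h
    apply hxy
    have h3 : y * x * y⁻¹ = x := mul_inv_eq_one.mp h2
    exact (mul_inv_eq_iff_eq_mul.mp h3).symm
  have hH := lam_heilbronn (μ := ω) (θ := σ) le_rfl hσ
  have h2 := hH.conj x y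
  have h3 : y * x * y⁻¹ = x * z := by
    have h4 := Subgroup.mem_center_iff.mp z.2 x
    rw [h4]
    change _ = y * x * y⁻¹ * x⁻¹ * x
    rw [inv_mul_cancel_right]
  rw [h3, lam_mul] at h2
  have h4 : (((ω z : ℂˣ) : ℂ) - 1) * lam (Subgroup.center X) ω σ x = 0 := by
    rw [sub_mul, one_mul, h2, sub_self]
  rcases mul_eq_zero.mp h4 with h5 | h5
  · exfalso
    apply hz1
    apply hω
    rw [map_one]
    exact Units.ext (sub_eq_zero.mp h5)
  · exact h5

/-- elements of prime order give a bound for the degree -/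
lemma deg_le {F : Subgroup X} {D : ℕ} (hF : Frame X F D) (hσ : IsHeilbronn σ)
    {ω : Subgroup.center X →* ℂˣ} (hω : Function.Injective ω) {a : ℕ}
    (ha : lam (Subgroup.center X) ω σ 1 = a) {x : X} (hx : x ∈ F)
    (hxZ : x ∉ Subgroup.center X) {p : ℕ} (hp : p.Prime) (hxp : x ^ p = 1) :
    a ≤ p * zm σ (Subgroup.zpowers x) := by
  classical
  let B := Subgroup.zpowers x
  have : Fintype B := Fintype.ofFinite B
  have hx1 : x ≠ 1 := by
    rintro rfl
    exact hxZ (Subgroup.one_mem _)
  have hord : orderOf x = p := by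
    have : Fact p.Prime := ⟨hp⟩
    exact orderOf_eq_prime hxp hx1
  have hcard : Nat.card B = p := by rw [Nat.card_zpowers, hord]
  have hBF : B ≤ F := by
    rw [Subgroup.zpowers_le]
    exact hx
  have hBZ : ∀ b : B, b ≠ 1 → (b : X) ∉ Subgroup.center X := by
    intro b hb h
    -- `b` generates `B`
    have : Fact (Nat.card B).Prime := ⟨by rw [hcard]; exact hp⟩
    have h1 : Subgroup.zpowers b = ⊤ := zpowers_eq_top_of_prime_card rfl hb
    have h2 : (⟨x, Subgroup.mem_zpowers x⟩ : B) ∈ Subgroup.zpowers b := by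
      rw [h1]; exact Subgroup.mem_top _
    obtain ⟨k, hk⟩ := h2
    apply hxZ
    have h3 : (b : X) ^ k = x := congrArg Subtype.val hk
    rw [← h3]
    exact Subgroup.zpow_mem _ h k
  have h1 := zm_eq (lam_heilbronn (μ := ω) (θ := σ) le_rfl hσ) B
  rw [finsum_eq_sum_of_fintype, Fintype.sum_eq_single (1 : B) (fun b hb =>
    lam_vanish hF hσ hω (hBF b.2) (hBZ b hb)), Subgroup.coe_one, ha, hcard] at h1
  have h2 : a = zm (lam (Subgroup.center X) ω σ) B * p := by exact_mod_cast h1
  have h3 := zm_lam_le hσ ω B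
  rw [h2, mul_comm]
  exact Nat.mul_le_mul_left p h3

end

variable {G : Type} [Group G] [Finite G] {s₀ : ℂ}

/-- **the master theorem**: a pole of an Artin L-function of a solvable extension comes from one
Hecke L-function and the zeta functions of proper subfields -/
theorem art_master [Group.IsSolvable G] (A : ArtinData G s₀) {χ : G → ℂ} (hχ : χ ∈ Irr G)
    (hneg : meromorphicOrderAt (A.L χ) s₀ < 0) :
    ∃ (H : Subgroup G) (X : Type) (_ : Group X) (f : H →* X) (F : Subgroup X) (D : ℕ)
      (ω : Subgroup.center X →* ℂˣ) (a : ℕ),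
      Function.Surjective f ∧ Frame X F D ∧ (Nonempty (LTData A) → D ≠ 2) ∧
      Function.Injective ω ∧
      meromorphicOrderAt (A.Lin (pre H f (Subgroup.center X))
        (ω.comp (preHom H f (Subgroup.center X)))) s₀ = (a : WithTop ℤ) ∧
      (2 * D ≤ a ∨ (D ≤ a ∧ ∃ g : X, F ⊔ Subgroup.zpowers g = ⊤)) ∧
      ∀ x ∈ F, x ∉ Subgroup.center X → ∀ p z : ℕ, p.Prime → x ^ p = 1 →
        meromorphicOrderAt (A.Lin (pre H f (Subgroup.zpowers x)) 1) s₀ = (z : WithTop ℤ) →
        a ≤ p * z := by
  classical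
  by_contra hcon
  refine (not_lt.mpr (order_nonneg A hχ ?_)) hneg
  refine gmain (Nonempty (LTData A)) (Tr (theta A.ord : G → ℂ)) (tr_closed _) ?_ _ G rfl
    inferInstance _ (tr_self _) A.isHeilbronn (theta_virt _)
    (fun h => h.elim fun B => (solPos_theta B).twoPos) χ hχ
  intro X _ _ σ hσT hσ hσV F D hF hD2 ω hω a ha
  obtain ⟨H, f, hf, hfa⟩ := hσT
  have hmult : ∑ᶠ z : Subgroup.center X, σ z * (((ω z)⁻¹ : ℂˣ) : ℂ)
      = a * Nat.card (Subgroup.center X) := by
    rw [lam_one] at ha
    rw [← ha, mul_comm, ← mul_assoc, mul_inv_cancel₀ card_ne, one_mul]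
  have h1 := tr_mult hf hfa (Subgroup.center X) ω hmult
  have h2 : meromorphicOrderAt (A.Lin (pre H f (Subgroup.center X))
        (ω.comp (preHom H f (Subgroup.center X)))) s₀ = (a : WithTop ℤ) := by
    apply order_of_mult A
    exact h1
  have h3 : ∀ x ∈ F, x ∉ Subgroup.center X → ∀ p z : ℕ, p.Prime → x ^ p = 1 →
      meromorphicOrderAt (A.Lin (pre H f (Subgroup.zpowers x)) 1) s₀ = (z : WithTop ℤ) →
      a ≤ p * z := by
    intro x hx hxZ p z hp hxp hz
    have h4 := deg_le hF hσ hω ha hx hxZ hp hxp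
    have h5 : zm σ (Subgroup.zpowers x) = z := by
      have h6 := tr_mult hf hfa (Subgroup.zpowers x) 1 (a := zm σ (Subgroup.zpowers x)) (by
        have := zm_eq hσ (Subgroup.zpowers x)
        simpa using this)
      have h7 := mult_of_order A hz
      simp only [MonoidHom.one_apply, inv_one, Units.val_one, mul_one] at h6 h7
      rw [h6] at h7
      have h8 : (Nat.card (pre H f (Subgroup.zpowers x)) : ℂ) ≠ 0 := card_ne
      exact_mod_cast mul_right_cancel₀ h8 h7
    rw [← h5]
    exact h4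
  by_contra hbad
  apply hcon
  refine ⟨H, X, _, f, F, D, ω, a, hf, hF, hD2, hω, h2, ?_, h3⟩
  by_contra h4
  push Not at h4
  apply hbad
  refine ⟨by omega, ?_⟩
  rintro ⟨h5, g, hg⟩
  exact h4.2 h5 g hg

end Pool.Agent.R362
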