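import Mathlib
import Pool.Agent.R362.NewZ

/-!
# Zeros of small order of the zeta functions of the proper subfields
-/

set_option autoImplicit false
set_option linter.unusedSectionVars false

namespace Pool.Agent.R362

open Pool.Agent.H302R2 Pool.Agent.H541R3.ART Pool.Agent.H302R5 Pool.Agent.H302R6
  Pool.Agent.W446.AS Pool.Agent.Y788.V

variable {G : Type} [Group G] [Finite G] {s₀ : ℂ}

lemma pre_ne_bot {X : Type} [Group X] {H : Subgroup G} {f : H →* X} (hf : Function.Surjective f)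
    {x : X} (hx : x ≠ 1) : pre H f (Subgroup.zpowers x) ≠ ⊥ := by
  intro h
  obtain ⟨g, rfl⟩ := hf x
  have h1 : (g : G) ∈ pre H f (Subgroup.zpowers (f g)) :=
    mem_pre.mpr ⟨g.2, Subgroup.mem_zpowers _⟩
  rw [h, Subgroup.mem_bot] at h1
  apply hx
  have h2 : g = 1 := Subtype.ext h1
  rw [h2, map_one]

lemma exists_order (A : ArtinData G s₀) (H : Subgroup G) (ψ : H →* ℂˣ) :
    ∃ z : ℕ, meromorphicOrderAt (A.Lin H ψ) s₀ = (z : WithTop ℤ) := by
  obtain ⟨n, hn⟩ := A.isHeilbronn.mult H ψ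
  exact ⟨n, order_of_mult A hn⟩

/-- bounded orders of the zeta functions of the proper subfields -/
theorem art_sub [Group.IsSolvable G] (A : ArtinData G s₀) (B : LTData A) {ρ : ℕ}
    (hρ : ∀ H : Subgroup G, H ≠ ⊥ → ∀ z : ℕ,
      meromorphicOrderAt (A.Lin H 1) s₀ = (z : WithTop ℤ) → z ≤ ρ)
    {χ : G → ℂ} (hχ : χ ∈ Irr G) (hneg : meromorphicOrderAt (A.L χ) s₀ < 0) :
    ∃ (H : Subgroup G) (X : Type) (_ : Group X) (f : H →* X) (F : Subgroup X) (D p : ℕ),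
      Function.Surjective f ∧ Frame X F D ∧ D ≠ 2 ∧ p.Prime ∧ p ∣ D ∧
      (2 * D ≤ p * ρ ∨ (D ≤ p * ρ ∧ ∃ g : X, F ⊔ Subgroup.zpowers g = ⊤)) := by
  obtain ⟨H, X, _, f, F, D, ω, a, hf, hF, hD2, hω, ha, hDa, hx⟩ := art_master A hχ hneg
  have hXf : Finite X := Finite.of_surjective f hf
  have hD : D ≠ 2 := hD2 ⟨B⟩
  obtain ⟨p, hp, hpD, x, hxF, hxZ, hxp⟩ := exists_prime_elt hF hD
  obtain ⟨z, hz⟩ := exists_order A (pre H f (Subgroup.zpowers x)) 1
  have h1 := hx x hxF hxZ p z hp hxp hz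
  have hx1 : x ≠ 1 := by
    rintro rfl
    exact hxZ (Subgroup.one_mem _)
  have h2 : z ≤ ρ := hρ _ (pre_ne_bot hf hx1) z hz
  have h3 : a ≤ p * ρ := h1.trans (Nat.mul_le_mul_left p h2)
  refine ⟨H, X, _, f, F, D, p, hf, hF, hD, hp, hpD, ?_⟩
  rcases hDa with h4 | ⟨h4, h5⟩
  · exact Or.inl (h4.trans h3)
  · exact Or.inr ⟨h4.trans h3, h5⟩

/-- new zeros -/
theorem art_new [Group.IsSolvable G] (A : ArtinData G s₀) (B : LTData A)
    (hρ : ∀ H : Subgroup G, H ≠ ⊥ → meromorphicOrderAt (A.Lin H 1) s₀ = 0)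
    {χ : G → ℂ} (hχ : χ ∈ Irr G) : 0 ≤ meromorphicOrderAt (A.L χ) s₀ := by
  by_contra hcon
  push Not at hcon
  obtain ⟨H, X, _, f, F, D, p, hf, hF, hD, hp, hpD, h⟩ := art_sub A B (ρ := 0) (by
    intro H hH z hz
    rw [hρ H hH] at hz
    have : (0 : ℤ) = (z : ℤ) := by
      have h1 : ((0 : ℤ) : WithTop ℤ) = ((z : ℤ) : WithTop ℤ) := hz
      exact WithTop.coe_injective h1
    omega) hχ hcon
  have := hF.one_lt
  rcases h with h | ⟨h, -⟩ <;> omega

/-- at most simple zeros of the zeta functions of the proper subfields -/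
theorem art_simple [Group.IsSolvable G] (A : ArtinData G s₀) (B : LTData A)
    (hρ : ∀ H : Subgroup G, H ≠ ⊥ → meromorphicOrderAt (A.Lin H 1) s₀ = 0 ∨
      meromorphicOrderAt (A.Lin H 1) s₀ = 1)
    (hG : ∀ p m : ℕ, p.Prime → p ≠ 2 → m ∣ p ^ 2 - 1 → ¬ m ∣ p - 1 → ¬ p ^ 3 * m ∣ Nat.card G)
    {χ : G → ℂ} (hχ : χ ∈ Irr G) : 0 ≤ meromorphicOrderAt (A.L χ) s₀ := by
  by_contra hcon
  push Not at hcon
  obtain ⟨H, X, _, f, F, D, p, hf, hF, hD, hp, hpD, h⟩ := art_sub A B (ρ := 1) (by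
    intro H hH z hz
    rcases hρ H hH with h | h
    · rw [h] at hz
      have : (0 : ℤ) = (z : ℤ) := by
        have h1 : ((0 : ℤ) : WithTop ℤ) = ((z : ℤ) : WithTop ℤ) := hz
        exact WithTop.coe_injective h1
      omega
    · rw [h] at hz
      have : (1 : ℤ) = (z : ℤ) := by
        have h1 : ((1 : ℤ) : WithTop ℤ) = ((z : ℤ) : WithTop ℤ) := hz
        exact WithTop.coe_injective h1
      omega) hχ hcon
  have hXf : Finite X := Finite.of_surjective f hf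
  have hD1 := hF.one_lt
  have hpD' : p ≤ D := Nat.le_of_dvd (by omega) hpD
  rw [mul_one] at h
  have hDp : D = p := by
    rcases h with h | ⟨h, -⟩ <;> omega
  subst hDp
  obtain ⟨g, hg⟩ : ∃ g : X, F ⊔ Subgroup.zpowers g = ⊤ := by
    rcases h with h | ⟨-, h⟩
    · omega
    · exact h
  have hE := hF.crit_of_prime hp
  have hEn := hE.normal
  obtain ⟨a⟩ := hE.exists_act
  obtain ⟨h5, h6, h7⟩ := a.cyclic hE.prime hE.pos hg
  refine hG D _ hp hD h5 (by simpa using h6 1 (by norm_num) (by norm_num)) ?_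
  have hXG : Nat.card X ∣ Nat.card G :=
    (Subgroup.card_dvd_of_surjective f hf).trans (Subgroup.card_subgroup_dvd_card H)
  refine dvd_trans ?_ hXG
  rw [← Subgroup.index_mul_card F, mul_comm]
  exact mul_dvd_mul h7 hE.dvd_card

end Pool.Agent.R362
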