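import Mathlib
import Pool.Agent.R362.NewZ2

/-!
# Real functions
-/

set_option autoImplicit false
set_option linter.unusedSectionVars false

namespace Pool.Agent.R362

open Pool.Agent.H302R2 Pool.Agent.H541R3.ART Pool.Agent.H302R5 Pool.Agent.H302R6
  Pool.Agent.W446.AS Pool.Agent.Y788.V

section irr

variable {T : Type} [Group T] [Finite T]

/-- virtual characters of norm one and positive degree are irreducible characters -/
lemma irr_of_norm_one {τ : T → ℂ} (hV : Virt τ) (hn : pr τ τ = 1) {d : ℕ} (hd : 0 < d)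
    (h1 : τ 1 = d) : τ ∈ Irr T := by
  classical
  choose! l hl using fun ψ (hψ : ψ ∈ Irr T) => hV.pr_int hψ
  have hsum : ∑ ψ ∈ irrF T, l ψ ^ 2 = 1 := by
    have h2 : ∑ ψ ∈ irrF T, pr τ ψ ^ 2 = ((∑ ψ ∈ irrF T, l ψ ^ 2 : ℤ) : ℂ) := by
      push_cast
      exact Finset.sum_congr rfl fun ψ hψ => by rw [hl ψ (mem_irrF.mp hψ)]
    rw [pr_self_expand hV, h2] at hn
    exact_mod_cast hn
  obtain ⟨ψ, hψF, hψ0⟩ : ∃ ψ ∈ irrF T, l ψ ^ 2 ≠ 0 := by
    by_contra hcon
    push Not at hcon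
    rw [Finset.sum_eq_zero hcon] at hsum
    omega
  have hψ := mem_irrF.mp hψF
  have h3 := Finset.add_sum_erase (irrF T) (fun ψ => l ψ ^ 2) hψF
  rw [hsum] at h3
  have h4 : 0 ≤ ∑ ψ ∈ (irrF T).erase ψ, l ψ ^ 2 := Finset.sum_nonneg fun _ _ => sq_nonneg _
  have h5 : 0 < l ψ ^ 2 := lt_of_le_of_ne (sq_nonneg _) hψ0.symm
  have h6 : l ψ ^ 2 = 1 := by
    omega
  have h7 : ∑ ψ ∈ (irrF T).erase ψ, l ψ ^ 2 = 0 := by
    omega
  have h8 : ∀ φ ∈ (irrF T).erase ψ, l φ = 0 := by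
    intro φ hφ
    have := (Finset.sum_eq_zero_iff_of_nonneg fun _ _ => sq_nonneg _).mp h7 φ hφ
    exact pow_eq_zero_iff (two_ne_zero) |>.mp this
  have h9 : ∀ g, τ g = l ψ * ψ g := by
    intro g
    rw [hV.expand g, Finset.sum_eq_single ψ]
    · rw [hl ψ hψ]
    · intro φ hφ hne
      rw [hl φ (mem_irrF.mp hφ), h8 φ (Finset.mem_erase.mpr ⟨hne, hφ⟩)]; simp
    · intro h; exact absurd hψF h
  obtain ⟨e, he, he1⟩ := irr_deg_pos hψ
  have h10 : l ψ = 1 ∨ l ψ = -1 := by
    have h11 : (l ψ - 1) * (l ψ + 1) = 0 := by linear_combination h6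
    rcases mul_eq_zero.mp h11 with h | h
    · left; omega
    · right; omega
  rcases h10 with h | h
  · have : τ = ψ := by
      funext g
      rw [h9, h]; simp
    rw [this]; exact hψ
  · exfalso
    have h11 := h9 1
    rw [h1, he1, h] at h11
    have h12 : (d : ℤ) = -1 * e := by exact_mod_cast h11
    omega

/-- the dual character -/
lemma irr_inv {χ : T → ℂ} (hχ : χ ∈ Irr T) : (fun g => χ g⁻¹) ∈ Irr T := by
  classical
  have : Fintype T := Fintype.ofFinite T
  obtain ⟨d, hd, hd1⟩ := irr_deg_pos hχ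
  obtain ⟨n, ρ, hρ, rfl⟩ := exists_rep hχ
  have hV : Virt (fun g => ρ.character g⁻¹) := by
    have h1 : (fun g => ρ.character g⁻¹) = ρ.dual.character := by
      funext g
      rw [Representation.char_dual]
    rw [h1]
    exact char_mem _ ρ.dual rfl
  refine irr_of_norm_one hV ?_ hd (by simpa using hd1)
  have h2 := pr_self hχ
  rw [pr_eq] at h2 ⊢
  rw [← h2]
  congr 1
  refine Finset.sum_congr rfl fun g _ => ?_
  simp only [inv_inv]
  ring

end irr

/-- `θ` is real: `θ (g⁻¹) = θ g` -/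
def IsRealF {G : Type} [Group G] (θ : G → ℂ) : Prop := ∀ g : G, θ g⁻¹ = θ g

lemma IsRealF.push {G : Type} [Group G] [Fintype G] {Y : Type} [Group Y] [Finite Y] {π : G →* Y}
    {θ : G → ℂ} (h : IsRealF θ) : IsRealF (push π θ) := by
  classical
  intro y
  unfold Pool.Agent.H302R5.push
  congr 1
  rw [← Equiv.sum_comp (Equiv.inv G)]
  refine Finset.sum_congr rfl fun g _ => ?_
  rw [Equiv.inv_apply, map_inv, h]
  by_cases h1 : π g = y
  · rw [if_pos h1, if_pos (by rw [h1])]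
  · rw [if_neg h1, if_neg (fun h2 => h1 (inv_injective h2))]

lemma IsRealF.lam {G : Type} [Group G] [Finite G] {θ : G → ℂ}
    (hc : ∀ g x : G, θ (x * g * x⁻¹) = θ g) (h : IsRealF θ) {N : Subgroup G} {μ : N →* ℂˣ}
    (hμ : ∀ n, μ n⁻¹ = μ n) : IsRealF (lam N μ θ) := by
  classical
  have : Fintype N := Fintype.ofFinite N
  intro g
  rw [lam_eq, lam_eq, ← Equiv.sum_comp (Equiv.inv N)]
  congr 1
  refine Finset.sum_congr rfl fun n _ => ?_
  rw [Equiv.inv_apply, hμ]
  congr 1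
  have h1 : (g⁻¹ * ((n⁻¹ : N) : G)) = (n * g)⁻¹ := by
    rw [Subgroup.coe_inv, mul_inv_rev]
  rw [h1, h]
  have h2 := hc (g * n) n
  rw [← h2]
  congr 1
  group

variable {G : Type} [Group G] [Finite G] {s₀ : ℂ}

/-- at a real point the function is real -/
lemma theta_real (A : ArtinData G s₀)
    (hreal : ∀ χ ∈ Irr G, meromorphicOrderAt (A.L fun g => χ g⁻¹) s₀
      = meromorphicOrderAt (A.L χ) s₀) : IsRealF (theta A.ord : G → ℂ) := by
  classical
  intro g
  unfold theta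
  refine Finset.sum_bij' (fun χ _ => fun g => χ g⁻¹) (fun χ _ => fun g => χ g⁻¹) ?_ ?_ ?_ ?_ ?_
  · intro χ hχ
    exact mem_irrF.mpr (irr_inv (mem_irrF.mp hχ))
  · intro χ hχ
    exact mem_irrF.mpr (irr_inv (mem_irrF.mp hχ))
  · intro χ _
    funext g
    simp
  · intro χ _
    funext g
    simp
  · intro χ hχ
    have h1 := hreal χ (mem_irrF.mp hχ)
    have h2 : A.ord (fun g => χ g⁻¹) = A.ord χ := by
      unfold ArtinData.ord
      rw [h1]
    rw [h2]

/-- the parts over a central character and its inverse have the same degree -/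
lemma lam_inv_one {X : Type} [Group X] [Finite X] {σ : X → ℂ} (hσ : IsRealF σ)
    (ω : Subgroup.center X →* ℂˣ) :
    lam (Subgroup.center X) ω⁻¹ σ 1 = lam (Subgroup.center X) ω σ 1 := by
  classical
  have : Fintype (Subgroup.center X) := Fintype.ofFinite _
  rw [lam_eq, lam_eq, ← Equiv.sum_comp (Equiv.inv (Subgroup.center X))]
  congr 1
  refine Finset.sum_congr rfl fun z _ => ?_
  rw [Equiv.inv_apply, one_mul, one_mul, Subgroup.coe_inv, hσ, map_inv, MonoidHom.inv_apply,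
    inv_inv]

/-- for a real function the part over a character of order greater than two has at most half the
degree -/
lemma two_mul_le {X : Type} [Group X] [Finite X] {σ : X → ℂ} (hσ : IsHeilbronn σ)
    (hr : IsRealF σ) {ω : Subgroup.center X →* ℂˣ} (hω : Function.Injective ω)
    (hZ : Nat.card (Subgroup.center X) ≠ 1) (hZ2 : Nat.card (Subgroup.center X) ≠ 2)
    {a e : ℕ} (ha : lam (Subgroup.center X) ω σ 1 = a) (he : σ 1 = e) : 2 * a ≤ e := by
  classical
  let Z := Subgroup.center X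
  have : Fintype Z := Fintype.ofFinite Z
  have hZc : (Nat.card Z : ℂ) ≠ 0 := card_ne
  -- `ω ≠ ω⁻¹`
  have hne : ω ≠ ω⁻¹ := by
    intro h
    have h1 : ∀ z : Z, z ^ 2 = 1 := by
      intro z
      apply hω
      have h2 := DFunLike.congr_fun h z
      rw [MonoidHom.inv_apply] at h2
      rw [map_pow, pow_two, map_one]
      nth_rewrite 1 [h2]
      exact inv_mul_cancel _
    have hcyc : IsCyclic Z := cyclic_of_faithful ω hω
    have h2 := IsCyclic.card_pow_eq_one_le (α := Z) (n := 2) (by norm_num)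
    have h3 : (Finset.univ.filter fun x : Z => x ^ 2 = 1) = Finset.univ :=
      Finset.filter_true_of_mem fun x _ => h1 x
    rw [h3, Finset.card_univ, ← Nat.card_eq_fintype_card] at h2
    have h4 : 0 < Nat.card Z := Nat.card_pos
    change Nat.card Z ≠ 1 at hZ
    change Nat.card Z ≠ 2 at hZ2
    omega
  have hs : IsHeilbronn (fun z : Z => σ z) := hσ.comp Z.subtype
  have hmul : ∀ (ν : Z →* ℂˣ) (b : ℕ), lam Z ν σ 1 = b →
      ∑ᶠ z : Z, σ z * (((ν z)⁻¹ : ℂˣ) : ℂ) = b * Nat.card Z := by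
    intro ν b hb
    rw [lam_one] at hb
    rw [← hb, mul_comm, ← mul_assoc, mul_inv_cancel₀ hZc, one_mul]
  have h1 := sum_lin_le hs {ω, ω⁻¹} (fun _ => a) (by
    intro ν hν
    rw [Finset.mem_insert, Finset.mem_singleton] at hν
    rcases hν with rfl | rfl
    · exact hmul _ a ha
    · exact hmul _ a (by rw [lam_inv_one hr, ha])) (z := e) (by
    have hc : ∀ a b : Z, a * b = b * a := fun a b =>
      Subtype.ext (Subgroup.mem_center_iff.mp b.2 a)
    have h3 : commutator Z = ⊥ := by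
      rw [commutator_def, Subgroup.commutator_eq_bot_iff_le_centralizer]
      intro x _
      rw [Subgroup.mem_centralizer_iff]
      intro y _
      exact hc y x
    have h4 : ∀ (K : Subgroup Z), K = ⊥ → ∑ᶠ b : K, σ ((b : Z) : X) = e * Nat.card K := by
      rintro K rfl
      rw [finsum_eq_single _ (1 : (⊥ : Subgroup Z)) (by
        intro x hx
        exact absurd (Subsingleton.elim x 1) hx)]
      simp [he]
    exact h4 _ h3)
  rw [Finset.sum_const, Finset.card_insert_of_notMem (by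
    rw [Finset.mem_singleton]; exact hne), Finset.card_singleton, smul_eq_mul] at h1
  exact h1

/-- the conditions of the real case -/
def RObstruct (lt : Prop) (e : ℕ) (X : Type) [Group X] : Prop :=
  ∃ (F : Subgroup X) (D : ℕ), Frame X F D ∧ (lt → D ≠ 2) ∧
    ((4 * D ≤ e ∨ (2 * D ≤ e ∧ ∃ g, F ⊔ Subgroup.zpowers g = ⊤)) ∨
      (Nat.card (Subgroup.center X) = 2 ∧
        (2 * D ≤ e ∨ (D ≤ e ∧ ∃ g, F ⊔ Subgroup.zpowers g = ⊤))))

/-- the class of real pairs -/
def RealP {Q : Type} [Group Q] (e : ℕ) (X : Type) [Group X] (σ : X → ℂ) : Prop :=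
  IsRealF σ ∧ (∃ a : ℕ, a ≤ e ∧ σ 1 = a) ∧ ∃ (H : Subgroup Q) (f : H →* X), Function.Surjective f

lemma realP_closed {Q : Type} [Group Q] (e : ℕ) : Closed (RealP (Q := Q) e) := by
  refine ⟨?_, ?_⟩
  · rintro X _ _ σ ⟨h1, ⟨a, h2, h3⟩, H, f, hf⟩ _ _ X' _
    refine ⟨fun x => h1 x, ⟨a, h2, h3⟩, (X'.comap f).map H.subtype, ?_⟩
    have hm : ∀ q : (X'.comap f).map H.subtype, ∃ h : (q : Q) ∈ H, f ⟨q, h⟩ ∈ X' := by
      rintro ⟨q, y, hy, rfl⟩
      exact ⟨y.2, hy⟩
    refine ⟨{ toFun := fun q => ⟨f ⟨q, (hm q).1⟩, (hm q).2⟩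
              map_one' := Subtype.ext (map_one f)
              map_mul' := by
                intro p q
                apply Subtype.ext
                change f _ = f _ * f _
                rw [← map_mul]
                rfl }, ?_⟩
    rintro ⟨x, hx⟩
    obtain ⟨q, rfl⟩ := hf x
    exact ⟨⟨q, q, hx, rfl⟩, rfl⟩
  · rintro X _ _ σ ⟨h1, ⟨a, h2, h3⟩, H, f, hf⟩ hH _ Y _ _ π hπ
    obtain ⟨a', h4, h5⟩ := push_one_nat_le hπ hH h3
    exact ⟨h1.push, ⟨a', h4.trans h2, h5⟩, H, π.comp f, hπ.comp hf⟩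

/-- the real case -/
theorem real_core {Q : Type} [Group Q] [Finite Q] [Group.IsSolvable Q] (lt : Prop) {e : ℕ}
    {τ : Q → ℂ} (hτ : IsHeilbronn τ) (hV : Virt τ) (hr : IsRealF τ) {a : ℕ} (hae : a ≤ e)
    (h1 : τ 1 = a) (hlt : lt → TwoPos τ)
    (hfree : ∀ (H : Subgroup Q) (X : Type) [Group X] (f : H →* X), Function.Surjective f →
      ¬ RObstruct lt e X) :
    ∀ ψ ∈ Irr Q, ∃ k : ℕ, pr τ ψ = k := by
  classical
  refine gmain lt (RealP (Q := Q) e) (realP_closed e) ?_ _ Q rfl inferInstance τ ?_ hτ hV hlt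
  · rintro X _ _ σ ⟨hσr, ⟨s, hse, hs⟩, H, f, hf⟩ hH hV' F D hF hD2 ω hω b hb
    have h2 := hfree H X f hf
    have hZ1 : Nat.card (Subgroup.center X) ≠ 1 := by
      intro h
      -- the centre is trivial but contains nontrivial commutators
      have hne := hF.ne
      apply hne
      refine le_antisymm (fun x hx => ?_) hF.le
      apply hF.cent
      intro y hy
      have h3 := hF.comm x hx y hy
      rw [Subgroup.card_eq_one] at h
      rw [h, Subgroup.mem_bot] at h3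
      have h4 : x * y * x⁻¹ = y := mul_inv_eq_one.mp h3
      exact mul_inv_eq_iff_eq_mul.mp h4
    obtain ⟨b', hb', hb1⟩ := lam_one_le (μ := ω) le_rfl hH hs
    have hbb : b = b' := by
      rw [hb] at hb1
      exact_mod_cast hb1
    have hbe : b ≤ e := by omega
    by_cases hZ2 : Nat.card (Subgroup.center X) = 2
    · refine ⟨fun h4 => h2 ⟨F, D, hF, hD2, Or.inr ⟨hZ2, Or.inl (h4.trans hbe)⟩⟩, ?_⟩
      rintro ⟨h4, h5⟩
      exact h2 ⟨F, D, hF, hD2, Or.inr ⟨hZ2, Or.inr ⟨h4.trans hbe, h5⟩⟩⟩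
    · have h3 := two_mul_le hH hσr hω hZ1 hZ2 hb hs
      refine ⟨fun h4 => h2 ⟨F, D, hF, hD2, Or.inl (Or.inl (by omega))⟩, ?_⟩
      rintro ⟨h4, h5⟩
      exact h2 ⟨F, D, hF, hD2, Or.inl (Or.inr ⟨by omega, h5⟩)⟩
  · exact ⟨hr, ⟨a, hae, h1⟩, ⊤, (⊤ : Subgroup Q).subtype, fun x => ⟨⟨x, Subgroup.mem_top x⟩, rfl⟩⟩

end Pool.Agent.R362
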